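import Pool.Agent.Lib.MP_6d0ce9_ag.Defs

/-!
# Polarised objects: definitions

Example: `T` is the category of constructible motives over a subfield of the complex numbers,
`R` the Betti realisation, `W = ℚ(1)[2]` and `M = h(X)(d/2)[d]` with `X` smooth projective of
even dimension `d`.
-/

universe w v u

open CategoryTheory Category Limits MonoidalCategory Pretriangulated Triangulated

namespace Pool.Agent.Lib.MotT

section

variable {T : Type u} [Category.{v} T] [MonoidalCategory T]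

/-- `M ⊗ W ⊗ ⋯ ⊗ W` with `k` factors `W`, bracketed to the left. -/
def twist (W M : T) : ℕ → T
  | 0 => M
  | k + 1 => twist W M k ⊗ W

/-- The iterates `M ⟶ M ⊗ W ⊗ ⋯ ⊗ W` of a morphism `e : M ⟶ M ⊗ W`. -/
def lefPow {W M : T} (e : M ⟶ M ⊗ W) : (k : ℕ) → (M ⟶ twist W M k)
  | 0 => 𝟙 M
  | k + 1 => e ≫ (lefPow e k ▷ W)

/-- For `e : M ⟶ M ⊗ W` and `p : M ⊗ M ⟶ 𝟙` the form `(x, y) ↦ p(x, e^k y)` with values in the
tensor product of `k` factors `W`. -/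
def lefForm {W M : T} (e : M ⟶ M ⊗ W) (p : M ⊗ M ⟶ 𝟙_ T) :
    (k : ℕ) → (M ⊗ M ⟶ twist W (𝟙_ T) k)
  | 0 => p
  | k + 1 => (M ◁ e) ≫ (α_ M M W).inv ≫ (lefForm e p k ▷ W)

end

namespace Realization

variable {T : Type u} [Category.{v} T] [Preadditive T] [HasZeroObject T]
  [HasShift T ℤ] [∀ n : ℤ, (shiftFunctor T n).Additive] [Pretriangulated T]
  [MonoidalCategory T] [BraidedCategory T] {F : Type w} [Field F] (R : Realization T F)

/-- The cohomology group `H^i(X)`. -/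
abbrev Coh (i : ℤ) (X : T) : Type w := R.H0.obj (X⟦i⟧)

/-- `x` is the zero element of `H^i(X)`. -/
def Null {i : ℤ} {X : T} (x : R.Coh i X) : Prop := x = 0

/-- The map `H^i(X) ⟶ H^i(Y)` induced by a morphism. -/
noncomputable def mapH (i : ℤ) {X Y : T} (f : X ⟶ Y) (x : R.Coh i X) : R.Coh i Y :=
  (R.H0.map (f⟦i⟧')).hom x

/-- The product of `x ∈ H^i(X)` and `y ∈ H^j(Y)` in `H^n(X ⊗ Y)`, `n = i + j`. -/
noncomputable def mulH {i j n : ℤ} (h : i + j = n) {X Y : T} (x : R.Coh i X) (y : R.Coh j Y) :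
    R.Coh n (X ⊗ Y) :=
  R.cup h X Y x y

/-- The value of the form `(x, y) ↦ p(x, e^k y)` for `x` and `y` in `H^{-k}(M)`. -/
noncomputable def lefVal {W M : T} (e : M ⟶ M ⊗ W) (p : M ⊗ M ⟶ 𝟙_ T) (k : ℕ)
    (x y : R.Coh (-(k : ℤ)) M) : R.Coh (-(k : ℤ) + -(k : ℤ)) (twist W (𝟙_ T) k) :=
  R.mapH (-(k : ℤ) + -(k : ℤ)) (lefForm e p k) (R.mulH rfl x y)

/-- (Hodge-Riemann) For the morphism `g : Y ⟶ M`: the image of `H^{-k}(g)` is zero if `e^{k+1}`
and the form `(x, y) ↦ p(x, e^k y)` vanish on it. -/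
def HodgeRiemann {W M : T} (e : M ⟶ M ⊗ W) (p : M ⊗ M ⟶ 𝟙_ T) (k : ℕ) {Y : T} (g : Y ⟶ M) :
    Prop :=
  (∀ y, R.Null (R.mapH (-(k : ℤ)) (lefPow e (k + 1)) (R.mapH (-(k : ℤ)) g y))) →
    (∀ y y', R.Null (R.lefVal e p k (R.mapH (-(k : ℤ)) g y) (R.mapH (-(k : ℤ)) g y'))) →
      ∀ y, R.Null (R.mapH (-(k : ℤ)) g y)

/-- `M` is polarised with respect to `W`: it is self-dual, with evaluation `p : M ⊗ M ⟶ 𝟙`, and
there is a morphism `e : M ⟶ M ⊗ W` such that for all `k ≥ 0`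
* (hard Lefschetz) the map `H^{-k}(M) ⟶ H^{-k}(M ⊗ W^{⊗ k})` induced by `e^k` is bijective;
* (Hodge-Riemann) for every morphism `g : Y ⟶ M`, the image of `H^{-k}(g)` is zero if `e^{k+1}`
and the form `(x, y) ↦ p(x, e^k y)` vanish on it. -/
def IsPolarised (W M : T) : Prop :=
  ∃ (D : ExactPairing M M) (e : M ⟶ M ⊗ W), ∀ k : ℕ,
    Function.Bijective (R.mapH (-(k : ℤ)) (lefPow e k)) ∧
      ∀ (Y : T) (g : Y ⟶ M), R.HodgeRiemann e D.evaluation' k g

end Realization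

end Pool.Agent.Lib.MotT
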