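import Pool.Agent.Lib.MP_6d0ce9_ag.St.Coh
import Pool.Agent.Lib.MP_6d0ce9_ag.Sub

/-!
# The action of the symmetric group on tensor powers
-/

set_option linter.unusedSectionVars false

universe v u

open CategoryTheory Category Limits MonoidalCategory

namespace Pool.Agent.Lib.MotT

variable {T : Type u} [Category.{v} T] [MonoidalCategory T] [SymmetricCategory T]

/-- The action of a permutation on the tensor power. -/
noncomputable def pact (X : T) (n : ℕ) (σ : Equiv.Perm (Fin (n + 1))) : tpow X n ⟶ tpow X n :=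
  wordAct X n (exists_word σ).choose

lemma wordAct_eq_pact (X : T) (n : ℕ) (w : List (Fin n)) :
    wordAct X n w = pact X n (wordPerm w) :=
  wordAct_eq X n _ _ (exists_word (wordPerm w)).choose_spec.symm

lemma pact_mul (X : T) (n : ℕ) (σ τ : Equiv.Perm (Fin (n + 1))) :
    pact X n (σ * τ) = pact X n σ ≫ pact X n τ := by
  rw [pact, pact, pact, ← wordAct_append]
  apply wordAct_eq
  rw [wordPerm_append, (exists_word σ).choose_spec, (exists_word τ).choose_spec,
    (exists_word (σ * τ)).choose_spec]

lemma pact_one (X : T) (n : ℕ) : pact X n 1 = 𝟙 _ := by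
  have h : wordAct X n [] = pact X n (wordPerm []) := wordAct_eq_pact X n []
  exact h.symm.trans rfl |>.trans rfl

lemma pact_natural {X Y : T} (f : X ⟶ Y) (n : ℕ) (σ : Equiv.Perm (Fin (n + 1))) :
    tpowMap f n ≫ pact Y n σ = pact X n σ ≫ tpowMap f n :=
  wordAct_natural f n _

/-- The action of an element of the integral group ring of the symmetric group. -/
noncomputable def zact [Preadditive T] (X : T) (n : ℕ) (z : Equiv.Perm (Fin (n + 1)) → ℤ) :
    tpow X n ⟶ tpow X n :=
  ∑ σ : Equiv.Perm (Fin (n + 1)), z σ • pact X n σ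

lemma zact_natural [Preadditive T] {X Y : T} (f : X ⟶ Y) (n : ℕ)
    (z : Equiv.Perm (Fin (n + 1)) → ℤ) :
    tpowMap f n ≫ zact Y n z = zact X n z ≫ tpowMap f n := by
  rw [zact, zact, Preadditive.comp_sum, Preadditive.sum_comp]
  refine Finset.sum_congr rfl fun σ _ => ?_
  rw [Preadditive.comp_zsmul, Preadditive.zsmul_comp, pact_natural]

end Pool.Agent.Lib.MotT
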