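import Mathlib

/-!
# The group ring of a finite group is regular up to integers
-/

namespace Pool.Agent.Lib.MotT.St

lemma Reg_rat {G : Type*} [Group G] [Finite G] (z : MonoidAlgebra ℚ G) :
    ∃ y : MonoidAlgebra ℚ G, z * y * z = z := by
  obtain ⟨J, hJ⟩ := exists_isCompl (Submodule.span (MonoidAlgebra ℚ G) {z})
  have h1 : (1 : MonoidAlgebra ℚ G) ∈ Submodule.span (MonoidAlgebra ℚ G) {z} ⊔ J := by
    rw [hJ.sup_eq_top]
    exact Submodule.mem_top
  obtain ⟨e, he, f, hf, hef⟩ := Submodule.mem_sup.1 h1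
  obtain ⟨y, rfl⟩ := Submodule.mem_span_singleton.1 he
  rw [smul_eq_mul] at hef
  refine ⟨y, ?_⟩
  have h2 : z * f = z - z * y * z := by
    rw [eq_sub_iff_add_eq, mul_assoc, ← mul_add, add_comm f, hef, mul_one]
  have h3 : z * f ∈ J := J.smul_mem z hf
  have h4 : z * f ∈ Submodule.span (MonoidAlgebra ℚ G) {z} := by
    rw [h2]
    refine Submodule.sub_mem _ (Submodule.mem_span_singleton_self z) ?_
    exact Submodule.smul_mem _ (z * y) (Submodule.mem_span_singleton_self z)
  have h5 := Submodule.disjoint_def.1 hJ.disjoint _ h4 h3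
  rw [h5] at h2
  exact (sub_eq_zero.1 h2.symm).symm

lemma Reg_denom {G : Type*} [Group G] (y : MonoidAlgebra ℚ G) :
    ∃ (y' : MonoidAlgebra ℤ G) (c : ℤ), c ≠ 0 ∧
      MonoidAlgebra.mapRingHom G (Int.castRingHom ℚ) y' = c • y := by
  induction y using MonoidAlgebra.induction_linear with
  | zero => exact ⟨0, 1, one_ne_zero, by simp⟩
  | add a b ha hb =>
    obtain ⟨a', c, hc, h⟩ := ha
    obtain ⟨b', d, hd, h'⟩ := hb
    refine ⟨d • a' + c • b', c * d, mul_ne_zero hc hd, ?_⟩
    rw [map_add, map_zsmul, map_zsmul, h, h', smul_add, smul_smul, smul_smul, mul_comm d c]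
  | single g r =>
    refine ⟨MonoidAlgebra.single g r.num, r.den, by exact_mod_cast r.den_ne_zero, ?_⟩
    rw [MonoidAlgebra.mapRingHom_single, MonoidAlgebra.smul_single]
    congr 1
    have h := Rat.den_mul_eq_num r
    simp only [Int.coe_castRingHom, zsmul_eq_mul, Int.cast_natCast]
    exact h.symm

lemma Reg_inj {G : Type*} [Group G] :
    Function.Injective (MonoidAlgebra.mapRingHom G (Int.castRingHom ℚ)) := by
  intro a b h
  apply MonoidAlgebra.coeff_injective
  ext g
  have h2 : (MonoidAlgebra.mapRingHom G (Int.castRingHom ℚ) a).coeff g =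
      (MonoidAlgebra.mapRingHom G (Int.castRingHom ℚ) b).coeff g := by rw [h]
  rw [MonoidAlgebra.coeff_mapRingHom, MonoidAlgebra.coeff_mapRingHom] at h2
  exact Int.cast_injective h2

/-- For every element `z` of the integral group ring of a finite group there are `y` and a
nonzero integer `c` with `z y z = c z`. -/
theorem exists_regular {G : Type*} [Group G] [Finite G] (z : MonoidAlgebra ℤ G) :
    ∃ (y : MonoidAlgebra ℤ G) (c : ℤ), c ≠ 0 ∧ z * y * z = c • z := by
  obtain ⟨y, hy⟩ := Reg_rat (MonoidAlgebra.mapRingHom G (Int.castRingHom ℚ) z)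
  obtain ⟨y', c, hc, h⟩ := Reg_denom y
  refine ⟨y', c, hc, Reg_inj ?_⟩
  rw [map_mul, map_mul, h, map_zsmul, mul_smul_comm, smul_mul_assoc, hy]

end Pool.Agent.Lib.MotT.St
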