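import Pool.Agent.Lib.MP_6d0ce9_ag.St.TotF
import Pool.Agent.Lib.MP_6d0ce9_ag.St.Act
import Pool.Agent.Lib.MP_6d0ce9_ag.St.Reg

/-!
# Elements of the group ring which act as zero
-/

set_option linter.unusedSectionVars false

universe w v u

open CategoryTheory Category Limits MonoidalCategory Pretriangulated Triangulated

namespace Pool.Agent.Lib.MotT

section Zz

variable {T : Type u} [Category.{v} T] [Preadditive T] [MonoidalCategory T] [SymmetricCategory T]

/-- The action of the symmetric group as a homomorphism to the opposite of the endomorphism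
ring. -/
noncomputable def zz_hom (X : T) (n : ℕ) :
    Equiv.Perm (Fin (n + 1)) →* (End (tpow X n))ᵐᵒᵖ where
  toFun σ := MulOpposite.op (pact X n σ)
  map_one' := by
    rw [pact_one]
    rfl
  map_mul' σ τ := by
    rw [pact_mul]
    rfl

lemma zz_lift (X : T) (n : ℕ) (z : MonoidAlgebra ℤ (Equiv.Perm (Fin (n + 1)))) :
    MonoidAlgebra.lift ℤ _ _ (zz_hom X n) z = MulOpposite.op (zact X n z.coeff) := by
  rw [MonoidAlgebra.lift_apply, Finsupp.sum_fintype _ _ (by simp), zact]
  apply MulOpposite.unop_injective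
  rw [MulOpposite.unop_op, Finset.unop_sum]
  rfl

lemma zz_mul (X : T) (n : ℕ) (z y : MonoidAlgebra ℤ (Equiv.Perm (Fin (n + 1)))) :
    zact X n (z * y).coeff = zact X n z.coeff ≫ zact X n y.coeff := by
  have h := map_mul (MonoidAlgebra.lift ℤ _ _ (zz_hom X n)) z y
  rw [zz_lift, zz_lift, zz_lift] at h
  exact MulOpposite.op_injective h

lemma zz_smul (X : T) (n : ℕ) (c : ℤ) (z : MonoidAlgebra ℤ (Equiv.Perm (Fin (n + 1)))) :
    zact X n (c • z).coeff = c • zact X n z.coeff := by
  rw [zact, zact, Finset.smul_sum]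
  refine Finset.sum_congr rfl fun σ _ => ?_
  rw [← mul_smul]
  rfl

end Zz

namespace Realization

variable {T : Type u} [Category.{v} T] [Preadditive T] [HasZeroObject T] [HasShift T ℤ]
  [∀ n : ℤ, (shiftFunctor T n).Additive] [Pretriangulated T] [MonoidalCategory T]
  [SymmetricCategory T] {F : Type w} [Field F] (R : Realization T F)

lemma zz_inj_shift (a i : ℤ) {X Y : T} (f : X ⟶ Y) (h : Function.Injective (R.mp (a + i) f)) :
    Function.Injective (R.mp i (f⟦a⟧')) := by
  have hn := congrArg (fun g => R.H0.map g) ((shiftFunctorAdd T a i).hom.naturality f)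
  simp only [Functor.map_comp, Functor.comp_map] at hn
  have hX : ∀ x : R.Hm i (X⟦a⟧), ∃ x' : R.Hm (a + i) X,
      (R.H0.map ((shiftFunctorAdd T a i).hom.app X)).hom x' = x := fun x => by
    refine ⟨(R.H0.map ((shiftFunctorAdd T a i).inv.app X)).hom x, ?_⟩
    have h1 : R.H0.map ((shiftFunctorAdd T a i).inv.app X) ≫
        R.H0.map ((shiftFunctorAdd T a i).hom.app X) = 𝟙 _ := by
      rw [← Functor.map_comp, Iso.inv_hom_id_app, CategoryTheory.Functor.map_id]
    exact congrArg (fun g => g.hom x) h1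
  have hY : Function.Injective (R.H0.map ((shiftFunctorAdd T a i).hom.app Y)).hom := by
    have h1 : R.H0.map ((shiftFunctorAdd T a i).hom.app Y) ≫
        R.H0.map ((shiftFunctorAdd T a i).inv.app Y) = 𝟙 _ := by
      rw [← Functor.map_comp, Iso.hom_inv_id_app, CategoryTheory.Functor.map_id]
    intro y y' hyy
    have h2 := congrArg (fun g => g.hom y) h1
    have h3 := congrArg (fun g => g.hom y') h1
    simp only [ModuleCat.hom_comp, LinearMap.comp_apply, ModuleCat.hom_id, LinearMap.id_apply]
      at h2 h3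
    rw [← h2, ← h3, hyy]
  intro x x' hxx
  obtain ⟨u, rfl⟩ := hX x
  obtain ⟨u', rfl⟩ := hX x'
  have e1 := congrArg (fun g => g.hom u) hn
  have e2 := congrArg (fun g => g.hom u') hn
  simp only [ModuleCat.hom_comp, LinearMap.comp_apply] at e1 e2
  have e3 : R.mp (a + i) f u = R.mp (a + i) f u' := by
    apply hY
    exact e1.trans (hxx.trans e2.symm)
  rw [h e3]

lemma zz_comp {X Y : T} (f : X ⟶ Y) (i : ℤ) (x : R.Tot X) : R.tmap f x i = R.mp i f (x i) := by
  have h : (DirectSum.component F ℤ (fun i => R.Hm i Y) i).comp (R.tmap f) =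
      (R.mp i f).comp (DirectSum.component F ℤ (fun i => R.Hm i X) i) := by
    refine R.tot_ext fun j x => ?_
    rw [LinearMap.comp_apply, LinearMap.comp_apply, tmap_inc, inc, inc]
    by_cases hij : j = i
    · subst hij
      rw [DirectSum.component.lof_self, DirectSum.component.lof_self]
    · rw [DirectSum.component.of, DirectSum.component.of, dif_neg hij, dif_neg hij, map_zero]
  exact LinearMap.congr_fun h x

/-- A morphism which induces isomorphisms on cohomology is an isomorphism if `R` is
conservative. -/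
lemma isIso_of_tmap (hR : R.Conservative) {X Y : T} (f : X ⟶ Y)
    (hf : Function.Bijective (R.tmap f)) : IsIso f := by
  have hinj : ∀ i, Function.Injective (R.mp i f) := fun i x x' hx => by
    apply R.inc_injective i X
    apply hf.1
    rw [tmap_inc, tmap_inc, hx]
  have hsurj : ∀ i, Function.Surjective (R.mp i f) := fun i y => by
    obtain ⟨x, hx⟩ := hf.2 (R.inc i Y y)
    refine ⟨x i, ?_⟩
    rw [← zz_comp, hx, inc]
    exact DirectSum.component.lof_self F (M := fun i => R.Hm i Y) i y
  obtain ⟨Z, g, h, hT⟩ := distinguished_cocone_triangle f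
  have hZ : IsZero Z := by
    apply hR
    intro i
    have h0 : ∀ z : R.Hm i Z, z = 0 := fun z => by
      have h1 : R.mp i h z = 0 := by
        apply R.zz_inj_shift 1 i f (hinj _)
        rw [← mp_comp_apply, map_zero]
        have h2 : h ≫ f⟦(1 : ℤ)⟧' = 0 := comp_distTriang_mor_zero₃₁ _ hT
        rw [h2, mp_zero]
        rfl
      obtain ⟨y, hy⟩ := R.exact₃ hT i z h1
      obtain ⟨x, rfl⟩ := hsurj i y
      rw [← hy]
      change R.mp i g (R.mp i f x) = 0
      rw [← mp_comp_apply]
      have h2 : f ≫ g = 0 := comp_distTriang_mor_zero₁₂ _ hT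
      rw [h2, mp_zero]
      rfl
    exact ⟨fun a b => (h0 a).trans (h0 b).symm⟩
  exact (Triangle.isZero₃_iff_isIso₁ _ hT).1 hZ

lemma zz_tmap_smul_id (X : T) (c : ℤ) (x : R.Tot X) : R.tmap (c • 𝟙 X) x = (c : F) • x := by
  rw [tmap_zsmul, tmap_id, LinearMap.smul_apply, LinearMap.id_apply, Int.cast_smul_eq_zsmul]

/-- For a conservative realisation, an element of the group ring of the symmetric group which
acts as zero on the cohomology of a tensor power acts as zero on the tensor power. -/
theorem zact_eq_zero [CharZero F] (hR : R.Conservative) (X : T) (n : ℕ)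
    (z : Equiv.Perm (Fin (n + 1)) → ℤ) (h : R.tmap (zact X n z) = 0) : zact X n z = 0 := by
  classical
  obtain ⟨z', hz'⟩ : ∃ z' : MonoidAlgebra ℤ (Equiv.Perm (Fin (n + 1))), ⇑z'.coeff = z :=
    ⟨MonoidAlgebra.ofCoeff (Finsupp.equivFunOnFinite.symm z), rfl⟩
  obtain ⟨y, c, hc, hzy⟩ := St.exists_regular z'
  have hcF : (c : F) ≠ 0 := Int.cast_ne_zero.2 hc
  have h1 : zact X n z ≫ zact X n y.coeff ≫ zact X n z = c • zact X n z := by
    rw [← hz', ← assoc, ← zz_mul, ← zz_mul, hzy, zz_smul]
  set a := zact X n z with ha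
  set b := zact X n y.coeff with hb
  have h2 : R.tmap (a ≫ b) = 0 := by
    rw [tmap_comp, h, LinearMap.comp_zero]
  have hiso : ∀ e : tpow X n ⟶ tpow X n, R.tmap e = 0 → IsIso (c • 𝟙 (tpow X n) - e) := by
    intro e he
    apply R.isIso_of_tmap hR
    have h3 : ∀ x, R.tmap (c • 𝟙 (tpow X n) - e) x = (c : F) • x := fun x => by
      have h4 : R.tmap (c • 𝟙 (tpow X n)) =
          R.tmap (c • 𝟙 (tpow X n) - e) + R.tmap e := by
        rw [← tmap_add, sub_add_cancel]
      rw [he, add_zero] at h4
      rw [← h4, zz_tmap_smul_id]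
    constructor
    · intro x x' hx
      rw [h3, h3] at hx
      exact smul_right_injective _ hcF hx
    · intro x
      refine ⟨(c : F)⁻¹ • x, ?_⟩
      rw [h3, smul_smul, mul_inv_cancel₀ hcF, one_smul]
  have h5 : a ≫ b = 0 := by
    have := hiso (a ≫ b) h2
    have h6 : (c • 𝟙 (tpow X n) - a ≫ b) ≫ (a ≫ b) = 0 := by
      rw [Preadditive.sub_comp, Preadditive.zsmul_comp, id_comp]
      have h7 : (a ≫ b) ≫ a ≫ b = c • (a ≫ b) := by
        have h8 : (a ≫ b ≫ a) ≫ b = c • (a ≫ b) := by
          rw [h1, Preadditive.zsmul_comp]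
        rw [← h8]
        simp only [assoc]
      rw [h7, sub_self]
    exact (cancel_epi _).1 (h6.trans comp_zero.symm)
  have h9 : c • a = 0 := by
    rw [← h1, ← assoc, h5, zero_comp]
  have := hiso 0 (R.tmap_zero _ _)
  have h10 : (c • 𝟙 (tpow X n) - 0) ≫ a = 0 := by
    rw [sub_zero, Preadditive.zsmul_comp, id_comp, h9]
  exact (cancel_epi _).1 (h10.trans comp_zero.symm)

end Realization

end Pool.Agent.Lib.MotT
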