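import Pool.Agent.Lib.MP_6d0ce9_ag.St.Strict
import Pool.Agent.Lib.MP_6d0ce9_ag.St.PolDefs
import Pool.Agent.Lib.MP_6d0ce9_ag.St.Zz
import Pool.Agent.Lib.MP_6d0ce9_ag.Sh

/-!
# Positivity
-/

set_option linter.unusedSectionVars false

universe w v u

open CategoryTheory Category Limits MonoidalCategory Pretriangulated Triangulated
open scoped ZeroObject

namespace Pool.Agent.Lib.MotT

namespace Realization

variable {T : Type u} [Category.{v} T] [Preadditive T] [HasZeroObject T] [HasShift T ℤ]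
  [∀ n : ℤ, (shiftFunctor T n).Additive] [Pretriangulated T] [IsTriangulated T]
  [MonoidalCategory T] [SymmetricCategory T] [∀ X : T, (tensorLeft X).CommShift ℤ]
  [∀ X : T, (tensorLeft X).IsTriangulated] {F : Type w} [Field F] {R : Realization T F}
  {t : TStructure T}

/-- Every morphism has a transpose. -/
lemma exists_transpose {M B M' B' : T} [ExactPairing M M'] [ExactPairing B B'] (g : M ⟶ B) :
    ∃ g' : B' ⟶ M', g' ▷ M ≫ ε_ M M' = B' ◁ g ≫ ε_ B B' := by
  let φ : B' ⊗ M ⟶ 𝟙_ T := B' ◁ g ≫ ε_ B B'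
  refine ⟨tensorRightHomEquiv B' M M' (𝟙_ T) φ ≫ (λ_ M').hom, ?_⟩
  have h1 : φ = (tensorRightHomEquiv B' M M' (𝟙_ T) φ ▷ M) ≫ (α_ (𝟙_ T) M' M).hom ≫
      (𝟙_ T ◁ ε_ M M') ≫ (ρ_ (𝟙_ T)).hom :=
    ((tensorRightHomEquiv B' M M' (𝟙_ T)).symm_apply_apply φ).symm
  refine Eq.trans ?_ h1.symm
  rw [comp_whiskerRight, assoc, leftUnitor_whiskerRight, assoc, ← leftUnitor_naturality,
    unitors_equal]

/-- Künneth: every element is a sum of products -/
lemma cup_span' (n : ℤ) (X Y : T) (z : R.Hm n (X ⊗ Y)) :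
    z ∈ Submodule.span F {z | ∃ (i : ℤ) (x : R.Hm i X) (y : R.Hm (n - i) Y),
      z = R.cup (add_sub_cancel i n) X Y x y} := by
  obtain ⟨a, rfl⟩ := (R.kunneth n X Y).2 z
  induction a using DirectSum.induction_on with
  | zero => rw [map_zero]; exact Submodule.zero_mem _
  | add a b ha hb => rw [map_add]; exact Submodule.add_mem _ ha hb
  | of k a =>
    have h1 : DirectSum.toModule F ℤ (R.H0.obj ((X ⊗ Y)⟦n⟧))
      (fun i => TensorProduct.lift (R.cup (add_sub_cancel i n) X Y))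
        (DirectSum.of (fun i => TensorProduct F (R.Hm i X) (R.Hm (n - i) Y)) k a) =
        TensorProduct.lift (R.cup (add_sub_cancel k n) X Y) a := by
      rw [← DirectSum.lof_eq_of F, DirectSum.toModule_lof]
    rw [h1]
    induction a using TensorProduct.induction_on with
    | zero => rw [map_zero]; exact Submodule.zero_mem _
    | add a b ha hb =>
      rw [map_add]
      refine Submodule.add_mem _ (ha ?_) (hb ?_)
      · rw [← DirectSum.lof_eq_of F, DirectSum.toModule_lof]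
      · rw [← DirectSum.lof_eq_of F, DirectSum.toModule_lof]
    | tmul x y =>
      rw [TensorProduct.lift.tmul]
      exact Submodule.subset_span ⟨k, x, y, rfl⟩

/-- If the transpose of `g : M ⟶ B` is zero on `H^{-m}` then `g` is zero on `H^m`. -/
lemma mp_eq_zero_of_dual {M B M' B' : T} [ExactPairing M M'] [ExactPairing B B'] (g : M ⟶ B)
    (g' : B' ⟶ M') (hg : g' ▷ M ≫ ε_ M M' = B' ◁ g ≫ ε_ B B') (m : ℤ)
    (h : R.mp (-m) g' = 0) : R.mp m g = 0 := by
  obtain ⟨c, hc⟩ := R.nontrivial_unit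
  ext x
  rw [LinearMap.zero_apply]
  obtain ⟨x', rfl⟩ := R.surj_unit hc M x
  have e1 := ExactPairing.evaluation_coevaluation B B'
  have e2 : (λ_ B).hom = (η_ B B' ▷ B) ≫ (α_ B B' B).hom ≫ (B ◁ ε_ B B') ≫ (ρ_ B).hom := by
    have := congrArg (fun z => z ≫ (ρ_ B).hom) e1
    simp only [assoc, Iso.inv_hom_id, comp_id] at this
    exact this.symm
  have h1 : ∀ z : R.Hm 0 (B ⊗ B'), R.mp m ((α_ B B' B).hom ≫ (B ◁ ε_ B B') ≫ (ρ_ B).hom)
      (R.cup (zero_add m) (B ⊗ B') B z (R.mp m g x')) = 0 := by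
    intro z
    have h2 := cup_span' 0 B B' z
    induction h2 using Submodule.span_induction with
    | mem z hz =>
      obtain ⟨i, b, y, rfl⟩ := hz
      have h3 : R.mp (0 - i + m) (ε_ B B') (R.cup rfl B' B y (R.mp m g x')) = 0 := by
        have h4 : R.cup (rfl : 0 - i + m = 0 - i + m) B' B y (R.mp m g x') =
            R.mp (0 - i + m) (B' ◁ g) (R.cup rfl B' M y x') := by rw [cup_whiskerLeft]
        rw [h4, ← mp_comp_apply, ← hg, mp_comp_apply, cup_whiskerRight]
        by_cases hi : i = m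
        · subst hi
          have h5 : ∀ (j : ℤ) (_ : j = -i) (y : R.Hm j B'), R.mp j g' y = 0 := by
            rintro j rfl y
            rw [h, LinearMap.zero_apply]
          rw [h5 _ (by ring) y, map_zero, LinearMap.zero_apply, map_zero]
        · exact (R.unit_conc (0 - i + m) (by lia)).elim _ _
      have h6 := R.cup_assoc (add_sub_cancel i 0) (zero_add m)
        (rfl : 0 - i + m = 0 - i + m) (by ring : i + (0 - i + m) = m) B B' B b y (R.mp m g x')
      rw [mp_comp_apply]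
      change R.mp m ((B ◁ ε_ B B') ≫ (ρ_ B).hom) ((R.H0.map ((α_ B B' B).hom⟦m⟧')).hom _) = 0
      rw [h6, mp_comp_apply, cup_whiskerLeft, h3, map_zero, map_zero]
    | zero => simp
    | add a b _ _ ha hb => rw [map_add, LinearMap.add_apply, map_add, ha, hb, add_zero]
    | smul c a _ ha => rw [map_smul, LinearMap.smul_apply, map_smul, ha, smul_zero]
  rw [← mp_comp_apply, ← leftUnitor_naturality, mp_comp_apply, cup_whiskerLeft, e2,
    mp_comp_apply, cup_whiskerRight]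
  exact h1 _

lemma Lev.mono {a b m : ℤ} {M : T} {x : R.Hm m M} (hx : R.Lev t a m M x) (hab : a ≤ b) :
    R.Lev t b m M x := by
  obtain ⟨A, g, y, hA, rfl⟩ := hx
  exact ⟨A, g, y, t.isLE_of_le A a b hab, rfl⟩

lemma Lev.cup (ht : TensorCompatible t) {a b m j n : ℤ} (h : m + j = n) {M W : T}
    {x : R.Hm m M} (hx : R.Lev t a m M x) (hW : t.IsLE W b) (w : R.Hm j W) :
    R.Lev t (a + b) n (M ⊗ W) (R.cup h M W x w) := by
  obtain ⟨A, g, y, hA, rfl⟩ := hx
  exact ⟨A ⊗ W, g ▷ W, R.cup h A W y w, le_tensor ht hA hW, by rw [cup_whiskerRight]⟩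

/-- a nonzero class of level `≤ a` gives a nonzero class of level `≤ a - 2 k` of the twist -/
lemma exists_lev_twist (ht : TensorCompatible t) {W M : T} (hW1 : t.IsLE W (-2))
    (hW : ¬ R.Van (-2) W) {a m : ℤ} {x : R.Hm m M} (hx : R.Lev t a m M x) (hx0 : x ≠ 0)
    (k : ℕ) : ∀ n : ℤ, n = m - 2 * k → ∃ z : R.Hm n (twist W M k), z ≠ 0 ∧
      R.Lev t (a - 2 * k) n (twist W M k) z := by
  induction k with
  | zero =>
    rintro n hn
    obtain rfl : n = m := by simpa using hn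
    refine ⟨x, hx0, ?_⟩
    change R.Lev t (a - 2 * ((0 : ℕ) : ℤ)) n M x
    simpa using hx
  | succ k ih =>
    rintro n hn
    obtain ⟨w, hw⟩ : ∃ w : R.Hm (-2) W, w ≠ 0 := by
      by_contra h
      push Not at h
      exact hW ⟨fun x y => (h x).trans (h y).symm⟩
    obtain ⟨z, hz, hz'⟩ := ih (m - 2 * k) rfl
    have h1 : m - 2 * k + -2 = n := by rw [hn]; push_cast; ring
    refine ⟨R.cup h1 _ W z w, R.cup_ne_zero h1 hz hw, ?_⟩
    have h2 := hz'.cup ht h1 hW1 w
    rwa [show a - 2 * (k : ℤ) + -2 = a - 2 * ((k + 1 : ℕ) : ℤ) by push_cast; ring] at h2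

lemma twist_ge (hnd : Nondegenerate t) (ht : TensorCompatible t) {W : T}
    (hW2 : t.IsGE W (-2)) (k : ℕ) : t.IsGE (twist W (𝟙_ T) k) (-2 * (k : ℤ)) := by
  induction k with
  | zero =>
    change t.IsGE (𝟙_ T) (-2 * ((0 : ℕ) : ℤ))
    simpa using (unit_mem hnd ht).2
  | succ k ih =>
    have h := ge_tensor ht ih hW2
    rwa [show -2 * (k : ℤ) + -2 = -2 * ((k + 1 : ℕ) : ℤ) by push_cast; ring] at h

/-- The classes of `H^m(M)` have level at least `m`, if `M` is polarised: the case `m ≤ 0`. -/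
lemma eq_zero_of_lev_neg [CharZero F] (hnd : Nondegenerate t) (ht : TensorCompatible t)
    (hrig : IsRigid T) (hcons : R.Conservative) {W M : T} (hW1 : t.IsLE W (-2))
    (hW2 : t.IsGE W (-2)) (hW : ¬ R.Van (-2) W) (hM : R.IsPolarised W M) (k : ℕ) {a : ℤ}
    (hak : a < -(k : ℤ)) (x : R.Hm (-(k : ℤ)) M) (hx : R.Lev t a (-(k : ℤ)) M x) : x = 0 := by
  obtain ⟨D, e, he⟩ := hM
  obtain ⟨b, hb⟩ := R.bounded M
  have key : ∀ N k : ℕ, b < k + 2 * N → ∀ a : ℤ, a < -(k : ℤ) → ∀ x : R.Hm (-(k : ℤ)) M,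
      R.Lev t a (-(k : ℤ)) M x → x = 0 := by
    intro N
    induction N with
    | zero =>
      intro k hk a _ x _
      exact (hb (-(k : ℤ)) (by rw [abs_neg, Nat.abs_cast]; simpa using hk)).elim _ _
    | succ N ih =>
      intro k hk a hak x hx
      -- step A
      have hA : ∀ x : R.Hm (-(k : ℤ)) M, R.Lev t a (-(k : ℤ)) M x →
          R.mp (-(k : ℤ)) (lefPow e (k + 1)) x = 0 := by
        intro x hx
        by_contra h0
        obtain ⟨z, hz, hz'⟩ := exists_lev_twist ht hW1 hW (hx.map (lefPow e (k + 1))) h0 1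
          (-((k + 2 : ℕ) : ℤ)) (by push_cast; ring)
        obtain ⟨x₁, hx₁⟩ := (he (k + 2)).1.2 z
        have h1 : R.Lev t (a - 2 * (1 : ℕ)) _ M x₁ := by
          refine strict hnd ht hrig hcons (lefPow e (k + 2)) (fun y hy => ?_) x₁ ?_
          · exact (he (k + 2)).1.1 (hy.trans (map_zero _).symm)
          · change R.Lev t (a - 2 * (1 : ℕ)) _ _ (R.mapH _ (lefPow e (k + 2)) x₁)
            rw [hx₁]
            exact hz'
        have h2 := ih (k + 2) (by push_cast at hk ⊢; lia) _ (by push_cast; lia) x₁ h1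
        apply hz
        rw [← hx₁, h2]
        exact map_zero (R.mp (-((k + 2 : ℕ) : ℤ)) (lefPow e (k + 2)))
      obtain ⟨A, B, f, g, δ, hT, hA', hB'⟩ := exists_trunc t M a (a + 1) rfl
      obtain ⟨x', hx'⟩ := R.exact₂' hT _ x ((lev_iff hT hA' hB' x).1 hx)
      have hlev : ∀ y : R.Hm (-(k : ℤ)) A, R.Lev t a (-(k : ℤ)) M (R.mp _ f y) := fun y =>
        ⟨A, f, y, hA', rfl⟩
      have h0 : (f ⊗ₘ f) ≫ lefForm e D.evaluation' k = 0 := by
        have h1 := le_tensor ht hA' hA'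
        have h2 := twist_ge hnd ht hW2 k
        exact t.zero_of_isLE_of_isGE _ (a + a) (-2 * (k : ℤ)) (by lia) h1 h2
      rw [← hx']
      refine (he k).2 A f (fun y => hA _ (hlev y)) (fun y y' => ?_) x'
      have h1 : R.cup (rfl : -(k : ℤ) + -(k : ℤ) = _) M M (R.mp (-(k : ℤ)) f y)
          (R.mp (-(k : ℤ)) f y') = R.mp _ (f ⊗ₘ f) (R.cup rfl A A y y') :=
        (R.cup_nat rfl f f y y').symm
      change R.mp _ (lefForm e D.evaluation' k) (R.cup rfl M M (R.mp (-(k : ℤ)) f y)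
          (R.mp (-(k : ℤ)) f y')) = 0
      rw [h1, ← mp_comp_apply, h0, mp_zero, LinearMap.zero_apply]
  exact key (b.toNat + 1) k (by
    have := Int.self_le_toNat b
    push_cast
    lia) a hak x hx

/-- The classes of `H^m(M)` have level at least `m`, if `M` is polarised. -/
theorem eq_zero_of_lev [CharZero F] (hnd : Nondegenerate t) (ht : TensorCompatible t)
    (hrig : IsRigid T) (hcons : R.Conservative) {W M : T} (hW1 : t.IsLE W (-2))
    (hW2 : t.IsGE W (-2)) (hW : ¬ R.Van (-2) W) (hM : R.IsPolarised W M) {a m : ℤ}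
    (ham : a < m) (x : R.Hm m M) (hx : R.Lev t a m M x) : x = 0 := by
  rcases le_or_gt m 0 with hm | hm
  · obtain ⟨k, rfl⟩ : ∃ k : ℕ, m = -(k : ℤ) := ⟨m.natAbs, by lia⟩
    exact eq_zero_of_lev_neg hnd ht hrig hcons hW1 hW2 hW hM k ham x hx
  · obtain ⟨k, rfl⟩ : ∃ k : ℕ, m = (k : ℤ) := ⟨m.natAbs, by lia⟩
    by_contra h0
    obtain ⟨z, hz, hz'⟩ := exists_lev_twist ht hW1 hW hx h0 k (-(k : ℤ)) (by ring)
    obtain ⟨D, e, he⟩ := id hM
    obtain ⟨x₁, hx₁⟩ := (he k).1.2 z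
    have h1 : R.Lev t (a - 2 * k) _ M x₁ := by
      refine strict hnd ht hrig hcons (lefPow e k) (fun y hy => ?_) x₁ ?_
      · exact (he k).1.1 (hy.trans (map_zero _).symm)
      · change R.Lev t (a - 2 * k) _ _ (R.mapH _ (lefPow e k) x₁)
        rw [hx₁]
        exact hz'
    have h2 := eq_zero_of_lev_neg hnd ht hrig hcons hW1 hW2 hW hM k (by lia) x₁ h1
    apply hz
    rw [← hx₁, h2]
    exact map_zero (R.mp (-(k : ℤ)) (lefPow e k))

/-- the dual of an object of `D^{≥ n}` is in `D^{≤ -n}` -/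
lemma dual_le' (hnd : Nondegenerate t) (ht : TensorCompatible t)
    {X Y : T} [ExactPairing X Y] {n : ℤ} (hX : t.IsGE X n) : t.IsLE Y (-n) := by
  apply isLE_of_orth
  intro B hB f
  let e := tensorLeftHomEquiv (𝟙_ T) X Y B
  have h1 : ∀ g : 𝟙_ T ⟶ X ⊗ B, g = 0 := fun g => by
    have h2 := ge_tensor ht hX hB
    exact t.zero_of_isLE_of_isGE _ 0 (n + (-n + 1)) (by lia) (unit_mem hnd ht).1 h2
  have h3 : ∀ g g' : Y ⊗ 𝟙_ T ⟶ B, g = g' := fun g g' => by
    apply e.injective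
    rw [h1 (e g), h1 (e g')]
  have h4 : (ρ_ Y).hom ≫ f = (ρ_ Y).hom ≫ 0 := h3 _ _
  exact (cancel_epi _).1 h4

/-- The classes of `H^m(M)` have level at most `m`, if `M` is polarised. -/
theorem lev_of_le [CharZero F] (hnd : Nondegenerate t) (ht : TensorCompatible t)
    (hrig : IsRigid T) (hcons : R.Conservative) {W M : T} (hW1 : t.IsLE W (-2))
    (hW2 : t.IsGE W (-2)) (hW : ¬ R.Van (-2) W) (hM : R.IsPolarised W M) {a m : ℤ}
    (ham : m ≤ a) (x : R.Hm m M) : R.Lev t a m M x := by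
  obtain ⟨A, B, f, g, δ, hT, hA, hB⟩ := exists_trunc t M a (a + 1) rfl
  refine (lev_iff hT hA hB x).2 ?_
  obtain ⟨B', ⟨hBB⟩⟩ := hrig B
  obtain ⟨D, -⟩ := id hM
  obtain ⟨g', hg'⟩ := exists_transpose (M := M) (M' := M) (B' := B') g
  have h1 : t.IsLE B' (-(a + 1)) := dual_le' hnd ht hB
  rw [mp_eq_zero_of_dual g g' hg' m ?_, LinearMap.zero_apply]
  ext y
  rw [LinearMap.zero_apply]
  exact eq_zero_of_lev hnd ht hrig hcons hW1 hW2 hW hM (a := -(a + 1)) (by lia) _
    ⟨B', g', y, h1, rfl⟩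

/-- The truncations of a polarised object. -/
lemma van_of_polarised [CharZero F] (hnd : Nondegenerate t) (ht : TensorCompatible t)
    (hrig : IsRigid T) (hcons : R.Conservative) {W M : T} (hW1 : t.IsLE W (-2))
    (hW2 : t.IsGE W (-2)) (hW : ¬ R.Van (-2) W) (hM : R.IsPolarised W M) {a : ℤ}
    {A B : T} {f : A ⟶ M} {g : M ⟶ B} {δ : B ⟶ A⟦(1 : ℤ)⟧}
    (hT : Triangle.mk f g δ ∈ distTriang T) (hA : t.IsLE A a) (hB : t.IsGE B (a + 1)) :
    (∀ m, a < m → R.Van m A) ∧ ∀ m, m ≤ a → R.Van m B := by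
  have hinj := fun m => trunc_injective (R := R) hnd ht hrig hcons m hT hA hB
  constructor
  · intro m hm
    have h0 : ∀ y : R.Hm m A, y = 0 := fun y => hinj m y
      (eq_zero_of_lev hnd ht hrig hcons hW1 hW2 hW hM hm _ ⟨A, f, y, hA, rfl⟩)
    exact ⟨fun x y => (h0 x).trans (h0 y).symm⟩
  · intro m hm
    have h0 : ∀ z : R.Hm m B, z = 0 := by
      intro z
      have h1 : R.mp m δ z = 0 := by
        have h2 : δ ≫ f⟦(1 : ℤ)⟧' = 0 := comp_distTriang_mor_zero₃₁ _ hT
        have h3 : R.mp m (f⟦(1 : ℤ)⟧') (R.mp m δ z) = 0 := by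
          rw [← mp_comp_apply, h2, mp_zero, LinearMap.zero_apply]
        exact mp_shift_injective rfl f (hinj (1 + m)) _ h3
      obtain ⟨y, hy⟩ : ∃ y : R.Hm m M, R.mp m g y = z := R.exact₃ hT m z h1
      rw [← hy]
      exact (lev_iff hT hA hB y).1 (lev_of_le hnd ht hrig hcons hW1 hW2 hW hM hm y)
    exact ⟨fun x y => (h0 x).trans (h0 y).symm⟩

/-- An object concentrated in degree `0` has a vanishing exterior power. -/
lemma extPower_of_conc [CharZero F] (hcons : R.Conservative) {X : T}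
    (hX : R.ConcentratedIn 0 X) : ∃ n, ExtPowerVanishes X n := by
  refine ⟨Module.finrank F (R.Hm 0 X), fun V hV => ?_⟩
  have hconc : ∀ n, R.ConcentratedIn 0 (tpow X n) := by
    intro n
    induction n with
    | zero => exact hX
    | succ n ih => exact R.conc_tensor (by ring) ih hX
  have h1 : antisym X (Module.finrank F (R.Hm 0 X)) V =
      zact X (Module.finrank F (R.Hm 0 X)) fun σ => (Equiv.Perm.sign σ : ℤ) := by
    rw [antisym, zact]
    refine Finset.sum_congr rfl fun σ _ => ?_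
    rw [wordAct_eq_pact, hV]
  have h2 := R.mp_antisym_eq_zero hX (Module.finrank F (R.Hm 0 X)) le_rfl V hV
  rw [dg_zero] at h2
  rw [h1] at h2 ⊢
  refine R.zact_eq_zero hcons X _ _ ((R.tmap_eq_zero_iff _).2 fun i => ?_)
  by_cases hi : i = 0
  · subst hi
    exact h2
  · ext x
    exact (hconc _ i hi).elim _ _

/-- The realisation is exact if polarised objects generate. -/
theorem texact_of_polarised [CharZero F] (hnd : Nondegenerate t) (ht : TensorCompatible t)
    (hrig : IsRigid T) (hcons : R.Conservative) {W : T} (hW1 : t.IsLE W (-2))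
    (hW2 : t.IsGE W (-2)) (hW : ¬ R.Van (-2) W)
    (hgen : ObjectProperty.IsClassicalTriangulatedGenerator (fun M : T => R.IsPolarised W M)) :
    R.TExact t := by
  apply R.texact_of_gen ht
  obtain ⟨Q, hQ⟩ : ∃ Q : ObjectProperty T, Q = Sorting.anyOf (R.DD t) := ⟨_, rfl⟩
  rw [← hQ]
  have hQ' : ∀ (n : ℤ) (X : T), t.IsLE X n → t.IsGE X n → R.ConcentratedIn n X → Q X := by
    intro n X h1 h2 h3
    rw [hQ]
    exact ⟨n, h1, h2, h3, extPower_of_conc hcons (by simpa using h3.shift n)⟩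
  have hu := unit_mem hnd ht
  have hne : Q.Nonempty := ⟨𝟙_ T, hQ' 0 _ hu.1 hu.2 R.unit_conc⟩
  rw [ObjectProperty.isClassicalTriangulatedGenerator_iff, eq_top_iff] at hgen ⊢
  refine hgen.trans ((ObjectProperty.triangEnvelope_le_iff _).2 ?_)
  intro M hM
  obtain ⟨b, hb1, hb2⟩ := bounded_of_conservative hnd ht hcons M
  have key : ∀ (k : ℕ) (A B : T) (f : A ⟶ M) (g : M ⟶ B) (δ : B ⟶ A⟦(1 : ℤ)⟧),
      Triangle.mk f g δ ∈ distTriang T → t.IsLE A (-(b : ℤ) - 1 + k) →
      t.IsGE B (-(b : ℤ) - 1 + k + 1) → Q.triangEnvelope A := by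
    intro k
    induction k with
    | zero =>
      intro A B f g δ hT hA hB
      have h1 : t.IsGE A (-(b : ℤ)) :=
        isGE₁ t hT _ hb1 (t.isGE_of_ge B _ (-(b : ℤ) - 1 + ((0 : ℕ) : ℤ) + 1) (by push_cast; lia))
      have h2 : IsZero A := by
        rw [IsZero.iff_id_eq_zero]
        exact t.zero_of_isLE_of_isGE _ _ _ (by push_cast; lia) hA h1
      exact Q.triangEnvelope.prop_of_isZero h2
    | succ k ih =>
      intro A B f g δ hT hA hB
      obtain ⟨A', G, f', g', δ', hT', hA', hG⟩ := exists_trunc t A (-(b : ℤ) - 1 + k)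
        (-(b : ℤ) - 1 + k + 1) rfl
      obtain ⟨C, c, d, hC⟩ := distinguished_cocone_triangle (f' ≫ f)
      have o := someOctahedron rfl hT' hT hC
      have hC' : t.IsGE C (-(b : ℤ) - 1 + k + 1) := isGE_ext t o.mem _ hG
        (t.isGE_of_ge B _ (-(b : ℤ) - 1 + ((k + 1 : ℕ) : ℤ) + 1) (by push_cast; lia))
      have hv := van_of_polarised hnd ht hrig hcons hW1 hW2 hW hM hT hA hB
      have hv' := van_of_polarised hnd ht hrig hcons hW1 hW2 hW hM hC hA' hC'
      have hG1 : t.IsLE G (-(b : ℤ) - 1 + k + 1) := by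
        refine isLE₃ t hT' _ (t.isLE_of_le A' (-(b : ℤ) - 1 + k) _ (by lia)) ?_
        rwa [show -(b : ℤ) - 1 + ((k + 1 : ℕ) : ℤ) = -(b : ℤ) - 1 + k + 1 by
          push_cast; ring] at hA
      have hG2 : R.ConcentratedIn (-(b : ℤ) - 1 + k + 1) G := by
        intro i hi
        rcases lt_or_gt_of_ne hi with h | h
        · exact R.van₁' o.mem (hv'.2 i (by lia)) (hv.2 (i - 1) (by push_cast; lia))
        · exact R.van₃' hT' (hv'.1 (i + 1) (by lia)) (hv.1 i (by push_cast; lia))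
      exact Q.triangEnvelope.ext_of_isTriangulatedClosed₂ _ hT' (ih A' C _ _ _ hC hA' hC')
        (Q.le_triangEnvelope _ (hQ' _ G hG1 hG hG2))
  have hid := key (2 * b + 1) M 0 (𝟙 M) 0 0 (contractible_distinguished M) ?_ ?_
  · exact hid
  · exact t.isLE_of_le M b _ (by push_cast; lia)
  · exact t.isGE_of_isZero (isZero_zero T) _

end Realization

end Pool.Agent.Lib.MotT
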