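import Pool.Agent.Lib.MP_6d0ce9_ag.Bdd

/-!
# A t-structure is determined by a conservative exact realisation
-/

set_option linter.unusedSectionVars false

universe w v u

open CategoryTheory Category Limits MonoidalCategory Pretriangulated Triangulated
  ObjectProperty
open scoped ZeroObject

namespace Pool.Agent.Lib.MotT
namespace Realization

variable {T : Type u} [Category.{v} T] [Preadditive T] [HasZeroObject T] [HasShift T ℤ]
  [∀ n : ℤ, (shiftFunctor T n).Additive] [Pretriangulated T] [MonoidalCategory T]
  [SymmetricCategory T] {F : Type w} [Field F] {R : Realization T F}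
  [∀ X : T, (tensorLeft X).CommShift ℤ]
  [∀ X : T, (tensorLeft X).IsTriangulated] [IsTriangulated T]

/-- A t-structure for which a conservative realisation is exact is determined by it. -/
theorem tstructure_ext {t t' : TStructure T} (hR : R.TExact t) (hR' : R.TExact t')
    (hcons : R.Conservative) : t = t' := by
  have key : ∀ {s s' : TStructure T}, R.TExact s → R.TExact s' →
      (∀ n X, s.le n X → s'.le n X) ∧ ∀ n X, s.ge n X → s'.ge n X := by
    intro s s' h h'
    constructor
    · intro n X hX
      exact (isLE_of_van h' hcons fun i hi => van_of_le h ⟨hX⟩ hi).le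
    · intro n X hX
      exact (isGE_of_van h' hcons fun i hi => van_of_ge h ⟨hX⟩ hi).ge
  have h1 := key hR hR'
  have h2 := key hR' hR
  have hle : t.le = t'.le := by
    funext n
    ext X
    exact ⟨h1.1 n X, h2.1 n X⟩
  have hge : t.ge = t'.ge := by
    funext n
    ext X
    exact ⟨h1.2 n X, h2.2 n X⟩
  cases t
  cases t'
  cases hle
  cases hge
  rfl

end Realization
end Pool.Agent.Lib.MotT
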