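import Pool.Agent.Lib.MP_6d0ce9_ag.St.Tot

/-!
# The dimension of the total cohomology
-/

set_option linter.unusedSectionVars false

universe w v u

open CategoryTheory Category Limits MonoidalCategory Pretriangulated Triangulated

namespace Pool.Agent.Lib.MotT

namespace Realization

variable {T : Type u} [Category.{v} T] [Preadditive T] [HasZeroObject T] [HasShift T ℤ]
  [∀ n : ℤ, (shiftFunctor T n).Additive] [Pretriangulated T] [MonoidalCategory T]
  [SymmetricCategory T] {F : Type w} [Field F] (R : Realization T F)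

instance tot_finite (X : T) : Module.Finite F (R.Tot X) := by
  obtain ⟨b, hb⟩ := R.bounded X
  have hfg : (⨆ i ∈ Finset.Icc (-b) b, LinearMap.range (R.inc i X)).FG := by
    refine Submodule.fg_biSup _ _ fun i _ => ?_
    have := R.finite i X
    exact Module.Finite.iff_fg.1 (Module.Finite.range (R.inc i X))
  refine ⟨?_⟩
  have htop : (⊤ : Submodule F (R.Tot X)) =
      ⨆ i ∈ Finset.Icc (-b) b, LinearMap.range (R.inc i X) := by
    refine le_antisymm ?_ le_top
    intro x _
    induction x using DirectSum.induction_on with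
    | zero => exact Submodule.zero_mem _
    | add x y hx hy => exact Submodule.add_mem _ (hx trivial) (hy trivial)
    | of i x =>
      by_cases hi : b < |i|
      · have h0 : x = 0 := (hb i hi).elim _ _
        rw [h0, map_zero]
        exact Submodule.zero_mem _
      · have hi' : i ∈ Finset.Icc (-b) b := by
          rw [Finset.mem_Icc]
          exact abs_le.1 (not_lt.1 hi)
        refine Submodule.mem_iSup_of_mem i (Submodule.mem_iSup_of_mem hi' ?_)
        exact ⟨x, rfl⟩
  rw [htop]
  exact hfg

/-- The dimension of the total cohomology. -/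
noncomputable def dm (X : T) : ℕ := Module.finrank F (R.Tot X)

lemma dm_iso {X Y : T} (e : X ≅ Y) : R.dm X = R.dm Y := by
  refine LinearEquiv.finrank_eq (LinearEquiv.ofLinearMap (R.tmap e.hom) (R.tmap e.inv) ?_ ?_)
  · rw [← tmap_comp, e.inv_hom_id, tmap_id]
  · rw [← tmap_comp, e.hom_inv_id, tmap_id]

lemma dm_eq_zero_iff (X : T) : R.dm X = 0 ↔ ∀ i, R.Van i X := by
  rw [dm, Module.finrank_zero_iff]
  constructor
  · intro h i
    exact (R.inc_injective i X).subsingleton
  · intro h
    refine ⟨fun x y => ?_⟩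
    refine DFinsupp.ext fun i => ?_
    exact (h i).elim _ _

/-- The isomorphism of `H^i(X[a])` with `H^(a + i)(X)`. -/
noncomputable def TotFshift (a i : ℤ) (X : T) : R.Hm i (X⟦a⟧) ≃ₗ[F] R.Hm (a + i) X :=
  (R.H0.mapIso ((shiftFunctorAdd T a i).app X)).symm.toLinearEquiv

lemma TotFshift_natural (a i : ℤ) {X Y : T} (f : X ⟶ Y) (x : R.Hm i (X⟦a⟧)) :
    R.mp (a + i) f (R.TotFshift a i X x) = R.TotFshift a i Y (R.mp i (f⟦a⟧') x) := by
  have h := congrArg (fun g => (R.H0.map g).hom x) ((shiftFunctorAdd T a i).inv.naturality f)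
  simp only [Functor.map_comp] at h
  exact h.symm

lemma dm_shift (X : T) (a : ℤ) : R.dm (X⟦a⟧) = R.dm X := by
  let e1 : R.Tot (X⟦a⟧) ≃ₗ[F] (DirectSum ℤ fun i => R.Hm (a + i) X) :=
    DFinsupp.mapRange.linearEquiv fun i => R.TotFshift a i X
  let e2 : (DirectSum ℤ fun i => R.Hm (a + i) X) ≃ₗ[F] R.Tot X :=
    (DirectSum.lequivCongrLeft F (M := fun i => R.Hm i X) (Equiv.addLeft a).symm).symm
  exact LinearEquiv.finrank_eq (e1.trans e2)

lemma dm_biproduct [HasFiniteBiproducts T] {I : Type} [Finite I] (X : I → T) :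
    R.dm (⨁ X) = ∑ᶠ i, R.dm (X i) := by
  classical
  have := Fintype.ofFinite I
  rw [finsum_eq_sum_of_fintype]
  let e : R.Tot (⨁ X) ≃ₗ[F] (∀ i, R.Tot (X i)) :=
    LinearEquiv.ofLinearMap (LinearMap.pi fun i => R.tmap (biproduct.π X i))
      (∑ i, (R.tmap (biproduct.ι X i)).comp (LinearMap.proj i)) (by
        refine LinearMap.ext fun v => ?_
        funext i
        rw [LinearMap.comp_apply, LinearMap.pi_apply, LinearMap.sum_apply, map_sum,
          Finset.sum_eq_single i]
        · rw [LinearMap.comp_apply, ← tmap_comp_apply, biproduct.ι_π_self, tmap_id]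
          rfl
        · intro j _ hj
          rw [LinearMap.comp_apply, ← tmap_comp_apply, biproduct.ι_π_ne X hj, tmap_zero]
          rfl
        · intro h
          exact absurd (Finset.mem_univ i) h) (by
        refine LinearMap.ext fun x => ?_
        rw [LinearMap.comp_apply, LinearMap.sum_apply]
        have h : ∀ i, ((R.tmap (biproduct.ι X i)).comp (LinearMap.proj i))
            ((LinearMap.pi fun i => R.tmap (biproduct.π X i)) x) =
            R.tmap (biproduct.π X i ≫ biproduct.ι X i) x := fun i => by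
          rw [tmap_comp_apply]
          rfl
        rw [Finset.sum_congr rfl fun i _ => h i, ← LinearMap.sum_apply, ← tmap_sum,
          biproduct.total, tmap_id])
  have h1 := e.finrank_eq
  rw [Module.finrank_pi_fintype] at h1
  exact h1

lemma TotF_apply {X Y : T} (f : X ⟶ Y) (x : R.Tot X) (i : ℤ) :
    (R.tmap f x) i = R.mp i f (x i) := by
  induction x using DirectSum.induction_on with
  | zero =>
    rw [map_zero]
    exact (map_zero (R.mp i f)).symm
  | add x y hx hy =>
    rw [map_add, DirectSum.add_apply, DirectSum.add_apply, hx, hy, map_add]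
  | of j x =>
    have h1 : R.tmap f (DirectSum.of (fun i => R.Hm i X) j x) =
      DirectSum.of (fun i => R.Hm i Y) j (R.mp j f x) := R.tmap_inc f j x
    rw [h1]
    by_cases hij : j = i
    · subst hij
      rw [DirectSum.of_eq_same, DirectSum.of_eq_same]
    · rw [DirectSum.of_eq_of_ne _ _ _ (Ne.symm hij), DirectSum.of_eq_of_ne _ _ _ (Ne.symm hij),
        map_zero]

/-- exactness in the middle for the total cohomology of a distinguished triangle. -/
lemma tot_exact₂ {A B C : T} {f : A ⟶ B} {g : B ⟶ C} {h : C ⟶ A⟦(1 : ℤ)⟧}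
    (hT : Triangle.mk f g h ∈ distTriang T) (x : R.Tot B) (hx : R.tmap g x = 0) :
    ∃ y : R.Tot A, R.tmap f y = x := by
  classical
  have h1 : ∀ i, ∃ y : R.Hm i A, R.mp i f y = x i := fun i => by
    refine R.exact₂' hT i (x i) ?_
    rw [← TotF_apply, hx]
    rfl
  choose y hy using h1
  refine ⟨∑ i ∈ DFinsupp.support x, R.inc i A (y i), ?_⟩
  rw [map_sum]
  have h2 : ∀ i ∈ DFinsupp.support x, R.tmap f (R.inc i A (y i)) =
      DirectSum.of (fun i => R.Hm i B) i (x i) := fun i _ => by
    rw [tmap_inc, hy]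
    rfl
  rw [Finset.sum_congr rfl h2]
  exact DirectSum.sum_support_of x

lemma TotF_ker {A B C : T} {f : A ⟶ B} {g : B ⟶ C} {h : C ⟶ A⟦(1 : ℤ)⟧}
    (hT : Triangle.mk f g h ∈ distTriang T) :
    Module.finrank F (LinearMap.ker (R.tmap g)) ≤
      Module.finrank F (LinearMap.range (R.tmap f)) := by
  refine Submodule.finrank_mono fun x hx => ?_
  exact R.tot_exact₂ hT x hx

lemma dm_triangle {A B C : T} {f : A ⟶ B} {g : B ⟶ C} {h : C ⟶ A⟦(1 : ℤ)⟧}
    (hT : Triangle.mk f g h ∈ distTriang T) : R.dm B ≤ R.dm A + R.dm C := by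
  have h1 := R.TotF_ker hT
  have h2 := LinearMap.finrank_range_le (R.tmap f)
  have h3 := Submodule.finrank_le (LinearMap.range (R.tmap g))
  have h4 := LinearMap.finrank_range_add_finrank_ker (R.tmap g)
  rw [dm, dm, dm]
  omega

/-- If the last morphism of a distinguished triangle is not zero on cohomology then the
dimension of the cohomology of the middle object is smaller than the sum. -/
lemma dm_triangle_lt {A B C : T} {f : A ⟶ B} {g : B ⟶ C} {h : C ⟶ A⟦(1 : ℤ)⟧}
    (hT : Triangle.mk f g h ∈ distTriang T) (hh : R.tmap h ≠ 0) :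
    R.dm B + 2 ≤ R.dm A + R.dm C := by
  obtain ⟨i, hi⟩ : ∃ i, R.mp i h ≠ 0 := by
    by_contra hcon
    push Not at hcon
    exact hh ((R.tmap_eq_zero_iff h).2 hcon)
  obtain ⟨z, hz⟩ : ∃ z, R.mp i h z ≠ 0 := by
    by_contra hcon
    push Not at hcon
    exact hi (LinearMap.ext hcon)
  have hcomp1 : g ≫ h = 0 := comp_distTriang_mor_zero₂₃ _ hT
  have hcomp2 : h ≫ f⟦(1 : ℤ)⟧' = 0 := comp_distTriang_mor_zero₃₁ _ hT
  -- the kernel of `tmap f` is not zero
  have hk1 : 1 ≤ Module.finrank F (LinearMap.ker (R.tmap f)) := by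
    have hne : R.inc (1 + i) A (R.TotFshift 1 i A (R.mp i h z)) ≠ 0 := by
      intro h0
      have h1 := R.inc_injective (1 + i) A (h0.trans (map_zero _).symm)
      exact hz ((R.TotFshift 1 i A).map_eq_zero_iff.1 h1)
    have hmem : R.inc (1 + i) A (R.TotFshift 1 i A (R.mp i h z)) ∈
        LinearMap.ker (R.tmap f) := by
      rw [LinearMap.mem_ker, tmap_inc, TotFshift_natural, ← mp_comp_apply, hcomp2, mp_zero,
        LinearMap.zero_apply, map_zero, map_zero]
    have hnt : Nontrivial (LinearMap.ker (R.tmap f)) :=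
      ⟨⟨_, hmem⟩, 0, fun h0 => hne (congrArg Subtype.val h0)⟩
    exact Module.finrank_pos
  -- the range of `tmap g` is not everything
  have hk2 : Module.finrank F (LinearMap.range (R.tmap g)) + 1 ≤ R.dm C := by
    refine Submodule.finrank_lt ?_
    intro htop
    obtain ⟨b, hb⟩ : R.inc i C z ∈ LinearMap.range (R.tmap g) := by
      rw [htop]; trivial
    apply hz
    have h1 : R.tmap h (R.tmap g b) = 0 := by
      rw [← tmap_comp_apply, hcomp1, tmap_zero]
      rfl
    rw [hb, tmap_inc] at h1
    exact R.inc_injective i _ (h1.trans (map_zero _).symm)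
  have h1 := R.TotF_ker hT
  have h2 := LinearMap.finrank_range_add_finrank_ker (R.tmap f)
  have h4 := LinearMap.finrank_range_add_finrank_ker (R.tmap g)
  rw [dm] at hk2
  rw [dm, dm, dm]
  omega

end Realization

end Pool.Agent.Lib.MotT
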