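import Pool.Agent.Lib.MP_6d0ce9_ag.St.TotK
import Pool.Agent.Lib.MP_6d0ce9_ag.St.TotF

/-!
# Multiplicativity of the dimension
-/

set_option linter.unusedSectionVars false

universe w v u

open CategoryTheory Category Limits MonoidalCategory Pretriangulated Triangulated

namespace Pool.Agent.Lib.MotT

namespace Realization

variable {T : Type u} [Category.{v} T] [Preadditive T] [HasZeroObject T] [HasShift T ℤ]
  [∀ n : ℤ, (shiftFunctor T n).Additive] [Pretriangulated T] [MonoidalCategory T]
  [SymmetricCategory T] {F : Type w} [Field F] (R : Realization T F)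

lemma dm_tensor (X Y : T) : R.dm (X ⊗ Y) = R.dm X * R.dm Y := by
  have h := LinearEquiv.finrank_eq (LinearEquiv.ofBijective _ (R.tcup_bijective X Y))
  rw [Module.finrank_tensorProduct] at h
  exact h.symm

end Realization

end Pool.Agent.Lib.MotT
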