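import Pool.Agent.Lib.MP_6d0ce9_ag.St.Dm
import Pool.Agent.Lib.MP_6d0ce9_ag.St.Act

/-!
# A basis of the cohomology of a tensor power
-/

set_option linter.unusedSectionVars false

universe w v u

open CategoryTheory Category Limits MonoidalCategory Pretriangulated Triangulated

namespace Pool.Agent.Lib.MotT

section BasAux

lemma Bas_dfinsupp {K : Type*} [Field K] {ι : Type*} [DecidableEq ι] {M : ι → Type*}
    [∀ i, AddCommGroup (M i)] [∀ i, Module K (M i)] {η : ι → Type*}
    (b : ∀ i, Module.Basis (η i) K (M i)) (i : ι) (j : η i) :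
    DFinsupp.basis b ⟨i, j⟩ = DFinsupp.single i (b i j) := by
  classical
  rw [Module.Basis.apply_eq_iff]
  ext ⟨i', j'⟩
  change ((b i').repr ((DFinsupp.single i (b i j) : Π₀ i, M i) i')) j' = _
  by_cases h : i = i'
  · subst h
    rw [DFinsupp.single_eq_same, Module.Basis.repr_self, Finsupp.single_apply,
      Finsupp.single_apply]
    by_cases hj : j = j'
    · subst hj
      simp
    · rw [if_neg hj, if_neg]
      intro h2
      exact hj (eq_of_heq (Sigma.mk.inj h2).2)
  · rw [DFinsupp.single_eq_of_ne (Ne.symm h), map_zero, Finsupp.single_apply, if_neg]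
    · rfl
    · intro h2
      exact h (Sigma.mk.inj h2).1

end BasAux

namespace Realization

variable {T : Type u} [Category.{v} T] [Preadditive T] [HasZeroObject T] [HasShift T ℤ]
  [∀ n : ℤ, (shiftFunctor T n).Additive] [Pretriangulated T] [MonoidalCategory T]
  [SymmetricCategory T] {F : Type w} [Field F] (R : Realization T F)

/-- There is a homogeneous basis of the total cohomology. -/
lemma Bas_homog (X : T) : ∃ (x : Module.Basis (Fin (R.dm X)) F (R.Tot X))
    (d : Fin (R.dm X) → ℤ) (h : ∀ b, R.Hm (d b) X), ∀ b, x b = R.inc (d b) X (h b) := by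
  classical
  have hfin := fun i => R.finite i X
  let B : Module.Basis (Σ i : ℤ, Fin (Module.finrank F (R.Hm i X))) F (R.Tot X) :=
    DFinsupp.basis fun i => Module.finBasis F (R.Hm i X)
  have hf : Finite (Σ i : ℤ, Fin (Module.finrank F (R.Hm i X))) :=
    Module.Finite.finite_basis B
  have := Fintype.ofFinite (Σ i : ℤ, Fin (Module.finrank F (R.Hm i X)))
  have hc : Fintype.card (Σ i : ℤ, Fin (Module.finrank F (R.Hm i X))) = R.dm X :=
    (Module.finrank_eq_card_basis B).symm
  let E := Fintype.equivFinOfCardEq hc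
  refine ⟨B.reindex E, fun b => (E.symm b).1,
    fun b => Module.finBasis F _ (E.symm b).2, fun b => ?_⟩
  rw [Module.Basis.reindex_apply]
  exact Bas_dfinsupp (fun i => Module.finBasis F (R.Hm i X)) (E.symm b).1 (E.symm b).2

/-- The products of elements of a family. -/
noncomputable def Bas_e (X : T) {I : Type} (x : I → R.Tot X) :
    (n : ℕ) → (Fin (n + 1) → I) → R.Tot (tpow X n)
  | 0, f => x (f 0)
  | n + 1, f => R.tcup (tpow X n) X (Bas_e X x n fun k => f k.castSucc)
      (x (f (Fin.last (n + 1))))

lemma Bas_e_zero (X : T) {I : Type} (x : I → R.Tot X) (f : Fin 1 → I) :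
    R.Bas_e X x 0 f = x (f 0) := rfl

lemma Bas_e_succ (X : T) {I : Type} (x : I → R.Tot X) (n : ℕ) (f : Fin (n + 2) → I) :
    R.Bas_e X x (n + 1) f = R.tcup (tpow X n) X (R.Bas_e X x n fun k => f k.castSucc)
      (x (f (Fin.last (n + 1)))) := rfl

lemma Bas_basis (X : T) {I : Type} (x : Module.Basis I F (R.Tot X)) (n : ℕ) :
    ∃ e : Module.Basis (Fin (n + 1) → I) F (R.Tot (tpow X n)),
      ∀ f, e f = R.Bas_e X x n f := by
  induction n with
  | zero =>
    exact ⟨x.reindex (Equiv.funUnique (Fin 1) I).symm, fun f =>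
      Module.Basis.reindex_apply x (Equiv.funUnique (Fin 1) I).symm f⟩
  | succ n ih =>
    obtain ⟨e, he⟩ := ih
    let L := LinearEquiv.ofBijective _ (R.tcup_bijective (tpow X n) X)
    let E : (Fin (n + 1) → I) × I ≃ (Fin (n + 2) → I) :=
      (Equiv.prodComm _ _).trans (Fin.snocEquiv fun _ : Fin (n + 2) => I)
    have h2 : ∀ f : Fin (n + 2) → I, ((e.tensorProduct x).map L) (E.symm f) =
        R.tcup (tpow X n) X (R.Bas_e X x n fun k => f k.castSucc)
          (x (f (Fin.last (n + 1)))) := fun f => by
      have h1 : E.symm f =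
        ((fun k : Fin (n + 1) => f k.castSucc), f (Fin.last (n + 1))) := rfl
      rw [Module.Basis.map_apply, h1, Module.Basis.tensorProduct_apply, ← he]
      exact TensorProduct.lift.tmul _ _
    exact ⟨((e.tensorProduct x).map L).reindex E, fun f =>
      (Module.Basis.reindex_apply ((e.tensorProduct x).map L) E f).trans (h2 f)⟩

lemma Bas_whiskerRight {X X' Y : T} (f : X ⟶ X') (x : R.Tot X) (y : R.Tot Y) :
    R.tmap (f ▷ Y) (R.tcup X Y x y) = R.tcup X' Y (R.tmap f x) y := by
  rw [← tensorHom_id, tcup_natural, tmap_id]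
  rfl

lemma Bas_whiskerLeft {X Y Y' : T} (g : Y ⟶ Y') (x : R.Tot X) (y : R.Tot Y) :
    R.tmap (X ◁ g) (R.tcup X Y x y) = R.tcup X Y' x (R.tmap g y) := by
  rw [← id_tensorHom, tcup_natural, tmap_id]
  rfl

lemma Bas_assoc_inv {X Y Z : T} (x : R.Tot X) (y : R.Tot Y) (z : R.Tot Z) :
    R.tmap (α_ X Y Z).inv (R.tcup X (Y ⊗ Z) x (R.tcup Y Z y z)) =
      R.tcup (X ⊗ Y) Z (R.tcup X Y x y) z := by
  rw [← tcup_assoc, ← tmap_comp_apply, Iso.hom_inv_id, tmap_id]
  rfl

/-- effect of the last adjacent swap. -/
lemma Bas_last (P X : T) (p : R.Tot P) (i j : ℤ) (x : R.Hm i X) (y : R.Hm j X) :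
    R.tmap ((α_ P X X).hom ≫ (P ◁ (β_ X X).hom) ≫ (α_ P X X).inv)
      (R.tcup (P ⊗ X) X (R.tcup P X p (R.inc i X x)) (R.inc j X y)) =
      ((i * j).negOnePow : ℤ) • R.tcup (P ⊗ X) X (R.tcup P X p (R.inc j X y))
        (R.inc i X x) := by
  rw [tmap_comp_apply, tmap_comp_apply, tcup_assoc, Bas_whiskerLeft, tcup_comm, map_zsmul,
    map_zsmul, Bas_assoc_inv]

/-- effect of an adjacent swap on a product. -/
lemma Bas_swap (X : T) {I : Type} (d : I → ℤ) (h : ∀ b, R.Hm (d b) X) (n : ℕ) (j : Fin n)
    (f : Fin (n + 1) → I) :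
    R.tmap (swapAt X n j) (R.Bas_e X (fun b => R.inc (d b) X (h b)) n f) =
      ((d (f j.castSucc) * d (f j.succ)).negOnePow : ℤ) •
        R.Bas_e X (fun b => R.inc (d b) X (h b)) n (f ∘ Equiv.swap j.castSucc j.succ) := by
  induction n with
  | zero => exact j.elim0
  | succ n ih =>
    cases n with
    | zero =>
      have hj : j = 0 := by ext; omega
      subst hj
      exact R.tcup_comm (d (f 0)) (d (f 1)) (h (f 0)) (h (f 1))
    | succ n =>
      by_cases hj : (j : ℕ) = n + 1
      · have hj' : j = Fin.last (n + 1) := by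
          ext; simpa using hj
        subst hj'
        refine (congrArg (fun g => R.tmap g (R.Bas_e X (fun b => R.inc (d b) X (h b)) (n + 2) f))
          (swapAt_last X n)).trans ((R.Bas_last (tpow X n) X
          (R.Bas_e X (fun b => R.inc (d b) X (h b)) n (fun k => f k.castSucc.castSucc)) _ _
          (h (f (Fin.last (n + 1)).castSucc)) (h (f (Fin.last (n + 2))))).trans ?_)
        congr 1
        have h5 : (f ∘ ⇑(Equiv.swap (Fin.last (n + 1)).castSucc (Fin.last (n + 1)).succ))
            (Fin.last (n + 1 + 1)) = f (Fin.last (n + 1)).castSucc := by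
          simp only [Function.comp]
          rw [show Fin.last (n + 1 + 1) = (Fin.last (n + 1)).succ from rfl,
            Equiv.swap_apply_right]
        have h6 : (f ∘ ⇑(Equiv.swap (Fin.last (n + 1)).castSucc (Fin.last (n + 1)).succ))
            (Fin.last (n + 1)).castSucc = f (Fin.last (n + 1 + 1)) := by
          simp only [Function.comp]
          rw [Equiv.swap_apply_left]
          rfl
        have h7 : (fun k : Fin (n + 1) => (f ∘ ⇑(Equiv.swap (Fin.last (n + 1)).castSucc
            (Fin.last (n + 1)).succ)) k.castSucc.castSucc) =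
            fun k => f k.castSucc.castSucc := by
          funext k
          simp only [Function.comp]
          rw [Equiv.swap_apply_of_ne_of_ne]
          · intro h
            have := congrArg Fin.val h
            simp at this
            omega
          · intro h
            have := congrArg Fin.val h
            simp at this
            omega
        rw [Bas_e_succ, Bas_e_succ, h5, h6, h7]
        rfl
      · have hj2 : (j : ℕ) < n + 1 := by have := j.2; omega
        obtain ⟨j', rfl⟩ : ∃ j' : Fin (n + 1), j = j'.castSucc := ⟨⟨j, hj2⟩, rfl⟩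
        refine (congrArg (fun g => R.tmap g (R.Bas_e X (fun b => R.inc (d b) X (h b)) (n + 2) f))
          (swapAt_lt X n _ hj)).trans ((R.Bas_whiskerRight (swapAt X (n + 1) (j' : ℕ))
          (R.Bas_e X (fun b => R.inc (d b) X (h b)) (n + 1) (fun k => f k.castSucc)) _).trans ?_)
        rw [ih j' (fun k => f k.castSucc), map_zsmul, LinearMap.smul_apply]
        congr 1
        have h5 : (f ∘ ⇑(Equiv.swap j'.castSucc.castSucc j'.castSucc.succ))
            (Fin.last (n + 1 + 1)) = f (Fin.last (n + 2)) := by
          simp only [Function.comp]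
          rw [Equiv.swap_apply_of_ne_of_ne]
          · intro h
            have := congrArg Fin.val h
            simp at this
            omega
          · intro h
            have := congrArg Fin.val h
            simp at this
            omega
        have h6 : (fun k : Fin (n + 2) => (f ∘ ⇑(Equiv.swap j'.castSucc.castSucc
            j'.castSucc.succ)) k.castSucc) =
            (fun k => f k.castSucc) ∘ ⇑(Equiv.swap j'.castSucc j'.succ) := by
          funext k
          simp only [Function.comp]
          congr 1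
          by_cases hk1 : k = j'.castSucc
          · subst hk1
            rw [Equiv.swap_apply_left, Equiv.swap_apply_left]
            rfl
          · by_cases hk2 : k = j'.succ
            · subst hk2
              rw [Equiv.swap_apply_right,
                show (j'.succ.castSucc : Fin (n + 3)) = j'.castSucc.succ from rfl,
                Equiv.swap_apply_right]
            · rw [Equiv.swap_apply_of_ne_of_ne hk1 hk2, Equiv.swap_apply_of_ne_of_ne]
              · intro h
                apply hk1
                ext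
                have := congrArg Fin.val h
                simpa using this
              · intro h
                apply hk2
                ext
                have := congrArg Fin.val h
                simpa using this
        refine Eq.trans ?_ (R.Bas_e_succ X _ (n + 1) _).symm
        rw [h5, h6]

lemma Bas_negOnePow (k : ℤ) : (k.negOnePow : ℤ) = 1 ∨ (k.negOnePow : ℤ) = -1 := by
  rcases Int.even_or_odd k with h | h
  · left
    rw [Int.negOnePow_even _ h]
    rfl
  · right
    rw [Int.negOnePow_odd _ h]
    rfl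

/-- effect of a word on a product. -/
lemma Bas_word (X : T) {I : Type} (d : I → ℤ) (h : ∀ b, R.Hm (d b) X) (n : ℕ)
    (w : List (Fin n)) (f : Fin (n + 1) → I) :
    ∃ ε : ℤ, (ε = 1 ∨ ε = -1) ∧
      R.tmap (wordAct X n w) (R.Bas_e X (fun b => R.inc (d b) X (h b)) n f) =
      ε • R.Bas_e X (fun b => R.inc (d b) X (h b)) n (f ∘ wordPerm w) := by
  induction w generalizing f with
  | nil =>
    refine ⟨1, Or.inl rfl, ?_⟩
    have h1 : wordAct X n [] = 𝟙 _ := rfl
    have h2 : (wordPerm ([] : List (Fin n))) = 1 := rfl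
    rw [h1, tmap_id, one_smul, h2]
    rfl
  | cons j w ih =>
    have h1 : wordAct X n (j :: w) = swapAt X n j ≫ wordAct X n w := rfl
    have h2 : wordPerm (j :: w) = Equiv.swap j.castSucc j.succ * wordPerm w := by
      simp [wordPerm]
    obtain ⟨ε, hε, he⟩ := ih (f ∘ Equiv.swap j.castSucc j.succ)
    refine ⟨((d (f j.castSucc) * d (f j.succ)).negOnePow : ℤ) * ε, ?_, ?_⟩
    · rcases Bas_negOnePow (d (f j.castSucc) * d (f j.succ)) with h3 | h3 <;>
        rcases hε with h4 | h4 <;> rw [h3, h4] <;> simp
    · rw [h1, tmap_comp_apply, Bas_swap, map_zsmul, he, h2, mul_smul]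
      rfl

/-- The total cohomology of a tensor power is a signed permutation representation of the
symmetric group. -/
theorem exists_basis [CharZero F] (X : T) (n : ℕ) :
    ∃ (e : Module.Basis (Fin (n + 1) → Fin (R.dm X)) F (R.Tot (tpow X n)))
      (s : (Fin (n + 1) → Fin (R.dm X)) → Equiv.Perm (Fin (n + 1)) → ℤ),
      (∀ f σ, s f σ = 1 ∨ s f σ = -1) ∧
      (∀ f σ τ, s f (σ * τ) = s f σ * s (f ∘ σ) τ) ∧
      ∀ f σ, R.tmap (pact X n σ) (e f) = s f σ • e (f ∘ σ) := by
  obtain ⟨x, d, h, hx⟩ := R.Bas_homog X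
  obtain ⟨e, he⟩ := R.Bas_basis X x n
  have hx' : (x : Fin (R.dm X) → R.Tot X) = fun b => R.inc (d b) X (h b) := funext hx
  have h1 : ∀ (f : Fin (n + 1) → Fin (R.dm X)) (σ : Equiv.Perm (Fin (n + 1))),
      ∃ ε : ℤ, (ε = 1 ∨ ε = -1) ∧ R.tmap (pact X n σ) (e f) = ε • e (f ∘ σ) := by
    intro f σ
    obtain ⟨ε, hε, h2⟩ := R.Bas_word X d h n (exists_word σ).choose f
    refine ⟨ε, hε, ?_⟩
    rw [he, he, hx']
    rw [(exists_word σ).choose_spec] at h2
    exact h2
  choose s hs1 hs2 using h1
  refine ⟨e, s, hs1, fun f σ τ => ?_, hs2⟩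
  have h3 : R.tmap (pact X n (σ * τ)) (e f) = (s f σ * s (f ∘ σ) τ) • e (f ∘ ⇑(σ * τ)) := by
    rw [pact_mul, tmap_comp_apply, hs2, map_zsmul, hs2, mul_smul]
    rfl
  rw [hs2] at h3
  have h4 : ((s f (σ * τ) - s f σ * s (f ∘ σ) τ : ℤ) : F) • e (f ∘ ⇑(σ * τ)) = 0 := by
    rw [Int.cast_smul_eq_zsmul, sub_smul, h3, sub_self]
  rcases smul_eq_zero.1 h4 with h5 | h5
  · have h6 : s f (σ * τ) - s f σ * s (f ∘ σ) τ = 0 := by exact_mod_cast h5
    exact sub_eq_zero.1 h6
  · exact absurd h5 (e.ne_zero _)

end Realization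

end Pool.Agent.Lib.MotT
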