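import Pool.Agent.Lib.MP_6d0ce9_ag.St.Tot

/-!
# The total Künneth formula
-/

set_option linter.unusedSectionVars false

universe w v u

open CategoryTheory Category Limits MonoidalCategory Pretriangulated Triangulated

namespace Pool.Agent.Lib.MotT

namespace Realization

variable {T : Type u} [Category.{v} T] [Preadditive T] [HasZeroObject T] [HasShift T ℤ]
  [∀ n : ℤ, (shiftFunctor T n).Additive] [Pretriangulated T] [MonoidalCategory T]
  [SymmetricCategory T] {F : Type w} [Field F] (R : Realization T F)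

/-- the tensor products of the cohomology groups in the bidegrees `(i, n - i)` -/
abbrev TotK_B (X Y : T) (n : ℤ) : Type w :=
  DirectSum ℤ (fun i => TensorProduct F (R.Hm i X) (R.Hm (n - i) Y))

/-- the Künneth map in degree `n` -/
noncomputable def TotK_k (X Y : T) (n : ℤ) : R.TotK_B X Y n →ₗ[F] R.Hm n (X ⊗ Y) :=
  DirectSum.toModule F ℤ (R.H0.obj ((X ⊗ Y)⟦n⟧))
    (fun i => TensorProduct.lift (R.cup (add_sub_cancel i n) X Y))

/-- the direct sum of the Künneth maps -/
noncomputable def TotK_K (X Y : T) :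
    DirectSum ℤ (fun n => R.TotK_B X Y n) →ₗ[F] R.Tot (X ⊗ Y) :=
  DFinsupp.mapRange.linearMap (fun n => R.TotK_k X Y n)

lemma TotK_K_injective (X Y : T) : Function.Injective (R.TotK_K X Y) :=
  (DFinsupp.mapRange_injective _ (fun n => map_zero (R.TotK_k X Y n))).2
    fun n => (R.kunneth n X Y).1

/-- the sum of all bidegrees -/
noncomputable def TotK_P (X Y : T) :
    DirectSum ℤ (fun n => R.TotK_B X Y n) →ₗ[F] TensorProduct F (R.Tot X) (R.Tot Y) :=
  DirectSum.toModule F ℤ _ fun n => DirectSum.toModule F ℤ _ fun i =>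
    TensorProduct.map (R.inc i X) (R.inc (n - i) Y)

lemma TotK_P_lof (X Y : T) (n i : ℤ) (x : R.Hm i X) (y : R.Hm (n - i) Y) :
    R.TotK_P X Y (DirectSum.lof F ℤ (fun n => R.TotK_B X Y n) n
      (DirectSum.lof F ℤ (fun i => TensorProduct F (R.Hm i X) (R.Hm (n - i) Y)) i
        (x ⊗ₜ[F] y))) = (R.inc i X x) ⊗ₜ[F] (R.inc (n - i) Y y) := by
  rw [TotK_P, DirectSum.toModule_lof, DirectSum.toModule_lof, TensorProduct.map_tmul]

lemma TotK_K_single (X Y : T) (n : ℤ) (b : R.TotK_B X Y n) :
    R.TotK_K X Y (DirectSum.lof F ℤ (fun n => R.TotK_B X Y n) n b) =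
      R.inc n (X ⊗ Y) (R.TotK_k X Y n b) :=
  DFinsupp.mapRange_single (f := fun n => R.TotK_k X Y n)
    (hf := fun n => map_zero (R.TotK_k X Y n))

lemma TotK_K_lof (X Y : T) (n i : ℤ) (x : R.Hm i X) (y : R.Hm (n - i) Y) :
    R.TotK_K X Y (DirectSum.lof F ℤ (fun n => R.TotK_B X Y n) n
      (DirectSum.lof F ℤ (fun i => TensorProduct F (R.Hm i X) (R.Hm (n - i) Y)) i
        (x ⊗ₜ[F] y))) = R.inc n (X ⊗ Y) (R.cup (add_sub_cancel i n) X Y x y) := by
  rw [TotK_K_single, TotK_k, DirectSum.toModule_lof, TensorProduct.lift.tmul]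

lemma TotK_comp (X Y : T) :
    (TensorProduct.lift (R.tcup X Y)).comp (R.TotK_P X Y) = R.TotK_K X Y := by
  refine DirectSum.linearMap_ext F fun n => DirectSum.linearMap_ext F fun i =>
    TensorProduct.ext' fun x y => ?_
  change TensorProduct.lift (R.tcup X Y) (R.TotK_P X Y _) = R.TotK_K X Y _
  refine (congrArg _ (R.TotK_P_lof X Y n i x y)).trans ?_
  refine Eq.trans ?_ (R.TotK_K_lof X Y n i x y).symm
  rw [TensorProduct.lift.tmul, R.tcup_inc i (n - i) n (add_sub_cancel i n)]

lemma TotK_P_surj_aux (X Y : T) (n i j : ℤ) (h : j = n - i) (x : R.Hm i X) (y : R.Hm j Y) :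
    ∃ a, R.TotK_P X Y a = (R.inc i X x) ⊗ₜ[F] (R.inc j Y y) := by
  subst h
  exact ⟨_, R.TotK_P_lof X Y n i x y⟩

lemma TotK_P_surjective (X Y : T) : Function.Surjective (R.TotK_P X Y) := by
  intro t
  induction t using TensorProduct.induction_on with
  | zero => exact ⟨0, map_zero _⟩
  | add a b ha hb =>
    obtain ⟨a', rfl⟩ := ha
    obtain ⟨b', rfl⟩ := hb
    exact ⟨a' + b', map_add _ _ _⟩
  | tmul x y =>
    induction x using DirectSum.induction_on with
    | zero => exact ⟨0, by rw [map_zero, TensorProduct.zero_tmul]⟩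
    | add a b ha hb =>
      obtain ⟨a', ha⟩ := ha
      obtain ⟨b', hb⟩ := hb
      exact ⟨a' + b', by rw [map_add, ha, hb, TensorProduct.add_tmul]⟩
    | of i x =>
      induction y using DirectSum.induction_on with
      | zero => exact ⟨0, by rw [map_zero, TensorProduct.tmul_zero]⟩
      | add a b ha hb =>
        obtain ⟨a', ha⟩ := ha
        obtain ⟨b', hb⟩ := hb
        exact ⟨a' + b', by rw [map_add, ha, hb, TensorProduct.tmul_add]⟩
      | of j y => exact R.TotK_P_surj_aux X Y (i + j) i j (by ring) x y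

/-- The total Künneth formula. -/
theorem tcup_bijective (X Y : T) : Function.Bijective (TensorProduct.lift (R.tcup X Y)) := by
  constructor
  · rw [injective_iff_map_eq_zero]
    intro t ht
    obtain ⟨a, rfl⟩ := R.TotK_P_surjective X Y t
    have h1 : R.TotK_K X Y a = 0 := by
      rw [← TotK_comp]
      exact ht
    rw [(injective_iff_map_eq_zero _).1 (R.TotK_K_injective X Y) a h1, map_zero]
  · intro z
    induction z using DirectSum.induction_on with
    | zero => exact ⟨0, map_zero _⟩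
    | add a b ha hb =>
      obtain ⟨a', rfl⟩ := ha
      obtain ⟨b', rfl⟩ := hb
      exact ⟨a' + b', map_add _ _ _⟩
    | of n z =>
      obtain ⟨b, hb⟩ := (R.kunneth n X Y).2 z
      refine ⟨R.TotK_P X Y (DirectSum.lof F ℤ (fun n => R.TotK_B X Y n) n b), ?_⟩
      have h1 := R.TotK_K_single X Y n b
      have h2 := LinearMap.congr_fun (R.TotK_comp X Y)
        (DirectSum.lof F ℤ (fun n => R.TotK_B X Y n) n b)
      refine h2.trans (h1.trans ?_)
      exact congrArg _ hb

end Realization

end Pool.Agent.Lib.MotT
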