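import Pool.Agent.Lib.MP_6d0ce9_ag.Alt

/-!
# The Coxeter presentation of the symmetric group

Every word in `s 0, …, s n` is a word in `s 0, …, s (n - 1)` times `s n ⋯ s k`, and `k` is determined by
the permutation.
-/

set_option linter.unusedSectionVars false

namespace Pool.Agent.Lib.MotT

namespace Cox

/-! ### Words in the generators of the symmetric group -/

section Words

/-- The relations of the adjacent transpositions `s 0, …, s (n - 1)`. -/
structure Rels {M : Type*} [Monoid M] (s : ℕ → M) (n : ℕ) : Prop where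
  sq : ∀ i, i < n → s i * s i = 1
  comm : ∀ i j, i + 1 < j → j < n → s i * s j = s j * s i
  braid : ∀ i, i + 1 < n → s i * s (i + 1) * s i = s (i + 1) * s i * s (i + 1)

lemma Rels.mono {M : Type*} [Monoid M] {s : ℕ → M} {n m : ℕ} (h : Rels s n) (hm : m ≤ n) :
    Rels s m where
  sq i hi := h.sq i (by omega)
  comm i j hij hj := h.comm i j hij (by omega)
  braid i hi := h.braid i (by omega)

/-- the value of a word -/
def ev {M : Type*} [Monoid M] (s : ℕ → M) (w : List ℕ) : M := (w.map s).prod

@[simp] lemma ev_nil {M : Type*} [Monoid M] (s : ℕ → M) : ev s [] = 1 := rfl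

lemma ev_cons {M : Type*} [Monoid M] (s : ℕ → M) (j : ℕ) (w : List ℕ) :
    ev s (j :: w) = s j * ev s w := by
  simp [ev]

lemma ev_append {M : Type*} [Monoid M] (s : ℕ → M) (w w' : List ℕ) :
    ev s (w ++ w') = ev s w * ev s w' := by
  simp [ev]

/-- the word `k + m - 1, …, k + 1, k` -/
def cw (k : ℕ) : ℕ → List ℕ
  | 0 => []
  | m + 1 => (k + m) :: cw k m

variable {M : Type*} [Monoid M] {s : ℕ → M}

lemma cw_snoc (k m : ℕ) : cw k (m + 1) = cw (k + 1) m ++ [k] := by
  induction m with
  | zero => rfl
  | succ m ih =>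
    change (k + (m + 1)) :: cw k (m + 1) = (k + 1 + m) :: (cw (k + 1) m ++ [k])
    rw [ih]
    congr 1
    omega

lemma cw_comm_low {n : ℕ} (h : Rels s n) {k j : ℕ} (hj : j + 1 < k) (m : ℕ)
    (hm : k + m ≤ n) : ev s (cw k m) * s j = s j * ev s (cw k m) := by
  induction m with
  | zero => simp [cw]
  | succ m ih =>
    rw [cw, ev_cons, mul_assoc, ih (by omega), ← mul_assoc, ← mul_assoc,
      h.comm j (k + m) (by omega) (by omega)]

lemma cw_comm_high {n : ℕ} (h : Rels s n) {k j : ℕ} (hj : j < n) (m : ℕ)
    (hm : k + m + 1 ≤ j) : ev s (cw k m) * s j = s j * ev s (cw k m) := by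
  induction m with
  | zero => simp [cw]
  | succ m ih =>
    rw [cw, ev_cons, mul_assoc, ih (by omega), ← mul_assoc, ← mul_assoc,
      h.comm (k + m) j (by omega) hj]

lemma cw_shift {n : ℕ} (h : Rels s n) {k j : ℕ} (hj : k < j + 1) (m : ℕ)
    (hm : j + 1 < k + m) (hn : k + m ≤ n) :
    ev s (cw k m) * s (j + 1) = s j * ev s (cw k m) := by
  induction m with
  | zero => omega
  | succ m ih =>
    rcases lt_or_eq_of_le (show j + 1 ≤ k + m by omega) with h1 | h1
    · rw [cw, ev_cons, mul_assoc, ih h1 (by omega), ← mul_assoc, ← mul_assoc,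
        h.comm j (k + m) (by omega) (by omega)]
    · obtain ⟨m', rfl⟩ : ∃ m', m = m' + 1 := ⟨m - 1, by omega⟩
      obtain rfl : j = k + m' := by omega
      have h2 : ev s (cw k m') * s (k + m' + 1) = s (k + m' + 1) * ev s (cw k m') :=
        cw_comm_high h (by omega) m' (by omega)
      have h3 := h.braid (k + m') (by omega)
      have e1 : k + (m' + 1) = k + m' + 1 := by omega
      rw [cw, cw, ev_cons, ev_cons, e1]
      calc s (k + m' + 1) * (s (k + m') * ev s (cw k m')) * s (k + m' + 1)
          = s (k + m' + 1) * s (k + m') * (ev s (cw k m') * s (k + m' + 1)) := by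
            simp only [mul_assoc]
        _ = (s (k + m' + 1) * s (k + m') * s (k + m' + 1)) * ev s (cw k m') := by
            rw [h2]; simp only [mul_assoc]
        _ = s (k + m') * (s (k + m' + 1) * (s (k + m') * ev s (cw k m'))) := by
            rw [← h3]; simp only [mul_assoc]

/-- Normal form: every word in `s 0, …, s n` is a word in `s 0, …, s (n - 1)` times
`s n ⋯ s k`. -/
lemma exists_nf {n : ℕ} (h : Rels s (n + 1)) (w : List ℕ) (hw : ∀ j ∈ w, j < n + 1) :
    ∃ (u : List ℕ) (k m : ℕ), (∀ j ∈ u, j < n) ∧ k + m = n + 1 ∧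
      ev s w = ev s u * ev s (cw k m) := by
  induction w using List.reverseRecOn with
  | nil => exact ⟨[], n + 1, 0, by simp, rfl, by simp [cw]⟩
  | append_singleton w j ih =>
    obtain ⟨u, k, m, hu, hkm, he⟩ := ih fun i hi => hw i (by simp [hi])
    have hj : j < n + 1 := hw j (by simp)
    have h0 : ev s (w ++ [j]) = ev s u * (ev s (cw k m) * s j) := by
      rw [ev_append, he, ev_cons, ev_nil, mul_one, mul_assoc]
    rcases lt_trichotomy (j + 1) k with h1 | h1 | h1
    · refine ⟨u ++ [j], k, m, ?_, hkm, ?_⟩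
      · intro i hi
        rcases List.mem_append.1 hi with hi | hi
        · exact hu i hi
        · rw [List.mem_singleton] at hi
          omega
      · rw [h0, cw_comm_low h h1 m (by omega), ev_append, ev_cons, ev_nil, mul_one, mul_assoc]
    · refine ⟨u, j, m + 1, hu, by omega, ?_⟩
      subst h1
      rw [h0, cw_snoc, ev_append, ev_cons, ev_nil, mul_one]
    · rcases eq_or_lt_of_le (show k ≤ j by omega) with h2 | h2
      · subst h2
        obtain ⟨m', rfl⟩ : ∃ m', m = m' + 1 := ⟨m - 1, by omega⟩
        refine ⟨u, k + 1, m', hu, by omega, ?_⟩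
        rw [h0, cw_snoc, ev_append, ev_cons, ev_nil, mul_one, mul_assoc (ev s (cw (k + 1) m')),
          h.sq k hj, mul_one]
      · obtain ⟨j', rfl⟩ : ∃ j', j = j' + 1 := ⟨j - 1, by omega⟩
        refine ⟨u ++ [j'], k, m, ?_, hkm, ?_⟩
        · intro i hi
          rcases List.mem_append.1 hi with hi | hi
          · exact hu i hi
          · rw [List.mem_singleton] at hi
            omega
        · rw [h0, cw_shift h h2 m (by omega) (by omega), ev_append, ev_cons, ev_nil, mul_one,
            mul_assoc]

/-- the adjacent transposition as a permutation of `ℕ` -/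
def sN (j : ℕ) : Equiv.Perm ℕ := Equiv.swap j (j + 1)

lemma rels_sN (n : ℕ) : Rels sN n where
  sq i _ := Equiv.swap_mul_self _ _
  comm i j hij _ := by
    ext x
    simp only [sN, Equiv.Perm.mul_apply, Equiv.swap_apply_def]
    split_ifs <;> omega
  braid i _ := by
    ext x
    simp only [sN, Equiv.Perm.mul_apply, Equiv.swap_apply_def]
    split_ifs <;> omega

lemma ev_sN_fix {n : ℕ} (u : List ℕ) (hu : ∀ j ∈ u, j < n) (x : ℕ) (hx : n < x) :
    ev sN u x = x := by
  induction u with
  | nil => rfl
  | cons j u ih =>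
    rw [ev_cons, Equiv.Perm.mul_apply, ih fun i hi => hu i (by simp [hi]), sN,
      Equiv.swap_apply_of_ne_of_ne]
    · have := hu j (by simp)
      omega
    · have := hu j (by simp)
      omega

lemma ev_sN_cw (k m : ℕ) : ev sN (cw k m) k = k + m := by
  induction m with
  | zero => rfl
  | succ m ih =>
    rw [cw, ev_cons, Equiv.Perm.mul_apply, ih, sN, Equiv.swap_apply_left]
    omega

/-- Words with the same permutation have the same value. -/
theorem ev_eq (n : ℕ) (h : Rels s n) (w w' : List ℕ) (hw : ∀ j ∈ w, j < n)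
    (hw' : ∀ j ∈ w', j < n) (he : ev sN w = ev sN w') : ev s w = ev s w' := by
  induction n generalizing w w' with
  | zero =>
    have h1 : ∀ w : List ℕ, (∀ j ∈ w, j < 0) → w = [] := by
      intro w hw
      cases w with
      | nil => rfl
      | cons j w => exact absurd (hw j (by simp)) (by omega)
    rw [h1 w hw, h1 w' hw']
  | succ n ih =>
    let p : ℕ → M × Equiv.Perm ℕ := fun j => (s j, sN j)
    have hp : Rels p (n + 1) :=
      { sq := fun i hi => Prod.ext (h.sq i hi) ((rels_sN (n + 1)).sq i hi)
        comm := fun i j hij hj =>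
          Prod.ext (h.comm i j hij hj) ((rels_sN (n + 1)).comm i j hij hj)
        braid := fun i hi => Prod.ext (h.braid i hi) ((rels_sN (n + 1)).braid i hi) }
    have hp1 : ∀ w, (ev p w).1 = ev s w := by
      intro w
      induction w with
      | nil => rfl
      | cons j w ih => rw [ev_cons, ev_cons, Prod.fst_mul, ih]
    have hp2 : ∀ w, (ev p w).2 = ev sN w := by
      intro w
      induction w with
      | nil => rfl
      | cons j w ih => rw [ev_cons, ev_cons, Prod.snd_mul, ih]
    obtain ⟨u, k, m, hu, hkm, e⟩ := exists_nf hp w hw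
    obtain ⟨u', k', m', hu', hkm', e'⟩ := exists_nf hp w' hw'
    have e1 : ev s w = ev s u * ev s (cw k m) := by
      rw [← hp1, e, Prod.fst_mul, hp1, hp1]
    have e2 : ev sN w = ev sN u * ev sN (cw k m) := by
      rw [← hp2, e, Prod.snd_mul, hp2, hp2]
    have e1' : ev s w' = ev s u' * ev s (cw k' m') := by
      rw [← hp1, e', Prod.fst_mul, hp1, hp1]
    have e2' : ev sN w' = ev sN u' * ev sN (cw k' m') := by
      rw [← hp2, e', Prod.snd_mul, hp2, hp2]
    have f1 : ev sN w k = n + 1 := by
      rw [e2, Equiv.Perm.mul_apply, ev_sN_cw, hkm, ev_sN_fix u hu _ (by omega)]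
    have f2 : ev sN w' k' = n + 1 := by
      rw [e2', Equiv.Perm.mul_apply, ev_sN_cw, hkm', ev_sN_fix u' hu' _ (by omega)]
    have hk : k = k' := by
      rw [he] at f1
      exact (ev sN w').injective (f1.trans f2.symm)
    subst hk
    obtain rfl : m = m' := by omega
    rw [e2, e2'] at he
    have h2 := ih (h.mono (by omega)) u u' hu hu' (mul_right_cancel he)
    rw [e1, e1', h2]

lemma wordPerm_val {n : ℕ} (w : List (Fin n)) (x : Fin (n + 1)) :
    ev sN (w.map Fin.val) (x : ℕ) = (wordPerm w x : Fin (n + 1)) := by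
  induction w with
  | nil => rfl
  | cons j w ih =>
    have h1 : wordPerm (j :: w) x = Equiv.swap j.castSucc j.succ (wordPerm w x) := rfl
    rw [List.map_cons, ev_cons, Equiv.Perm.mul_apply, ih, h1, sN]
    generalize wordPerm w x = y
    rw [Equiv.swap_apply_def, Equiv.swap_apply_def]
    have a1 : ((y : ℕ) = j) ↔ y = j.castSucc := by
      rw [Fin.ext_iff]; rfl
    have a2 : ((y : ℕ) = (j : ℕ) + 1) ↔ y = j.succ := by
      rw [Fin.ext_iff]; rfl
    split_ifs <;> first | rfl | (exfalso; tauto)

/-- Words in `s 0, …, s (n - 1)` with the same permutation have the same value. -/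
theorem prod_eq {n : ℕ} (h : Rels s n) (w w' : List (Fin n))
    (he : wordPerm w = wordPerm w') :
    (w.map fun j : Fin n => s (j : ℕ)).prod = (w'.map fun j : Fin n => s (j : ℕ)).prod := by
  have h1 : ∀ w : List (Fin n), (w.map fun j : Fin n => s (j : ℕ)).prod =
      ev s (w.map Fin.val) := by
    intro w
    rw [ev, List.map_map]
    rfl
  have h2 : ∀ w : List (Fin n), ∀ j ∈ w.map Fin.val, j < n := by
    intro w j hj
    obtain ⟨i, _, rfl⟩ := List.mem_map.1 hj
    exact i.2
  rw [h1, h1]
  refine ev_eq n h _ _ (h2 w) (h2 w') ?_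
  ext x
  by_cases hx : x < n + 1
  · have h3 := wordPerm_val w ⟨x, hx⟩
    have h4 := wordPerm_val w' ⟨x, hx⟩
    change ev sN (w.map Fin.val) x = _ at h3
    change ev sN (w'.map Fin.val) x = _ at h4
    rw [h3, h4, he]
  · rw [ev_sN_fix _ (h2 w) x (by omega), ev_sN_fix _ (h2 w') x (by omega)]

end Words

end Cox

/-- If elements of a monoid satisfy the relations of the adjacent transpositions then the
product over a word depends only on the permutation represented by the word. -/
theorem prod_eq_of_wordPerm {M : Type*} [Monoid M] (n : ℕ) (s : ℕ → M)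
    (h1 : ∀ i, i < n → s i * s i = 1)
    (h2 : ∀ i j, i + 2 ≤ j → j < n → s i * s j = s j * s i)
    (h3 : ∀ i, i + 1 < n → s i * s (i + 1) * s i = s (i + 1) * s i * s (i + 1))
    (w w' : List (Fin n)) (h : wordPerm w = wordPerm w') :
    (w.map fun j : Fin n => s j).prod = (w'.map fun j : Fin n => s j).prod :=
  Cox.prod_eq ⟨h1, fun i j hij hj => h2 i j (by omega) hj, h3⟩ w w' h

end Pool.Agent.Lib.MotT
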