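import Pool.Agent.Lib.MP_6d0ce9_ag.St.Swap
import Pool.Agent.Lib.MP_6d0ce9_ag.St.Cox

/-!
# Coherence of the action of words on tensor powers
-/

set_option linter.unusedSectionVars false

universe v u

open CategoryTheory Category Limits MonoidalCategory

namespace Pool.Agent.Lib.MotT

variable {T : Type u} [Category.{v} T] [MonoidalCategory T] [SymmetricCategory T]

lemma wordAct_append (X : T) (n : ℕ) (w w' : List (Fin n)) :
    wordAct X n (w ++ w') = wordAct X n w ≫ wordAct X n w' := by
  induction w with
  | nil =>
    change wordAct X n w' = 𝟙 _ ≫ wordAct X n w'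
    rw [id_comp]
  | cons j w ih =>
    change swapAt X n j ≫ wordAct X n (w ++ w') = (swapAt X n j ≫ wordAct X n w) ≫ _
    rw [ih, assoc]

lemma wordPerm_append {n : ℕ} (w w' : List (Fin n)) :
    wordPerm (w ++ w') = wordPerm w * wordPerm w' := by
  simp [wordPerm]

/-- the swap as an element of the opposite of the monoid `End (tpow X n)` -/
def coh_sw (X : T) (n j : ℕ) : (End (tpow X n))ᵐᵒᵖ :=
  MulOpposite.op (show End (tpow X n) from swapAt X n j)

/-- Coherence: the action of a word in adjacent transpositions on a tensor power depends only
on the permutation represented by the word. -/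
theorem wordAct_eq (X : T) (n : ℕ) (w w' : List (Fin n)) (h : wordPerm w = wordPerm w') :
    wordAct X n w = wordAct X n w' := by
  have h0 : ∀ w : List (Fin n), (w.map fun j : Fin n => coh_sw X n (j : ℕ)).prod =
      MulOpposite.op (show End (tpow X n) from wordAct X n w) := by
    intro w
    induction w with
    | nil => rfl
    | cons j w ih =>
      rw [List.map_cons, List.prod_cons, ih]
      rfl
  have h1 := prod_eq_of_wordPerm n (coh_sw X n)
    (fun i hi => congrArg MulOpposite.op (swapAt_sq X n i hi))
    (fun i j hij hj => congrArg MulOpposite.op (swapAt_far X n i j hij hj))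
    (fun i hi => congrArg MulOpposite.op (((assoc _ _ _).trans
      (swapAt_braid X n i hi)).trans (assoc _ _ _).symm)) w w' h
  rw [h0, h0] at h1
  exact MulOpposite.op_injective h1

end Pool.Agent.Lib.MotT
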