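import Pool.Agent.Lib.MP_6d0ce9_ag.St.Fib

/-!
# A counting lemma on signed permutation representations of symmetric groups
-/

open Equiv

namespace Pool.Agent.Lib.MotT.St

/-- The element of the group ring attached to a vector `c`. -/
def comb_z {ν β : Type} (s' : (ν → β) → Perm ν → ℤ) (f0 : ν → β) (r : (ν → β) → Perm ν)
    (c : (ν → β) → ℤ) (σ : Perm ν) : ℤ :=
  s' f0 (σ * (r (f0 ∘ σ))⁻¹) * c (f0 ∘ σ)

theorem comb_comp_mul {ν γ : Type} (f : ν → γ) (σ τ : Perm ν) :
    f ∘ (σ * τ : Perm ν) = (f ∘ σ) ∘ τ := rfl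

theorem comb_z_mul {ν β : Type} (s' : (ν → β) → Perm ν → ℤ)
    (hc : ∀ f σ τ, s' f (σ * τ) = s' f σ * s' (f ∘ σ) τ)
    (f0 : ν → β) (r : (ν → β) → Perm ν) (c : (ν → β) → ℤ) (k σ : Perm ν) (hk : f0 ∘ k = f0) :
    comb_z s' f0 r c (k * σ) = s' f0 k * comb_z s' f0 r c σ := by
  unfold comb_z
  rw [comb_comp_mul, hk, mul_assoc k σ, hc, hk, mul_assoc]

theorem comb_E {ν α β : Type} [Fintype ν] [DecidableEq ν] [DecidableEq α]
    (s : (ν → α) → Perm ν → ℤ) (s' : (ν → β) → Perm ν → ℤ)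
    (hs1 : ∀ f σ, s f σ = 1 ∨ s f σ = -1)
    (hs : ∀ f σ τ, s f (σ * τ) = s f σ * s (f ∘ σ) τ)
    (hc1 : ∀ f σ, s' f σ = 1 ∨ s' f σ = -1)
    (hc : ∀ f σ τ, s' f (σ * τ) = s' f σ * s' (f ∘ σ) τ)
    (f0 : ν → β) (r : (ν → β) → Perm ν) (c : (ν → β) → ℤ) (k : Perm ν) (hk : f0 ∘ k = f0)
    (f g : ν → α)
    (h0 : (∑ σ : Perm ν, if f ∘ σ = g then comb_z s' f0 r c σ * s f σ else 0) = 0) :
    (∑ σ : Perm ν, if (f ∘ k) ∘ σ = g then comb_z s' f0 r c σ * s (f ∘ k) σ else 0) = 0 := by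
  have h1 : ∀ σ : Perm ν, (if (f ∘ k) ∘ σ = g then comb_z s' f0 r c σ * s (f ∘ k) σ else 0) =
      s' f0 k * s f k * (if f ∘ (k * σ : Perm ν) = g then
        comb_z s' f0 r c (k * σ) * s f (k * σ) else 0) := by
    intro σ
    rw [comb_comp_mul]
    split_ifs with hg
    · rw [comb_z_mul s' hc f0 r c k σ hk, hs]
      rcases hs1 f k with h | h <;> rcases hc1 f0 k with h' | h' <;> rw [h, h'] <;> ring
    · simp
  rw [Finset.sum_congr rfl fun σ _ => h1 σ, ← Finset.mul_sum]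
  have h2 : (∑ σ : Perm ν, if f ∘ (k * σ : Perm ν) = g then
        comb_z s' f0 r c (k * σ) * s f (k * σ) else 0) =
      ∑ σ : Perm ν, if f ∘ σ = g then comb_z s' f0 r c σ * s f σ else 0 :=
    Fintype.sum_equiv (Equiv.mulLeft k) _ _ fun σ => rfl
  rw [h2, h0, mul_zero]

theorem comb_ne {ν β : Type} [Fintype ν] [DecidableEq ν] [DecidableEq β]
    (s' : (ν → β) → Perm ν → ℤ)
    (hc1 : ∀ f σ, s' f σ = 1 ∨ s' f σ = -1)
    (hc : ∀ f σ τ, s' f (σ * τ) = s' f σ * s' (f ∘ σ) τ)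
    (f0 : ν → β) (r : (ν → β) → Perm ν) (c : (ν → β) → ℤ) (g : ν → β)
    (hr : f0 ∘ r g = g) (hg : c g ≠ 0) :
    (∑ σ : Perm ν, if f0 ∘ σ = g then comb_z s' f0 r c σ * s' f0 σ else 0) ≠ 0 := by
  have h1 : ∀ σ : Perm ν, (if f0 ∘ σ = g then comb_z s' f0 r c σ * s' f0 σ else 0) =
      if f0 ∘ σ = g then c g * s' f0 (r g) else 0 := by
    intro σ
    split_ifs with h
    · have hk : f0 ∘ (σ * (r g)⁻¹ : Perm ν) = f0 := by
        rw [comb_comp_mul, h]
        funext x
        have h3 := congrFun hr ((r g)⁻¹ x)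
        have h4 : r g ((r g)⁻¹ x) = x := (r g).apply_symm_apply x
        rw [Function.comp_apply, h4] at h3
        exact h3.symm
      have h2 : s' f0 σ = s' f0 (σ * (r g)⁻¹) * s' f0 (r g) := by
        have := hc f0 (σ * (r g)⁻¹) (r g)
        rw [hk, inv_mul_cancel_right] at this
        exact this
      unfold comb_z
      rw [h, h2]
      rcases hc1 f0 (σ * (r g)⁻¹) with h3 | h3 <;> rw [h3] <;> ring
    · rfl
  rw [Finset.sum_congr rfl fun σ _ => h1 σ, ← Finset.sum_filter, Finset.sum_const,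
    nsmul_eq_mul]
  refine mul_ne_zero ?_ (mul_ne_zero hg ?_)
  · rw [Nat.cast_ne_zero, Finset.card_ne_zero]
    exact ⟨r g, by simp [hr]⟩
  · rcases hc1 f0 (r g) with h | h <;> rw [h] <;> norm_num

/-- The joint counts of the two functions. -/
def comb_J {n m m' : ℕ} (f0 : Fin (n + 1) → Fin m') (f : Fin (n + 1) → Fin m) :
    Fin m' → Fin m → Fin (n + 2) := fun b a =>
  ⟨(Finset.univ.filter fun x => f0 x = b ∧ f x = a).card,
    Nat.lt_succ_of_le ((Finset.card_le_univ _).trans_eq (Fintype.card_fin _))⟩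

/-- The counts of a function. -/
def comb_cnt {n m' : ℕ} (f : Fin (n + 1) → Fin m') : Fin m' → Fin (n + 2) := fun b =>
  ⟨(Finset.univ.filter fun x => f x = b).card,
    Nat.lt_succ_of_le ((Finset.card_le_univ _).trans_eq (Fintype.card_fin _))⟩

theorem comb_cnt_perm {n m' : ℕ} (f g : Fin (n + 1) → Fin m') (h : comb_cnt f = comb_cnt g) :
    ∃ σ : Perm (Fin (n + 1)), f ∘ σ = g := by
  refine exists_perm f g fun b => ?_
  have := congrArg Fin.val (congrFun h b)
  exact this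

theorem comb_J_perm {n m m' : ℕ} (f0 : Fin (n + 1) → Fin m') (f g : Fin (n + 1) → Fin m)
    (h : comb_J f0 f = comb_J f0 g) :
    ∃ σ : Perm (Fin (n + 1)), f0 ∘ σ = f0 ∧ f ∘ σ = g := by
  obtain ⟨σ, hσ⟩ := exists_perm (fun x => (f0 x, f x)) (fun x => (f0 x, g x)) (by
    rintro ⟨b, a⟩
    have := congrArg Fin.val (congrFun (congrFun h b) a)
    simpa [comb_J, Prod.ext_iff] using this)
  refine ⟨σ, ?_, ?_⟩
  · funext x
    have := congrFun hσ x
    exact (Prod.ext_iff.1 this).1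
  · funext x
    have := congrFun hσ x
    exact (Prod.ext_iff.1 this).2

/-- The extension of a vector by zero. -/
noncomputable def comb_ext {X : Type} [DecidableEq X] (O : Finset X) :
    ((↥O → ℤ) →ₗ[ℤ] (X → ℤ)) where
  toFun c x := if h : x ∈ O then c ⟨x, h⟩ else 0
  map_add' c d := by
    funext x
    by_cases h : x ∈ O <;> simp [h]
  map_smul' a c := by
    funext x
    by_cases h : x ∈ O <;> simp [h]

theorem comb_exists {n m m' : ℕ}
    (s : (Fin (n + 1) → Fin m) → Perm (Fin (n + 1)) → ℤ)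
    (s' : (Fin (n + 1) → Fin m') → Perm (Fin (n + 1)) → ℤ)
    (f0 : Fin (n + 1) → Fin m') (r : (Fin (n + 1) → Fin m') → Perm (Fin (n + 1)))
    (O : Finset (Fin (n + 1) → Fin m'))
    (hO : (n + 2) ^ (m' * m) * m ^ (n + 1) < O.card)
    (F : (Fin m' → Fin m → Fin (n + 2)) → (Fin (n + 1) → Fin m)) :
    ∃ c : (Fin (n + 1) → Fin m') → ℤ, (∃ g ∈ O, c g ≠ 0) ∧
      ∀ j g, (∑ σ : Perm (Fin (n + 1)), if F j ∘ σ = g then
        comb_z s' f0 r c σ * s (F j) σ else 0) = 0 := by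
  classical
  let L0 : ((Fin (n + 1) → Fin m') → ℤ) →ₗ[ℤ]
      ((Fin m' → Fin m → Fin (n + 2)) × (Fin (n + 1) → Fin m) → ℤ) :=
    { toFun := fun c p => ∑ σ : Perm (Fin (n + 1)), if F p.1 ∘ σ = p.2 then
        comb_z s' f0 r c σ * s (F p.1) σ else 0
      map_add' := by
        intro c d
        funext p
        simp only [Pi.add_apply]
        rw [← Finset.sum_add_distrib]
        refine Finset.sum_congr rfl fun σ _ => ?_
        split_ifs
        · simp only [comb_z, Pi.add_apply]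
          ring
        · simp
      map_smul' := by
        intro a c
        funext p
        simp only [Pi.smul_apply, smul_eq_mul, RingHom.id_apply]
        rw [Finset.mul_sum]
        refine Finset.sum_congr rfl fun σ _ => ?_
        split_ifs
        · simp only [comb_z, Pi.smul_apply, smul_eq_mul]
          ring
        · simp }
  have hni : ¬ Function.Injective (L0 ∘ₗ comb_ext O) := by
    intro hi
    have := card_le_of_injective ℤ (L0 ∘ₗ comb_ext O) hi
    simp only [Fintype.card_coe, Fintype.card_prod, Fintype.card_pi, Fintype.card_fin,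
      Finset.prod_const, Finset.card_univ] at this
    rw [← pow_mul, mul_comm m m'] at this
    omega
  rw [← LinearMap.ker_eq_bot, Submodule.eq_bot_iff] at hni
  push Not at hni
  obtain ⟨c, hc, hc0⟩ := hni
  refine ⟨comb_ext O c, ?_, fun j g => ?_⟩
  · obtain ⟨x, hx⟩ : ∃ x, c x ≠ 0 := by
      by_contra hcon
      push Not at hcon
      exact hc0 (funext hcon)
    refine ⟨x, x.2, ?_⟩
    have : comb_ext O c x = c x := by
      change (if h : (x : Fin (n + 1) → Fin m') ∈ O then c ⟨x, h⟩ else 0) = c x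
      rw [dif_pos x.2]
    rw [this]
    exact hx
  · have := congrFun (LinearMap.mem_ker.1 hc) (j, g)
    exact this

/-- For `m < m'` there is a number of factors such that, whatever the signs, some element of the
group ring of the symmetric group kills the signed permutation representation on words in `m`
letters, but does not kill the one on words in `m'` letters. -/
theorem comb (m m' : ℕ) (h : m < m') : ∃ n : ℕ,
    ∀ (s : (Fin (n + 1) → Fin m) → Perm (Fin (n + 1)) → ℤ)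
      (s' : (Fin (n + 1) → Fin m') → Perm (Fin (n + 1)) → ℤ),
      (∀ f σ, s f σ = 1 ∨ s f σ = -1) → (∀ f σ τ, s f (σ * τ) = s f σ * s (f ∘ σ) τ) →
      (∀ f σ, s' f σ = 1 ∨ s' f σ = -1) → (∀ f σ τ, s' f (σ * τ) = s' f σ * s' (f ∘ σ) τ) →
      ∃ z : Perm (Fin (n + 1)) → ℤ,
        (∀ f g, (∑ σ : Perm (Fin (n + 1)), if f ∘ σ = g then z σ * s f σ else 0) = 0) ∧
        ∃ f g, (∑ σ : Perm (Fin (n + 1)), if f ∘ σ = g then z σ * s' f σ else 0) ≠ 0 := by
  classical
  obtain ⟨n, hn⟩ := growth m m' h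
  refine ⟨n, fun s s' hs1 hs hc1 hc => ?_⟩
  obtain ⟨k, hk⟩ := Fintype.exists_lt_card_fiber_of_mul_lt_card
    (f := fun f : Fin (n + 1) → Fin m' => comb_cnt f)
    (n := (n + 2) ^ (m' * m) * m ^ (n + 1)) (by
      simp only [Fintype.card_pi, Fintype.card_fin, Finset.prod_const, Finset.card_univ]
      calc (n + 2) ^ m' * ((n + 2) ^ (m' * m) * m ^ (n + 1))
          = (n + 2) ^ (m' * m) * ((n + 2) ^ m' * m ^ (n + 1)) := by ring
        _ < _ := hn)
  set O : Finset (Fin (n + 1) → Fin m') := Finset.univ.filter fun f => comb_cnt f = k with hO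
  obtain ⟨f0, hf0⟩ : O.Nonempty := by
    rw [← Finset.card_pos]
    exact lt_of_le_of_lt (Nat.zero_le _) hk
  have hf0' : comb_cnt f0 = k := by simpa [hO] using hf0
  have hex : ∀ g : Fin (n + 1) → Fin m', ∃ σ : Perm (Fin (n + 1)), g ∈ O → f0 ∘ σ = g := by
    intro g
    by_cases hg : g ∈ O
    · have hg' : comb_cnt g = k := by simpa [hO] using hg
      obtain ⟨σ, hσ⟩ := comb_cnt_perm f0 g (hf0'.trans hg'.symm)
      exact ⟨σ, fun _ => hσ⟩
    · exact ⟨1, fun h => absurd h hg⟩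
  choose r hr using hex
  by_cases hne : Nonempty (Fin (n + 1) → Fin m)
  · obtain ⟨c, ⟨g, hg, hcg⟩, hz⟩ := comb_exists s s' f0 r O hk (Function.invFun (comb_J f0))
    refine ⟨comb_z s' f0 r c, fun f g => ?_,
      f0, g, comb_ne s' hc1 hc f0 r c g (hr g hg) hcg⟩
    have hJ : comb_J f0 (Function.invFun (comb_J f0) (comb_J f0 f)) = comb_J f0 f :=
      Function.invFun_eq ⟨f, rfl⟩
    obtain ⟨σ, h1, h2⟩ := comb_J_perm f0 _ f hJ
    have := comb_E s s' hs1 hs hc1 hc f0 r c σ h1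
      (Function.invFun (comb_J f0) (comb_J f0 f)) g (hz _ _)
    rw [h2] at this
    exact this
  · refine ⟨comb_z s' f0 r (fun _ => 1), fun f => absurd ⟨f⟩ hne,
      f0, f0, comb_ne s' hc1 hc f0 r _ f0 (hr f0 hf0) one_ne_zero⟩

end Pool.Agent.Lib.MotT.St
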