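import Pool.Agent.Lib.MP_6d0ce9_ag.St.Grow

/-!
# A conservative realisation is compatible with the levels of a t-structure
-/

set_option linter.unusedSectionVars false

universe w v u

open CategoryTheory Category Limits MonoidalCategory Pretriangulated Triangulated
open scoped ZeroObject

namespace Pool.Agent.Lib.MotT

namespace Realization

variable {T : Type u} [Category.{v} T] [Preadditive T] [HasZeroObject T] [HasShift T ℤ]
  [∀ n : ℤ, (shiftFunctor T n).Additive] [Pretriangulated T] [IsTriangulated T]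
  [MonoidalCategory T] [SymmetricCategory T] [∀ X : T, (tensorLeft X).CommShift ℤ]
  [∀ X : T, (tensorLeft X).IsTriangulated] {F : Type w} [Field F] {R : Realization T F}
  {t : TStructure T}

/-- The cohomology objects of a bounded object. -/
lemma exists_pieces (R : Realization T F) (a : ℤ) (k : ℕ) (P : T) (h1 : t.IsGE P a)
    (h2 : t.IsLE P (a + k)) :
    ∃ X : ℤ → T, (∀ j, Nonempty (SubData t j (X j) P)) ∧
      (∀ j, j < a ∨ a + k < j → IsZero (X j)) ∧
      R.dm P ≤ ∑ j ∈ Finset.Icc a (a + k), R.dm (X j) := by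
  classical
  induction k generalizing a P with
  | zero =>
    refine ⟨fun j => if j = a then P else 0, fun j => ?_, fun j hj => ?_, ?_⟩
    · by_cases hj : j = a
      · subst hj
        simp only [if_true]
        exact ⟨SubData.refl (by simpa using h2) h1⟩
      · simp only [if_neg hj]
        exact ⟨SubData.zero j (isZero_zero T) P⟩
    · have : j ≠ a := by
        push_cast at hj
        lia
      simp only [if_neg this]
      exact isZero_zero T
    · simp
  | succ k ih =>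
    obtain ⟨K, P', f, g, δ, hT, hK, hP'⟩ := exists_trunc t P a (a + 1) rfl
    have hK2 : t.IsGE K a := isGE₁ t hT a h1 (t.isGE_of_ge P' (a - 1) (a + 1) (by lia))
    have h3 : a + ((k + 1 : ℕ) : ℤ) = a + 1 + k := by push_cast; ring
    rw [h3] at h2 ⊢
    have hP'2 : t.IsLE P' (a + 1 + k) :=
      isLE₃ t hT (a + 1 + k) (t.isLE_of_le K a _ (by lia)) h2
    obtain ⟨X, hX1, hX2, hX3⟩ := ih (a + 1) P' hP' hP'2
    refine ⟨fun j => if j = a then K else X j, fun j => ?_, fun j hj => ?_, ?_⟩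
    · by_cases hj : j = a
      · subst hj
        simp only [if_true]
        exact (SubData.refl hK hK2).of_mono hT (t.isGE_of_ge P' j (j + 1) (by lia))
      · simp only [if_neg hj]
        rcases lt_or_gt_of_ne hj with hj' | hj'
        · exact ⟨SubData.zero j (hX2 j (Or.inl (by lia))) P⟩
        · exact (hX1 j).some.of_epi hT (t.isLE_of_le K a j (by lia))
    · have : j ≠ a := by lia
      simp only [if_neg this]
      exact hX2 j (by lia)
    · have h4 := R.dm_triangle hT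
      have h5 : Finset.Icc a (a + 1 + k) = insert a (Finset.Icc (a + 1) (a + 1 + k)) := by
        ext j
        simp only [Finset.mem_Icc, Finset.mem_insert]
        lia
      rw [h5, Finset.sum_insert (by simp)]
      simp only [if_true]
      refine h4.trans (Nat.add_le_add_left (hX3.trans (le_of_eq ?_)) _)
      refine Finset.sum_congr rfl fun j hj => ?_
      have h6 := Finset.mem_Icc.1 hj
      rw [if_neg (by lia)]

lemma dm_pos (hcons : R.Conservative) {X : T} (hX : ¬ IsZero X) : 0 < R.dm X := by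
  rw [Nat.pos_iff_ne_zero]
  intro h
  exact hX (hcons X ((R.dm_eq_zero_iff X).1 h))

/-- Only finitely many levels have nonzero subquotients. -/
lemma exists_bound [CharZero F] (ht : TensorCompatible t) (hcons : R.Conservative) (N : T) :
    ∃ b : ℕ, ∀ (j : ℤ) (X : T), Nonempty (SubData t j X N) → (b : ℤ) < |j| → IsZero X := by
  classical
  set S : Set ℤ := {j | ∃ X : T, ¬ IsZero X ∧ Nonempty (SubData t j X N)} with hS
  have hfin : S.Finite := by
    by_contra hinf
    obtain ⟨s, hs, hcard⟩ := Set.Infinite.exists_subset_card_eq hinf (R.dm N + 1)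
    have hc : ∀ j : ℤ, ∃ X : T, Nonempty (SubData t j X N) ∧ (j ∈ s → ¬ IsZero X) ∧
        (j ∉ s → IsZero X) := by
      intro j
      by_cases hj : j ∈ s
      · obtain ⟨X, hX, hD⟩ := hs hj
        exact ⟨X, hD, fun _ => hX, fun h => absurd hj h⟩
      · exact ⟨0, ⟨SubData.zero j (isZero_zero T) N⟩, fun h => absurd h hj,
          fun _ => isZero_zero T⟩
    choose X hX1 hX2 hX3 using hc
    obtain ⟨b, hb⟩ : ∃ b : ℕ, ∀ j ∈ s, |j| ≤ b := by
      refine ⟨∑ j ∈ s, j.natAbs, fun j hj => ?_⟩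
      have h1 : j.natAbs ≤ ∑ j ∈ s, j.natAbs :=
        Finset.single_le_sum (f := fun j : ℤ => j.natAbs) (fun _ _ => Nat.zero_le _) hj
      have h2 : |j| = (j.natAbs : ℤ) := Int.abs_eq_natAbs j
      rw [h2]
      exact_mod_cast h1
    have hF : Fam t N b X := ⟨hX1, fun j hj => hX3 j fun hj' => absurd (hb j hj') (by lia)⟩
    have h1 := fdim_le (R := R) ht hcons hF
    have h2 : s.card ≤ R.fdim b X := by
      rw [fdim, Finset.card_eq_sum_ones]
      calc ∑ j ∈ s, 1 ≤ ∑ j ∈ s, R.dm (X j) :=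
            Finset.sum_le_sum fun j hj => dm_pos hcons (hX2 j hj)
        _ ≤ _ := Finset.sum_le_sum_of_subset fun j hj =>
            Finset.mem_Icc.2 (abs_le.1 (hb j hj))
    lia
  obtain ⟨b, hb⟩ : ∃ b : ℕ, ∀ j ∈ hfin.toFinset, |j| ≤ b := by
    refine ⟨∑ j ∈ hfin.toFinset, j.natAbs, fun j hj => ?_⟩
    have h1 : j.natAbs ≤ ∑ j ∈ hfin.toFinset, j.natAbs :=
      Finset.single_le_sum (f := fun j : ℤ => j.natAbs) (fun _ _ => Nat.zero_le _) hj
    have h2 : |j| = (j.natAbs : ℤ) := Int.abs_eq_natAbs j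
    rw [h2]
    exact_mod_cast h1
  refine ⟨b, fun j X hD hj => ?_⟩
  by_contra hX
  have := hb j (hfin.mem_toFinset.2 ⟨X, hX, hD⟩)
  lia

/-- Every object is bounded for a non-degenerate tensor compatible t-structure if there is a
conservative realisation. -/
theorem bounded_of_conservative [CharZero F] (hnd : Nondegenerate t) (ht : TensorCompatible t)
    (hcons : R.Conservative) (N : T) : ∃ b : ℕ, t.IsGE N (-(b : ℤ)) ∧ t.IsLE N b := by
  obtain ⟨b, hb⟩ := exists_bound (R := R) ht hcons N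
  refine ⟨b, ?_, ?_⟩
  · obtain ⟨K, Q, f, g, δ, hT, hK, hQ⟩ := exists_trunc t N (-(b : ℤ) - 1) (-(b : ℤ)) (by lia)
    have key : ∀ k : ℕ, t.IsLE K (-(b : ℤ) - 1 - k) := by
      intro k
      induction k with
      | zero => simpa using hK
      | succ k ih =>
        obtain ⟨K', X, f', g', δ', hT', hK', hX⟩ := exists_trunc t K (-(b : ℤ) - 1 - k - 1)
          (-(b : ℤ) - 1 - k) (by lia)
        have hX2 : t.IsLE X (-(b : ℤ) - 1 - k) :=
          isLE₃ t hT' _ (t.isLE_of_le K' (-(b : ℤ) - 1 - k - 1) _ (by lia)) ih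
        have h1 : Nonempty (SubData t (-(b : ℤ) - 1 - k) X K) :=
          (SubData.refl hX2 hX).of_epi hT' (t.isLE_of_le K' (-(b : ℤ) - 1 - k - 1) _ (by lia))
        have h2 := h1.some.of_mono hT (t.isGE_of_ge Q (-(b : ℤ) - 1 - k) (-(b : ℤ)) (by lia))
        have h3 : IsZero X := hb _ X h2 (by
          rw [abs_of_neg (by lia)]
          lia)
        have : IsIso f' := (Triangle.isZero₃_iff_isIso₁ _ hT').1 h3
        have h4 := t.isLE_of_iso (asIso f') (-(b : ℤ) - 1 - k - 1)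
        rwa [show -(b : ℤ) - 1 - ((k + 1 : ℕ) : ℤ) = -(b : ℤ) - 1 - k - 1 by push_cast; ring]
    have hK0 : IsZero K := by
      apply hnd.1
      intro n
      have h1 := key (-n).toNat
      have h2 := t.isLE_of_le K _ n (show -(b : ℤ) - 1 - (-n).toNat ≤ n by
        have := Int.self_le_toNat (-n)
        lia)
      exact h2.le
    have : IsIso g := (Triangle.isZero₁_iff_isIso₂ _ hT).1 hK0
    exact t.isGE_of_iso (asIso g).symm _
  · obtain ⟨K, Q, f, g, δ, hT, hK, hQ⟩ := exists_trunc t N (b : ℤ) ((b : ℤ) + 1) rfl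
    have key : ∀ k : ℕ, t.IsGE Q ((b : ℤ) + 1 + k) := by
      intro k
      induction k with
      | zero => simpa using hQ
      | succ k ih =>
        obtain ⟨X, Q', f', g', δ', hT', hX, hQ'⟩ := exists_trunc t Q ((b : ℤ) + 1 + k)
          ((b : ℤ) + 1 + k + 1) rfl
        have hX2 : t.IsGE X ((b : ℤ) + 1 + k) :=
          isGE₁ t hT' _ ih (t.isGE_of_ge Q' _ ((b : ℤ) + 1 + k + 1) (by lia))
        have h1 : Nonempty (SubData t ((b : ℤ) + 1 + k) X Q) :=
          (SubData.refl hX hX2).of_mono hT' (t.isGE_of_ge Q' _ ((b : ℤ) + 1 + k + 1) (by lia))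
        have h2 := h1.some.of_epi hT (t.isLE_of_le K (b : ℤ) ((b : ℤ) + 1 + k) (by lia))
        have h3 : IsZero X := hb _ X h2 (by
          rw [abs_of_pos (by lia)]
          lia)
        have : IsIso g' := (Triangle.isZero₁_iff_isIso₂ _ hT').1 h3
        have h4 := t.isGE_of_iso (asIso g').symm ((b : ℤ) + 1 + k + 1)
        rwa [show (b : ℤ) + 1 + ((k + 1 : ℕ) : ℤ) = (b : ℤ) + 1 + k + 1 by push_cast; ring]
    have hQ0 : IsZero Q := by
      apply hnd.2
      intro n
      have h1 := key n.toNat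
      have h2 := t.isGE_of_ge Q n _ (show n ≤ (b : ℤ) + 1 + n.toNat by
        have := Int.self_le_toNat n
        lia)
      exact h2.ge
    have : IsIso f := (Triangle.isZero₃_iff_isIso₁ _ hT).1 hQ0
    exact t.isLE_of_iso (asIso f) _

lemma dm_unit (R : Realization T F) : R.dm (𝟙_ T) = 1 := by
  have h1 := R.dm_tensor (𝟙_ T) (𝟙_ T)
  rw [R.dm_iso (λ_ (𝟙_ T))] at h1
  have h2 : R.dm (𝟙_ T) ≠ 0 := by
    intro h
    have h3 := (R.dm_eq_zero_iff (𝟙_ T)).1 h 0
    have := R.unit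
    exact not_subsingleton _ h3
  have h3 : R.dm (𝟙_ T) * 1 = R.dm (𝟙_ T) * R.dm (𝟙_ T) := by rw [mul_one]; exact h1
  exact (Nat.eq_of_mul_eq_mul_left (Nat.pos_of_ne_zero h2) h3).symm

/-- Morphisms from the unit to `D^{≤ -1}` are zero on cohomology. -/
theorem tmap_unit_eq_zero [CharZero F] (hnd : Nondegenerate t) (ht : TensorCompatible t)
    (hcons : R.Conservative) {U : T} (hU : t.IsLE U (-1)) (f : 𝟙_ T ⟶ U) : R.tmap f = 0 := by
  by_contra hf
  obtain ⟨N, g, h, hT⟩ := distinguished_cocone_triangle₁ f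
  have hT' := inv_rot_of_distTriang _ hT
  obtain ⟨P, p, q, hT'', hP, hq⟩ : ∃ (P : T) (p : P ⟶ N) (q : 𝟙_ T ⟶ P⟦(1 : ℤ)⟧),
      Triangle.mk p g q ∈ distTriang T ∧ t.IsLE P 0 ∧ R.tmap q ≠ 0 := by
    refine ⟨U⟦(-1 : ℤ)⟧, _, _, hT', t.isLE_shift U (-1) (-1) 0 (by lia), ?_⟩
    intro hq
    apply hf
    have e := (shiftFunctorCompIsoId T (-1 : ℤ) 1 (by lia)).app U
    have h1 : f = (f ≫ (shiftFunctorCompIsoId T (-1 : ℤ) 1 (by lia)).inv.app U) ≫
      (shiftFunctorCompIsoId T (-1 : ℤ) 1 (by lia)).hom.app U := by simp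
    rw [h1, tmap_comp]
    have h2 : R.tmap (f ≫ (shiftFunctorCompIsoId T (-1 : ℤ) 1 (by lia)).inv.app U) = 0 := hq
    rw [h2, LinearMap.comp_zero]
  obtain ⟨b, hb1, hb2⟩ := bounded_of_conservative (R := R) hnd ht hcons P
  obtain ⟨X, hX1, hX2, hX3⟩ := exists_pieces (t := t) R (-(b : ℤ)) b P hb1 (by simpa using hP)
  have hF : Fam t N b X := by
    constructor
    · intro j
      rcases le_or_gt j 0 with hj | hj
      · have hu := (unit_mem hnd ht).2
        exact (hX1 j).some.of_mono hT'' (t.isGE_of_ge (𝟙_ T) j 0 hj)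
      · exact ⟨SubData.zero j (hX2 j (Or.inr (by lia))) N⟩
    · intro j hj
      refine hX2 j ?_
      rcases lt_abs.1 hj with h | h
      · right; lia
      · left; lia
  have h1 := fdim_le (R := R) ht hcons hF
  have h2 := R.dm_triangle_lt hT'' hq
  rw [R.dm_unit] at h2
  have h3 : ∑ j ∈ Finset.Icc (-(b : ℤ)) (-(b : ℤ) + b), R.dm (X j) ≤ R.fdim b X := by
    refine Finset.sum_le_sum_of_subset (Finset.Icc_subset_Icc le_rfl ?_)
    lia
  lia

lemma tmap_tensorHom_eq_zero (R : Realization T F) {X Y X' Y' : T} {f : X ⟶ Y}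
    (hf : R.tmap f = 0) (g : X' ⟶ Y') : R.tmap (f ⊗ₘ g) = 0 := by
  refine LinearMap.ext fun z => ?_
  obtain ⟨a, rfl⟩ := (R.tcup_bijective X X').2 z
  induction a using TensorProduct.induction_on with
  | zero => simp
  | add a b ha hb => rw [map_add, map_add, ha, hb, map_add]
  | tmul x y =>
    rw [TensorProduct.lift.tmul, tcup_natural, hf]
    simp

lemma dual_isLE (hnd : Nondegenerate t) (ht : TensorCompatible t) {X Y : T}
    [ExactPairing X Y] {m : ℤ} (hX : t.IsGE X m) : t.IsLE Y (-m) := by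
  apply isLE_of_orth
  intro B hB f
  let e := tensorLeftHomEquiv (𝟙_ T) X Y B
  have h1 : ∀ g : 𝟙_ T ⟶ X ⊗ B, g = 0 := fun g => by
    have h2 := ge_tensor ht hX hB
    exact t.zero_of_isLE_of_isGE _ 0 (m + (-m + 1)) (by lia) (unit_mem hnd ht).1 h2
  have h3 : ∀ g g' : Y ⊗ 𝟙_ T ⟶ B, g = g' := fun g g' => by
    apply e.injective
    rw [h1 (e g), h1 (e g')]
  have h4 : (ρ_ Y).hom ≫ f = (ρ_ Y).hom ≫ 0 := h3 _ _
  exact (cancel_epi _).1 h4

/-- Morphisms which go from `D^{≥ a + 1}` to `D^{≤ a}` are zero on cohomology if the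
realisation is conservative. -/
theorem tmap_eq_zero_of_levels [CharZero F] (hnd : Nondegenerate t) (ht : TensorCompatible t)
    (hrig : IsRigid T) (hcons : R.Conservative) {Z Y : T} {a : ℤ} (hZ : t.IsGE Z (a + 1))
    (hY : t.IsLE Y a) (g : Z ⟶ Y) : R.tmap g = 0 := by
  obtain ⟨Z', ⟨hZ'⟩⟩ := hrig Z
  have hZ2 : t.IsLE Z' (-(a + 1)) := dual_isLE hnd ht hZ
  have hU : t.IsLE (Y ⊗ Z') (-1) := by
    have := le_tensor ht hY hZ2
    rwa [show a + -(a + 1) = -1 by ring] at this
  let e := tensorRightHomEquiv (𝟙_ T) Z Z' Y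
  have h1 := R.tmap_unit_eq_zero hnd ht hcons hU (e ((λ_ Z).hom ≫ g))
  have h2 : (λ_ Z).hom ≫ g = e.symm (e ((λ_ Z).hom ≫ g)) := (e.symm_apply_apply _).symm
  have h3 : e.symm (e ((λ_ Z).hom ≫ g)) =
      (e ((λ_ Z).hom ≫ g) ▷ Z) ≫ (α_ _ _ _).hom ≫ (Y ◁ ε_ Z Z') ≫ (ρ_ _).hom := rfl
  have h4 : R.tmap ((λ_ Z).hom ≫ g) = 0 := by
    rw [h2, h3, tmap_comp]
    have h5 : R.tmap (e ((λ_ Z).hom ≫ g) ▷ Z) = 0 := by
      rw [← tensorHom_id]
      exact R.tmap_tensorHom_eq_zero h1 _
    rw [h5, LinearMap.comp_zero]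
  have h6 : g = (λ_ Z).inv ≫ (λ_ Z).hom ≫ g := by simp
  rw [h6, tmap_comp, h4, LinearMap.zero_comp]

end Realization

end Pool.Agent.Lib.MotT
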