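import Mathlib

/-!
# Functions with fibres of the same size, and a comparison of growth
-/

namespace Pool.Agent.Lib.MotT.St

/-- Two functions with fibres of the same cardinality differ by a permutation of the source. -/
theorem exists_perm {α β : Type*} [Fintype α] [DecidableEq β] (f g : α → β)
    (h : ∀ b, (Finset.univ.filter fun a => f a = b).card =
      (Finset.univ.filter fun a => g a = b).card) :
    ∃ σ : Equiv.Perm α, f ∘ σ = g := by
  classical
  have hc : ∀ b, Fintype.card {a // g a = b} = Fintype.card {a // f a = b} := by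
    intro b
    rw [Fintype.card_subtype, Fintype.card_subtype]
    exact (h b).symm
  refine ⟨Equiv.ofFiberEquiv (fun b => Fintype.equivOfCardEq (hc b)), ?_⟩
  funext a
  exact Equiv.ofFiberEquiv_map _ a

theorem growth (m m' : ℕ) (h : m < m') : ∃ n : ℕ,
    (n + 2) ^ (m' * m) * ((n + 2) ^ m' * m ^ (n + 1)) < m' ^ (n + 1) := by
  rcases Nat.eq_zero_or_pos m with h0 | h0
  · subst h0
    refine ⟨0, ?_⟩
    simp only [zero_add, pow_one, mul_zero]
    exact h
  · have hm' : (0 : ℝ) < m' := by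
      have : 0 < m' := by omega
      exact_mod_cast this
    have hm : (0 : ℝ) < m := by exact_mod_cast h0
    have hmm : (m : ℝ) < m' := by exact_mod_cast h
    have hr0 : (0 : ℝ) < (m : ℝ) / m' := div_pos hm hm'
    have hr1 : |(m : ℝ) / m'| < 1 := by
      rw [abs_of_pos hr0, div_lt_one hm']
      exact hmm
    have ht := tendsto_pow_const_mul_const_pow_of_abs_lt_one (m' * m + m') hr1
    have he := (ht.eventually (gt_mem_nhds hr0)).and (Filter.eventually_ge_atTop 2)
    obtain ⟨N, hN1, hN2⟩ := he.exists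
    obtain ⟨n, rfl⟩ : ∃ n, N = n + 2 := ⟨N - 2, by omega⟩
    refine ⟨n, ?_⟩
    have h1 : ((n + 2 : ℕ) : ℝ) ^ (m' * m + m') * ((m : ℝ) / m') ^ (n + 1) < 1 := by
      have h2 : ((n + 2 : ℕ) : ℝ) ^ (m' * m + m') * ((m : ℝ) / m') ^ (n + 1) * ((m : ℝ) / m') <
          1 * ((m : ℝ) / m') := by
        calc ((n + 2 : ℕ) : ℝ) ^ (m' * m + m') * ((m : ℝ) / m') ^ (n + 1) * ((m : ℝ) / m') =
            ((n + 2 : ℕ) : ℝ) ^ (m' * m + m') * ((m : ℝ) / m') ^ (n + 2) := by
              rw [mul_assoc, ← pow_succ]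
          _ < (m : ℝ) / m' := hN1
          _ = 1 * ((m : ℝ) / m') := (one_mul _).symm
      exact lt_of_mul_lt_mul_right h2 hr0.le
    rw [div_pow, ← mul_div_assoc, div_lt_one (pow_pos hm' _)] at h1
    have h3 : ((n + 2 : ℕ) : ℝ) ^ (m' * m) * (((n + 2 : ℕ) : ℝ) ^ m' * (m : ℝ) ^ (n + 1)) <
        (m' : ℝ) ^ (n + 1) := by
      rw [← mul_assoc, ← pow_add]
      exact h1
    exact_mod_cast h3

end Pool.Agent.Lib.MotT.St
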