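import Pool.Agent.Lib.MP_6d0ce9_ag.St.Bas
import Pool.Agent.Lib.MP_6d0ce9_ag.St.Comb
import Pool.Agent.Lib.MP_6d0ce9_ag.St.Zz

/-!
# Elements of the group ring of the symmetric group which kill tensor powers
-/

set_option linter.unusedSectionVars false

universe w v u

open CategoryTheory Category Limits MonoidalCategory Pretriangulated Triangulated

namespace Pool.Agent.Lib.MotT

namespace Realization

variable {T : Type u} [Category.{v} T] [Preadditive T] [HasZeroObject T] [HasShift T ℤ]
  [∀ n : ℤ, (shiftFunctor T n).Additive] [Pretriangulated T] [MonoidalCategory T]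
  [SymmetricCategory T] {F : Type w} [Field F] (R : Realization T F)

/-- If every element of the group ring of a symmetric group which acts as zero on the tensor
power of `N` also acts as zero on the tensor power of `X` then the cohomology of `X` has
smaller or equal dimension. -/
theorem dm_le_of_zact [CharZero F] (hR : R.Conservative) {X N : T}
    (h : ∀ (n : ℕ) (z : Equiv.Perm (Fin (n + 1)) → ℤ), zact N n z = 0 → zact X n z = 0) :
    R.dm X ≤ R.dm N := by
  by_contra hlt
  push Not at hlt
  obtain ⟨n, hn⟩ := St.comb _ _ hlt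
  obtain ⟨e, s, hs, hsc, he⟩ := R.exists_basis N n
  obtain ⟨e', s', hs', hsc', he'⟩ := R.exists_basis X n
  obtain ⟨z, hz, f, g, hfg⟩ := hn s s' hs hsc hs' hsc'
  have h1 : R.tmap (zact N n z) = 0 := by
    refine e.ext fun f => ?_
    rw [zact, tmap_sum, LinearMap.sum_apply, LinearMap.zero_apply]
    simp only [tmap_zsmul, LinearMap.smul_apply, he, smul_smul]
    apply e.repr.injective
    ext g
    rw [map_zero, map_sum, Finsupp.finsetSum_apply, Finsupp.zero_apply]
    have h2 := congrArg (fun t : ℤ => (t : F)) (hz f g)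
    simp only [Int.cast_sum, Int.cast_zero] at h2
    refine Eq.trans (Finset.sum_congr rfl fun σ _ => ?_) h2
    rw [map_zsmul, Finsupp.smul_apply, Module.Basis.repr_self]
    by_cases hfg : f ∘ σ = g
    · rw [if_pos hfg, hfg, Finsupp.single_eq_same, ← Int.cast_smul_eq_zsmul F, smul_eq_mul, mul_one]
    · rw [if_neg hfg, Finsupp.single_eq_of_ne (Ne.symm hfg)]
      simp
  have h3 := h n z (R.zact_eq_zero hR N n z h1)
  have h4 : R.tmap (zact X n z) (e' f) = 0 := by
    rw [h3, tmap_zero, LinearMap.zero_apply]
  rw [zact, tmap_sum, LinearMap.sum_apply] at h4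
  simp only [tmap_zsmul, LinearMap.smul_apply, he', smul_smul] at h4
  have h5 := congrArg (fun t => e'.repr t g) h4
  simp only [map_zero, map_sum, Finsupp.finsetSum_apply, Finsupp.zero_apply] at h5
  apply hfg
  have h6 : ((∑ σ : Equiv.Perm (Fin (n + 1)), if f ∘ σ = g then z σ * s' f σ else 0 : ℤ) : F)
      = 0 := by
    rw [Int.cast_sum]
    refine Eq.trans (Finset.sum_congr rfl fun σ _ => ?_) h5
    rw [map_zsmul, Finsupp.smul_apply, Module.Basis.repr_self]
    by_cases hfg : f ∘ σ = g
    · rw [if_pos hfg, hfg, Finsupp.single_eq_same, ← Int.cast_smul_eq_zsmul F, smul_eq_mul, mul_one]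
    · rw [if_neg hfg, Finsupp.single_eq_of_ne (Ne.symm hfg)]
      simp
  exact_mod_cast h6

end Realization

end Pool.Agent.Lib.MotT
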