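import Pool.Agent.Lib.MP_6d0ce9_ag.St.Tr
import Pool.Agent.Lib.MP_6d0ce9_ag.St.Sch

/-!
# The dimensions of the subquotients in different levels add up
-/

set_option linter.unusedSectionVars false

universe w v u

open CategoryTheory Category Limits MonoidalCategory Pretriangulated Triangulated

namespace Pool.Agent.Lib.MotT

/-- comparison of growth -/
lemma le_of_pow_le (D m b : ℕ)
    (h : ∀ r : ℕ, D ^ (2 ^ r) ≤ (2 * (2 ^ r * b) + 1) * m ^ (2 ^ r)) : D ≤ m := by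
  by_contra hlt
  push Not at hlt
  have hD : (0 : ℝ) < D := by exact_mod_cast (Nat.zero_le m).trans_lt hlt
  set q : ℝ := (m : ℝ) / D with hq
  have hq0 : 0 ≤ q := by positivity
  have hq1 : q < 1 := by
    rw [hq, div_lt_one hD]
    exact_mod_cast hlt
  have h1 : Filter.Tendsto (fun n : ℕ => (2 * b + 1 : ℝ) * ((n : ℝ) * q ^ n) + q ^ n)
      Filter.atTop (nhds ((2 * b + 1 : ℝ) * 0 + 0)) :=
    ((tendsto_self_mul_const_pow_of_lt_one hq0 hq1).const_mul _).add
      (tendsto_pow_atTop_nhds_zero_of_lt_one hq0 hq1)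
  rw [mul_zero, add_zero] at h1
  have h2 := (h1.eventually (gt_mem_nhds (show (0 : ℝ) < 1 by norm_num)))
  rw [Filter.eventually_atTop] at h2
  obtain ⟨n, hn⟩ := h2
  have h3 := hn (2 ^ n) (Nat.lt_two_pow_self).le
  have h4 := h n
  have h5 : (D : ℝ) ^ (2 ^ n) ≤ (2 * (2 ^ n * b) + 1) * (m : ℝ) ^ (2 ^ n) := by
    exact_mod_cast h4
  have h6 : (1 : ℝ) ≤ (2 * (2 ^ n * b) + 1) * q ^ (2 ^ n) := by
    rw [hq, div_pow, ← mul_div_assoc, le_div_iff₀ (by positivity), one_mul]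
    exact h5
  have h7 : (1 : ℝ) ≤ 2 ^ n := one_le_pow₀ (by norm_num)
  have h8 : (0 : ℝ) ≤ q ^ (2 ^ n) := by positivity
  have h9 : ((2 ^ n : ℕ) : ℝ) = 2 ^ n := by push_cast; ring
  rw [h9] at h3
  nlinarith [mul_nonneg (by positivity : (0 : ℝ) ≤ 2 ^ n) h8]

section

variable {T : Type u} [Category.{v} T] [Preadditive T] [HasZeroObject T] [HasShift T ℤ]
  [∀ n : ℤ, (shiftFunctor T n).Additive] [Pretriangulated T] [MonoidalCategory T]
  [SymmetricCategory T] [∀ X : T, (tensorLeft X).CommShift ℤ]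
  [∀ X : T, (tensorLeft X).IsTriangulated]

/-- A family of subquotients, one in each level, zero in levels outside `[-b, b]`. -/
def Fam (t : TStructure T) (N : T) (b : ℕ) (X : ℤ → T) : Prop :=
  (∀ j, Nonempty (SubData t j (X j) N)) ∧ ∀ j : ℤ, (b : ℤ) < |j| → IsZero (X j)

/-- iterated tensor squares -/
def tsq (N : T) : ℕ → T
  | 0 => N
  | r + 1 => tsq N r ⊗ tsq N r

open scoped ZeroObject in
lemma zero_tensorHom {X Y X' Y' : T} (g : X' ⟶ Y') : (0 : X ⟶ Y) ⊗ₘ g = 0 := by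
  have h : (0 : X ⟶ Y) ▷ X' = 0 := by
    have h1 : (0 : X ⟶ Y) = (0 : X ⟶ (0 : T)) ≫ (0 : (0 : T) ⟶ Y) := by simp
    rw [h1, comp_whiskerRight,
      (isZero_tensor_right X' (isZero_zero T)).eq_of_src ((0 : (0 : T) ⟶ Y) ▷ X') 0, comp_zero]
  rw [MonoidalCategory.tensorHom_def, h, zero_comp]

open scoped ZeroObject in
lemma tensorHom_zero {X Y X' Y' : T} (g : X' ⟶ Y') : g ⊗ₘ (0 : X ⟶ Y) = 0 := by
  have h : Y' ◁ (0 : X ⟶ Y) = 0 := by
    have h1 : (0 : X ⟶ Y) = (0 : X ⟶ (0 : T)) ≫ (0 : (0 : T) ⟶ Y) := by simp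
    rw [h1, MonoidalCategory.whiskerLeft_comp,
      (isZero_tensor_left Y' (isZero_zero T)).eq_of_src (Y' ◁ (0 : (0 : T) ⟶ Y)) 0, comp_zero]
  rw [MonoidalCategory.tensorHom_def, h, comp_zero]

variable {t : TStructure T}

lemma isZero_biproduct {I : Type} [Finite I] {X : I → T} (h : ∀ i, IsZero (X i)) :
    IsZero (⨁ X) := by
  rw [IsZero.iff_id_eq_zero]
  ext i
  exact (h i).eq_of_tgt _ _

/-- The tensor square of a family. -/
lemma Fam.exists_sq (ht : TensorCompatible t) {N : T} {b : ℕ} {X : ℤ → T}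
    (h : Fam t N b X) : Fam t (N ⊗ N) (2 * b) (fun l => ⨁ fun i : ↥(Finset.Icc (-(b : ℤ)) b) =>
      X i ⊗ X (l - i)) := by
  constructor
  · intro l
    have D := h.1
    change Nonempty (SubData t l (⨁ fun i : ↥(Finset.Icc (-(b : ℤ)) b) => X i ⊗ X (l - i))
      (N ⊗ N))
    refine SubData.biproduct (fun i : ↥(Finset.Icc (-(b : ℤ)) b) =>
      (D (i : ℤ)).some.tensor ht (show (i : ℤ) + (l - i) = l by ring)
      (D (l - (i : ℤ))).some) ?_
    intro i k hik
    change ((D (i : ℤ)).some.α ⊗ₘ (D (l - (i : ℤ))).some.α) ≫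
      ((D (k : ℤ)).some.β ⊗ₘ (D (l - (k : ℤ))).some.β) = 0
    rw [tensorHom_comp_tensorHom]
    rcases lt_or_gt_of_ne (fun h : (i : ℤ) = k => hik (Subtype.ext h)) with h1 | h1
    · have h2 : (D (i : ℤ)).some.α ≫ (D (k : ℤ)).some.β = 0 :=
        t.zero_of_isLE_of_isGE _ (i : ℤ) (k : ℤ) h1 (D (i : ℤ)).some.hA (D (k : ℤ)).some.hB
      rw [h2, zero_tensorHom]
    · have h2 : (D (l - (i : ℤ))).some.α ≫ (D (l - (k : ℤ))).some.β = 0 :=
        t.zero_of_isLE_of_isGE _ (l - (i : ℤ)) (l - (k : ℤ)) (by lia)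
          (D (l - (i : ℤ))).some.hA (D (l - (k : ℤ))).some.hB
      rw [h2, tensorHom_zero]
  · intro l hl
    refine isZero_biproduct fun i => isZero_tensor_left _ (h.2 _ ?_)
    have hi := Finset.mem_Icc.1 i.2
    have h1 : |(i : ℤ)| ≤ b := abs_le.2 hi
    push_cast at hl
    have h2 : |l| ≤ |l - (i : ℤ)| + |(i : ℤ)| := by
      have := abs_add_le (l - (i : ℤ)) i
      rwa [sub_add_cancel] at this
    lia

end

namespace Realization

variable {T : Type u} [Category.{v} T] [Preadditive T] [HasZeroObject T] [HasShift T ℤ]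
  [∀ n : ℤ, (shiftFunctor T n).Additive] [Pretriangulated T] [MonoidalCategory T]
  [SymmetricCategory T] [∀ X : T, (tensorLeft X).CommShift ℤ]
  [∀ X : T, (tensorLeft X).IsTriangulated] {F : Type w} [Field F] {R : Realization T F}
  {t : TStructure T}

/-- the total dimension of a family -/
noncomputable def fdim (R : Realization T F) (b : ℕ) (X : ℤ → T) : ℕ :=
  ∑ j ∈ Finset.Icc (-(b : ℤ)) b, R.dm (X j)

lemma dm_of_isZero {X : T} (hX : IsZero X) : R.dm X = 0 :=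
  (R.dm_eq_zero_iff X).2 fun i => R.van_of_isZero hX i

lemma fdim_sq {b : ℕ} {X : ℤ → T} (h : ∀ j : ℤ, (b : ℤ) < |j| → IsZero (X j)) :
    R.fdim (2 * b) (fun l => ⨁ fun i : ↥(Finset.Icc (-(b : ℤ)) b) => X i ⊗ X (l - i)) =
      R.fdim b X ^ 2 := by
  have h1 : ∀ l : ℤ, R.dm (⨁ fun i : ↥(Finset.Icc (-(b : ℤ)) b) => X i ⊗ X (l - i)) =
      ∑ i ∈ Finset.Icc (-(b : ℤ)) b, R.dm (X i) * R.dm (X (l - i)) := by
    intro l
    rw [dm_biproduct, finsum_eq_sum_of_fintype,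
      Finset.sum_coe_sort (Finset.Icc (-(b : ℤ)) b) (fun i => R.dm (X i ⊗ X (l - i)))]
    exact Finset.sum_congr rfl fun i _ => R.dm_tensor _ _
  simp only [fdim, h1]
  rw [Finset.sum_comm, sq, Finset.sum_mul]
  refine Finset.sum_congr rfl fun i hi => ?_
  rw [← Finset.mul_sum]
  congr 1
  have hi' := Finset.mem_Icc.1 hi
  symm
  refine Finset.sum_bij_ne_zero (fun j _ _ => j + i) ?_ ?_ ?_ ?_
  · intro j hj _
    have hj' := Finset.mem_Icc.1 hj
    rw [Finset.mem_Icc]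
    push_cast
    constructor <;> lia
  · intro j _ _ k _ _ hjk
    exact add_right_cancel hjk
  · intro l hl hl0
    refine ⟨l - i, ?_, hl0, by ring⟩
    by_contra hcon
    apply hl0
    apply dm_of_isZero
    apply h
    by_contra hlt
    push Not at hlt
    exact hcon (Finset.mem_Icc.2 (abs_le.1 hlt))
  · intro j _ _
    rw [add_sub_cancel_right]

lemma dm_tsq (N : T) (r : ℕ) : R.dm (tsq N r) = R.dm N ^ (2 ^ r) := by
  induction r with
  | zero => simp [tsq]
  | succ r ih => rw [tsq, dm_tensor, ih, ← pow_add, ← two_mul, pow_succ']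

lemma exists_fam_tsq (ht : TensorCompatible t) {N : T} {b : ℕ} {X : ℤ → T}
    (h : Fam t N b X) (r : ℕ) : ∃ Y : ℤ → T, Fam t (tsq N r) (2 ^ r * b) Y ∧
      R.fdim (2 ^ r * b) Y = R.fdim b X ^ (2 ^ r) := by
  induction r with
  | zero => exact ⟨X, by simpa [tsq] using h, by simp⟩
  | succ r ih =>
    obtain ⟨Y, hY, hd⟩ := ih
    have h1 : 2 ^ (r + 1) * b = 2 * (2 ^ r * b) := by rw [pow_succ']; ring
    refine ⟨_, h1 ▸ hY.exists_sq ht, ?_⟩
    rw [h1, fdim_sq hY.2, hd, ← pow_mul, ← pow_succ]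

/-- The dimension of a subquotient is at most the dimension of the object. -/
lemma dm_le_of_sub [CharZero F] (ht : TensorCompatible t) (hcons : R.Conservative) {j : ℤ}
    {X N : T} (D : SubData t j X N) : R.dm X ≤ R.dm N :=
  R.dm_le_of_zact hcons fun n z hz => D.zact_eq_zero ht n z hz

/-- The dimensions of the members of a family of subquotients add up. -/
theorem fdim_le [CharZero F] (ht : TensorCompatible t) (hcons : R.Conservative) {N : T}
    {b : ℕ} {X : ℤ → T} (h : Fam t N b X) : R.fdim b X ≤ R.dm N := by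
  refine le_of_pow_le _ _ b fun r => ?_
  obtain ⟨Y, hY, hd⟩ := exists_fam_tsq (R := R) ht h r
  rw [← hd, ← dm_tsq]
  calc R.fdim (2 ^ r * b) Y ≤ ∑ j ∈ Finset.Icc (-((2 ^ r * b : ℕ) : ℤ)) ((2 ^ r * b : ℕ) : ℤ),
        R.dm (tsq N r) := Finset.sum_le_sum fun j _ => dm_le_of_sub ht hcons (hY.1 j).some
    _ = (2 * (2 ^ r * b) + 1) * R.dm (tsq N r) := by
      rw [Finset.sum_const, smul_eq_mul, Int.card_Icc]
      congr 1
      lia

end Realization

end Pool.Agent.Lib.MotT
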