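import Pool.Agent.Lib.MP_6d0ce9_ag.Unit
import Pool.Agent.Lib.MP_6d0ce9_ag.St.Act

/-!
# Subquotients of the cohomology objects of a t-structure
-/

set_option linter.unusedSectionVars false

universe w v u

open CategoryTheory Category Limits MonoidalCategory Pretriangulated Triangulated

namespace Pool.Agent.Lib.MotT

section

variable {T : Type u} [Category.{v} T] [Preadditive T] [HasZeroObject T] [HasShift T ℤ]
  [∀ n : ℤ, (shiftFunctor T n).Additive] [Pretriangulated T] (t : TStructure T)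

/-- `f` induces an injection on morphisms to objects of `D^{≥ j}`. -/
def EpiAt (j : ℤ) {X Y : T} (f : X ⟶ Y) : Prop :=
  ∀ (Z : T), t.IsGE Z j → ∀ g : Y ⟶ Z, f ≫ g = 0 → g = 0

/-- `f` induces an injection on morphisms from objects of `D^{≤ j}`. -/
def MonoAt (j : ℤ) {X Y : T} (f : X ⟶ Y) : Prop :=
  ∀ (Z : T), t.IsLE Z j → ∀ g : Z ⟶ X, g ≫ f = 0 → g = 0

variable {t}

lemma EpiAt.comp {j : ℤ} {X Y Z : T} {f : X ⟶ Y} {g : Y ⟶ Z} (hf : EpiAt t j f)
    (hg : EpiAt t j g) : EpiAt t j (f ≫ g) := by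
  intro W hW h hh
  exact hg W hW h (hf W hW _ (by rw [← assoc, hh]))

lemma MonoAt.comp {j : ℤ} {X Y Z : T} {f : X ⟶ Y} {g : Y ⟶ Z} (hf : MonoAt t j f)
    (hg : MonoAt t j g) : MonoAt t j (f ≫ g) := by
  intro W hW h hh
  exact hf W hW h (hg W hW _ (by rw [assoc, hh]))

lemma EpiAt.of_iso {j : ℤ} {X Y : T} (f : X ⟶ Y) [IsIso f] : EpiAt t j f := by
  intro W hW h hh
  exact (cancel_epi f).1 (hh.trans comp_zero.symm)

lemma MonoAt.of_iso {j : ℤ} {X Y : T} (f : X ⟶ Y) [IsIso f] : MonoAt t j f := by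
  intro W hW h hh
  exact (cancel_mono f).1 (hh.trans zero_comp.symm)

/-- If the cone is in `D^{≤ j - 1}` the morphism is an epimorphism at level `j`. -/
lemma epiAt_of_cone {j : ℤ} {X Y C : T} {f : X ⟶ Y} {v : Y ⟶ C} {w : C ⟶ X⟦(1 : ℤ)⟧}
    (hT : Triangle.mk f v w ∈ distTriang T) (hC : t.IsLE C (j - 1)) : EpiAt t j f := by
  intro Z hZ g hg
  obtain ⟨s, hs⟩ : ∃ s : C ⟶ Z, g = v ≫ s := Triangle.yoneda_exact₂ _ hT g hg
  rw [hs, t.zero_of_isLE_of_isGE s (j - 1) j (by lia) hC hZ, comp_zero]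

/-- If the cone is in `D^{≥ j}` the morphism is a monomorphism at level `j`. -/
lemma monoAt_of_cone {j : ℤ} {X Y C : T} {f : X ⟶ Y} {v : Y ⟶ C} {w : C ⟶ X⟦(1 : ℤ)⟧}
    (hT : Triangle.mk f v w ∈ distTriang T) (hC : t.IsGE C j) : MonoAt t j f := by
  intro Z hZ g hg
  obtain ⟨s, hs⟩ := Triangle.coyoneda_exact₂ _ (inv_rot_of_distTriang _ hT) g hg
  have h1 : s = 0 := by
    have := t.isGE_shift C j (-1) (j + 1) (by lia)
    exact t.zero_of_isLE_of_isGE s j (j + 1) (by lia) hZ this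
  rw [hs, h1, zero_comp]
  rfl

/-- The cone of an epimorphism at level `j` from an object of `D^{≤ j}` is in
`D^{≤ j - 1}`. -/
lemma EpiAt.cone {j : ℤ} {X Y C : T} {f : X ⟶ Y} {v : Y ⟶ C} {w : C ⟶ X⟦(1 : ℤ)⟧}
    (hf : EpiAt t j f) (hT : Triangle.mk f v w ∈ distTriang T) (hX : t.IsLE X j) :
    t.IsLE C (j - 1) := by
  apply isLE_of_orth
  intro B hB g
  have hB' : t.IsGE B j := by rwa [sub_add_cancel] at hB
  have h1 : v ≫ g = 0 := by
    refine hf B hB' _ ?_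
    have : f ≫ v = 0 := comp_distTriang_mor_zero₁₂ _ hT
    rw [← assoc, this, zero_comp]
  obtain ⟨s, hs⟩ : ∃ s : X⟦(1 : ℤ)⟧ ⟶ B, g = w ≫ s := Triangle.yoneda_exact₃ _ hT g h1
  have h2 := t.isLE_shift X j 1 (j - 1) (by lia)
  rw [hs, t.zero_of_isLE_of_isGE s (j - 1) j (by lia) h2 hB', comp_zero]

lemma MonoAt.shift_one {j : ℤ} {X Y : T} {f : X ⟶ Y} (hf : MonoAt t j f) :
    MonoAt t (j - 1) (f⟦(1 : ℤ)⟧') := by
  intro Z hZ g hg
  have h1 : g⟦(-1 : ℤ)⟧' ≫ (shiftFunctorCompIsoId T (1 : ℤ) (-1) (by lia)).hom.app X = 0 := by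
    refine hf _ (t.isLE_shift Z (j - 1) (-1) j (by lia)) _ ?_
    have h2 := (shiftFunctorCompIsoId T (1 : ℤ) (-1) (by lia)).hom.naturality f
    rw [assoc, ← Functor.id_map f, ← h2]
    change g⟦(-1 : ℤ)⟧' ≫ (f⟦(1 : ℤ)⟧')⟦(-1 : ℤ)⟧' ≫ _ = 0
    rw [← assoc, ← Functor.map_comp, hg, Functor.map_zero, zero_comp]
  have h3 : g⟦(-1 : ℤ)⟧' = 0 := by
    rw [← cancel_mono ((shiftFunctorCompIsoId T (1 : ℤ) (-1) (by lia)).hom.app X), h1, zero_comp]
  exact (shiftFunctor T (-1 : ℤ)).map_injective (h3.trans (Functor.map_zero _ _ _).symm)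

/-- The cone of a monomorphism at level `j` to an object of `D^{≥ j}` is in `D^{≥ j}`. -/
lemma MonoAt.cone {j : ℤ} {X Y C : T} {f : X ⟶ Y} {v : Y ⟶ C} {w : C ⟶ X⟦(1 : ℤ)⟧}
    (hf : MonoAt t j f) (hT : Triangle.mk f v w ∈ distTriang T) (hY : t.IsGE Y j) :
    t.IsGE C j := by
  apply isGE_of_orth
  intro A hA g
  have h1 : g ≫ w = 0 := by
    refine hf.shift_one A hA _ ?_
    have : w ≫ f⟦(1 : ℤ)⟧' = 0 := comp_distTriang_mor_zero₃₁ _ hT
    rw [assoc, this, comp_zero]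
  obtain ⟨s, hs⟩ : ∃ s : A ⟶ Y, g = s ≫ v := Triangle.coyoneda_exact₃ _ hT g h1
  rw [hs, t.zero_of_isLE_of_isGE s (j - 1) j (by lia) hA hY, zero_comp]

end

section Tens

variable {T : Type u} [Category.{v} T] [Preadditive T] [HasZeroObject T] [HasShift T ℤ]
  [∀ n : ℤ, (shiftFunctor T n).Additive] [Pretriangulated T] [MonoidalCategory T]
  [SymmetricCategory T] [∀ X : T, (tensorLeft X).CommShift ℤ]
  [∀ X : T, (tensorLeft X).IsTriangulated] {t : TStructure T}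

lemma EpiAt.whiskerLeft (ht : TensorCompatible t) {j k : ℤ} {X Y W : T} {f : X ⟶ Y}
    (hf : EpiAt t j f) (hX : t.IsLE X j) (hW : t.IsLE W k) : EpiAt t (k + j) (W ◁ f) := by
  obtain ⟨C, v, w, hT⟩ := distinguished_cocone_triangle f
  obtain ⟨δ, hT'⟩ := tri_left W _ hT
  refine epiAt_of_cone hT' ?_
  change t.IsLE (W ⊗ C) (k + j - 1)
  have := le_tensor ht hW (hf.cone hT hX)
  rwa [show k + (j - 1) = k + j - 1 by ring] at this

lemma MonoAt.whiskerLeft (ht : TensorCompatible t) {j k : ℤ} {X Y W : T} {f : X ⟶ Y}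
    (hf : MonoAt t j f) (hY : t.IsGE Y j) (hW : t.IsGE W k) : MonoAt t (k + j) (W ◁ f) := by
  obtain ⟨C, v, w, hT⟩ := distinguished_cocone_triangle f
  obtain ⟨δ, hT'⟩ := tri_left W _ hT
  refine monoAt_of_cone hT' ?_
  exact ge_tensor ht hW (hf.cone hT hY)

lemma EpiAt.whiskerRight (ht : TensorCompatible t) {j k : ℤ} {X Y W : T} {f : X ⟶ Y}
    (hf : EpiAt t j f) (hX : t.IsLE X j) (hW : t.IsLE W k) : EpiAt t (j + k) (f ▷ W) := by
  have h := ((EpiAt.of_iso (t := t) (j := k + j) (β_ X W).hom).comp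
    (hf.whiskerLeft ht hX hW)).comp (EpiAt.of_iso (β_ W Y).hom)
  have h1 : ((β_ X W).hom ≫ W ◁ f) ≫ (β_ W Y).hom = f ▷ W := by simp
  rw [h1] at h
  rwa [add_comm j k]

lemma MonoAt.whiskerRight (ht : TensorCompatible t) {j k : ℤ} {X Y W : T} {f : X ⟶ Y}
    (hf : MonoAt t j f) (hY : t.IsGE Y j) (hW : t.IsGE W k) : MonoAt t (j + k) (f ▷ W) := by
  have h := ((MonoAt.of_iso (t := t) (j := k + j) (β_ X W).hom).comp
    (hf.whiskerLeft ht hY hW)).comp (MonoAt.of_iso (β_ W Y).hom)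
  have h1 : ((β_ X W).hom ≫ W ◁ f) ≫ (β_ W Y).hom = f ▷ W := by simp
  rw [h1] at h
  rwa [add_comm j k]

/-- tensor product of two epimorphisms. -/
lemma EpiAt.tensor (ht : TensorCompatible t) {j k : ℤ} {X Y X' Y' : T} {f : X ⟶ Y}
    {g : X' ⟶ Y'} (hf : EpiAt t j f) (hg : EpiAt t k g) (hX : t.IsLE X j) (hY : t.IsLE Y j)
    (hX' : t.IsLE X' k) : EpiAt t (j + k) (f ⊗ₘ g) := by
  rw [MonoidalCategory.tensorHom_def]
  exact (hf.whiskerRight ht hX hX').comp (hg.whiskerLeft ht hX' hY)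

/-- tensor product of two monomorphisms. -/
lemma MonoAt.tensor (ht : TensorCompatible t) {j k : ℤ} {X Y X' Y' : T} {f : X ⟶ Y}
    {g : X' ⟶ Y'} (hf : MonoAt t j f) (hg : MonoAt t k g) (hY : t.IsGE Y j)
    (hX' : t.IsGE X' k) (hY' : t.IsGE Y' k) : MonoAt t (j + k) (f ⊗ₘ g) := by
  rw [MonoidalCategory.tensorHom_def]
  exact (hf.whiskerRight ht hY hX').comp (hg.whiskerLeft ht hY' hY)

/-- `X` is a subquotient of the cohomology object of degree `j` of `N`. -/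
structure SubData (t : TStructure T) (j : ℤ) (X N : T) where
  A : T
  B : T
  α : A ⟶ N
  β : N ⟶ B
  ε : A ⟶ X
  μ : X ⟶ B
  hA : t.IsLE A j
  hB : t.IsGE B j
  hX1 : t.IsLE X j
  hX2 : t.IsGE X j
  fac : α ≫ β = ε ≫ μ
  hε : EpiAt t j ε
  hμ : MonoAt t j μ

/-- tensor products of subquotients. -/
noncomputable def SubData.tensor (ht : TensorCompatible t) {j k l : ℤ} (h : j + k = l)
    {X N X' N' : T} (D : SubData t j X N) (D' : SubData t k X' N') :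
    SubData t l (X ⊗ X') (N ⊗ N') where
  A := D.A ⊗ D'.A
  B := D.B ⊗ D'.B
  α := D.α ⊗ₘ D'.α
  β := D.β ⊗ₘ D'.β
  ε := D.ε ⊗ₘ D'.ε
  μ := D.μ ⊗ₘ D'.μ
  hA := h ▸ le_tensor ht D.hA D'.hA
  hB := h ▸ ge_tensor ht D.hB D'.hB
  hX1 := h ▸ le_tensor ht D.hX1 D'.hX1
  hX2 := h ▸ ge_tensor ht D.hX2 D'.hX2
  fac := by rw [tensorHom_comp_tensorHom, tensorHom_comp_tensorHom, D.fac, D'.fac]
  hε := h ▸ D.hε.tensor ht D'.hε D.hA D.hX1 D'.hA
  hμ := h ▸ D.hμ.tensor ht D'.hμ D.hB D'.hX2 D'.hB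

lemma le_tpow (ht : TensorCompatible t) {j : ℤ} {X : T} (hX : t.IsLE X j) (n : ℕ) :
    t.IsLE (tpow X n) (((n : ℤ) + 1) * j) := by
  induction n with
  | zero =>
    rw [show (((0 : ℕ) : ℤ) + 1) * j = j by simp]
    exact hX
  | succ n ih =>
    have h := le_tensor ht ih hX
    rwa [show ((n : ℤ) + 1) * j + j = (((n + 1 : ℕ) : ℤ) + 1) * j by push_cast; ring] at h

lemma ge_tpow (ht : TensorCompatible t) {j : ℤ} {X : T} (hX : t.IsGE X j) (n : ℕ) :
    t.IsGE (tpow X n) (((n : ℤ) + 1) * j) := by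
  induction n with
  | zero =>
    rw [show (((0 : ℕ) : ℤ) + 1) * j = j by simp]
    exact hX
  | succ n ih =>
    have h := ge_tensor ht ih hX
    rwa [show ((n : ℤ) + 1) * j + j = (((n + 1 : ℕ) : ℤ) + 1) * j by push_cast; ring] at h

lemma EpiAt.tpow (ht : TensorCompatible t) {j : ℤ} {X Y : T} {f : X ⟶ Y} (hf : EpiAt t j f)
    (hX : t.IsLE X j) (hY : t.IsLE Y j) (n : ℕ) :
    EpiAt t (((n : ℤ) + 1) * j) (tpowMap f n) := by
  induction n with
  | zero =>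
    rw [show (((0 : ℕ) : ℤ) + 1) * j = j by simp]
    exact hf
  | succ n ih =>
    have h := ih.tensor ht hf (le_tpow ht hX n) (le_tpow ht hY n) hX
    rwa [show ((n : ℤ) + 1) * j + j = (((n + 1 : ℕ) : ℤ) + 1) * j by push_cast; ring] at h

lemma MonoAt.tpow (ht : TensorCompatible t) {j : ℤ} {X Y : T} {f : X ⟶ Y} (hf : MonoAt t j f)
    (hX : t.IsGE X j) (hY : t.IsGE Y j) (n : ℕ) :
    MonoAt t (((n : ℤ) + 1) * j) (tpowMap f n) := by
  induction n with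
  | zero =>
    rw [show (((0 : ℕ) : ℤ) + 1) * j = j by simp]
    exact hf
  | succ n ih =>
    have h := ih.tensor ht hf (ge_tpow ht hY n) hX hY
    rwa [show ((n : ℤ) + 1) * j + j = (((n + 1 : ℕ) : ℤ) + 1) * j by push_cast; ring] at h

lemma tpowMap_comp' {X Y Z : T} (f : X ⟶ Y) (g : Y ⟶ Z) (n : ℕ) :
    tpowMap (f ≫ g) n = tpowMap f n ≫ tpowMap g n := by
  induction n with
  | zero => rfl
  | succ n ih =>
    change tpowMap (f ≫ g) n ⊗ₘ (f ≫ g) = (tpowMap f n ⊗ₘ f) ≫ (tpowMap g n ⊗ₘ g)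
    rw [ih, tensorHom_comp_tensorHom]

/-- If an element of the group ring of the symmetric group acts as zero on the tensor power of
`N` then it acts as zero on the tensor powers of the subquotients of its cohomology objects. -/
theorem SubData.zact_eq_zero (ht : TensorCompatible t) {j : ℤ} {X N : T}
    (D : SubData t j X N) (n : ℕ) (z : Equiv.Perm (Fin (n + 1)) → ℤ) (hz : zact N n z = 0) :
    zact X n z = 0 := by
  have h1 : tpowMap D.ε n ≫ zact X n z ≫ tpowMap D.μ n = 0 := by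
    calc tpowMap D.ε n ≫ zact X n z ≫ tpowMap D.μ n
        = (tpowMap D.ε n ≫ tpowMap D.μ n) ≫ zact D.B n z := by
          rw [assoc, zact_natural]
      _ = (tpowMap D.α n ≫ tpowMap D.β n) ≫ zact D.B n z := by
          rw [← tpowMap_comp', ← D.fac, tpowMap_comp']
      _ = tpowMap D.α n ≫ zact N n z ≫ tpowMap D.β n := by
          rw [assoc, zact_natural]
      _ = 0 := by rw [hz, zero_comp, comp_zero]
  have h2 : zact X n z ≫ tpowMap D.μ n = 0 :=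
    D.hε.tpow ht D.hA D.hX1 n _ (ge_tpow ht D.hB n) _ h1
  exact D.hμ.tpow ht D.hX2 D.hB n _ (le_tpow ht D.hX1 n) _ h2

end Tens

end Pool.Agent.Lib.MotT
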