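import Pool.Agent.Lib.MP_6d0ce9_ag.St.Cst

/-!
# Strictness
-/

set_option linter.unusedSectionVars false

universe w v u

open CategoryTheory Category Limits MonoidalCategory Pretriangulated Triangulated

namespace Pool.Agent.Lib.MotT

namespace Realization

variable {T : Type u} [Category.{v} T] [Preadditive T] [HasZeroObject T] [HasShift T ℤ]
  [∀ n : ℤ, (shiftFunctor T n).Additive] [Pretriangulated T] [IsTriangulated T]
  [MonoidalCategory T] [SymmetricCategory T] [∀ X : T, (tensorLeft X).CommShift ℤ]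
  [∀ X : T, (tensorLeft X).IsTriangulated] {F : Type w} [Field F] {R : Realization T F}
  {t : TStructure T}

variable (R t) in
/-- The class `x` in `H^m(M)` comes from an object of `D^{≤ a}`. -/
def Lev (a m : ℤ) (M : T) (x : R.Hm m M) : Prop :=
  ∃ (A : T) (f : A ⟶ M) (y : R.Hm m A), t.IsLE A a ∧ R.mp m f y = x

lemma lev_iff {a m : ℤ} {M A B : T} {f : A ⟶ M} {g : M ⟶ B} {δ : B ⟶ A⟦(1 : ℤ)⟧}
    (hT : Triangle.mk f g δ ∈ distTriang T) (hA : t.IsLE A a) (hB : t.IsGE B (a + 1))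
    (x : R.Hm m M) : R.Lev t a m M x ↔ R.mp m g x = 0 := by
  constructor
  · rintro ⟨A', f', y, hA', rfl⟩
    have h1 : f' ≫ g = 0 := t.zero_of_isLE_of_isGE _ a (a + 1) (by lia) hA' hB
    rw [← R.mp_comp_apply, h1, mp_zero, LinearMap.zero_apply]
  · intro h
    obtain ⟨y, hy⟩ := R.exact₂' hT m x h
    exact ⟨A, f, y, hA, hy⟩

lemma Lev.map {a m : ℤ} {M N : T} {x : R.Hm m M} (hx : R.Lev t a m M x) (f : M ⟶ N) :
    R.Lev t a m N (R.mp m f x) := by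
  obtain ⟨A, g, y, hA, rfl⟩ := hx
  exact ⟨A, g ≫ f, y, hA, by rw [mp_comp_apply]⟩

/-- A morphism which is injective on `H^m` is strictly compatible with the levels. -/
theorem strict [CharZero F] (hnd : Nondegenerate t) (ht : TensorCompatible t)
    (hrig : IsRigid T) (hcons : R.Conservative) {a m : ℤ} {M N : T} (f : M ⟶ N)
    (hf : ∀ x : R.Hm m M, R.mp m f x = 0 → x = 0) (x : R.Hm m M)
    (hx : R.Lev t a m N (R.mp m f x)) : R.Lev t a m M x := by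
  obtain ⟨AM, BM, iM, gM, δM, hTM, hAM, hBM⟩ := exists_trunc t M a (a + 1) rfl
  obtain ⟨AN, BN, iN, gN, δN, hTN, hAN, hBN⟩ := exists_trunc t N a (a + 1) rfl
  rw [lev_iff hTN hAN hBN] at hx
  rw [lev_iff hTM hAM hBM]
  -- the induced morphism of the truncations
  obtain ⟨f', hf'⟩ : ∃ f' : BM ⟶ BN, f ≫ gN = gM ≫ f' :=
    Triangle.yoneda_exact₂ _ hTM (f ≫ gN)
      (t.zero_of_isLE_of_isGE _ a (a + 1) (by lia) hAM hBN)
  obtain ⟨Kf, c, cd, hKf⟩ := distinguished_cocone_triangle₁ f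
  obtain ⟨Kg, b, bd, hKg⟩ := distinguished_cocone_triangle₁ (f ≫ gN)
  obtain ⟨K', k, kd, hK'⟩ := distinguished_cocone_triangle₁ f'
  have o1 := someOctahedron' rfl hKf hTN hKg
  have o2 := someOctahedron' hf'.symm hTM hK' hKg
  obtain ⟨C, v, w, hC⟩ := distinguished_cocone_triangle (o1.m₁ ≫ o2.m₃)
  have o3 := someOctahedron rfl o1.mem (rot_of_distTriang _ o2.mem) hC
  have hAM1 : t.IsLE (AM⟦(1 : ℤ)⟧) (a - 1) := t.isLE_shift AM a 1 (a - 1) (by lia)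
  have hCle : t.IsLE C a :=
    isLE_ext t o3.mem a hAN (t.isLE_of_le (AM⟦(1 : ℤ)⟧) (a - 1) a (by lia))
  have hKge : t.IsGE K' (a + 1) := isGE₁ t hK' (a + 1) hBM
    (t.isGE_of_ge BN (a + 1 - 1) (a + 1) (by lia))
  have hv : R.mp m v = 0 := (R.tmap_eq_zero_iff v).1
    (tmap_eq_zero_of_levels hnd ht hrig hcons hKge hCle v) m
  obtain ⟨κ, hκ⟩ : ∃ κ : R.Hm m Kg, R.mp m b κ = x := R.exact₂' hKg m x (by
    rw [R.mp_comp_apply, hx])
  obtain ⟨ζ, hζ⟩ : ∃ ζ : R.Hm m Kf, R.mp m (o1.m₁ ≫ o2.m₃) ζ = R.mp m o2.m₃ κ :=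
    R.exact₂' hC m _ (by rw [hv, LinearMap.zero_apply])
  have h1 : R.mp m c ζ = 0 := by
    apply hf
    have h2 : c ≫ f = 0 := comp_distTriang_mor_zero₁₂ _ hKf
    rw [← R.mp_comp_apply, h2, mp_zero, LinearMap.zero_apply]
  have h3 : o2.m₃ ≫ k = b ≫ gM := o2.comm₄
  have h4 : o1.m₁ ≫ b = c := o1.comm₁
  calc R.mp m gM x = R.mp m k (R.mp m o2.m₃ κ) := by
        rw [← hκ, ← R.mp_comp_apply, ← R.mp_comp_apply, h3]
    _ = R.mp m k (R.mp m (o1.m₁ ≫ o2.m₃) ζ) := by rw [hζ]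
    _ = R.mp m gM (R.mp m c ζ) := by
        rw [← R.mp_comp_apply, ← R.mp_comp_apply, assoc, h3, ← assoc, h4]
    _ = 0 := by rw [h1, map_zero]

/-- Truncation triangles give short exact sequences. -/
theorem trunc_injective [CharZero F] (hnd : Nondegenerate t) (ht : TensorCompatible t)
    (hrig : IsRigid T) (hcons : R.Conservative) {a : ℤ} (m : ℤ) {M A B : T} {f : A ⟶ M}
    {g : M ⟶ B} {δ : B ⟶ A⟦(1 : ℤ)⟧} (hT : Triangle.mk f g δ ∈ distTriang T)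
    (hA : t.IsLE A a) (hB : t.IsGE B (a + 1)) (x : R.Hm m A) (hx : R.mp m f x = 0) : x = 0 := by
  obtain ⟨y, hy⟩ := R.exact₂ (inv_rot_of_distTriang _ hT) m x hx
  have hB2 : t.IsGE (B⟦(-1 : ℤ)⟧) (a + 2) := t.isGE_shift B (a + 1) (-1) (a + 2) (by lia)
  have hB' : t.IsGE (B⟦(-1 : ℤ)⟧) (a + 1) :=
    t.isGE_of_ge (B⟦(-1 : ℤ)⟧) (a + 1) (a + 2) (by lia)
  have h1 := (R.tmap_eq_zero_iff _).1 (tmap_eq_zero_of_levels hnd ht hrig hcons hB' hA
    (Triangle.mk f g δ).invRotate.mor₁) m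
  have h2 : R.mp m (Triangle.mk f g δ).invRotate.mor₁ y = 0 := by
    have := LinearMap.congr_fun h1 y
    rwa [LinearMap.zero_apply] at this
  exact hy.symm.trans h2

end Realization

end Pool.Agent.Lib.MotT
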