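import Pool.Agent.Lib.MP_6d0ce9_ag.Alt

/-!
# Relations between the adjacent swaps of a tensor power
-/

set_option linter.unusedSectionVars false

universe v u

open CategoryTheory Category Limits MonoidalCategory

namespace Pool.Agent.Lib.MotT

variable {T : Type u} [Category.{v} T] [MonoidalCategory T] [SymmetricCategory T]

lemma sw_last (X : T) (n : ℕ) : swapAt X (n + 2) (n + 1) =
    (α_ (tpow X n) X X).hom ≫ (tpow X n ◁ (β_ X X).hom) ≫ (α_ (tpow X n) X X).inv :=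
  if_pos rfl

lemma sw_lt (X : T) (n j : ℕ) (hj : j ≠ n + 1) :
    swapAt X (n + 2) j = swapAt X (n + 1) j ▷ X :=
  if_neg hj

lemma sw_last_sq (P X : T) : ((α_ P X X).hom ≫ (P ◁ (β_ X X).hom) ≫ (α_ P X X).inv) ≫
    ((α_ P X X).hom ≫ (P ◁ (β_ X X).hom) ≫ (α_ P X X).inv) = 𝟙 _ := by
  simp only [assoc, Iso.inv_hom_id_assoc]
  rw [← MonoidalCategory.whiskerLeft_comp_assoc, SymmetricCategory.symmetry,
    MonoidalCategory.whiskerLeft_id, id_comp, Iso.hom_inv_id]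

lemma sw_wr_sq {P : T} (X : T) (f : P ⟶ P) (h : f ≫ f = 𝟙 P) :
    (f ▷ X) ≫ (f ▷ X) = 𝟙 (P ⊗ X) := by
  rw [← comp_whiskerRight, h, id_whiskerRight]

lemma sw_wr_comm {P : T} (X : T) (f g : P ⟶ P) (h : f ≫ g = g ≫ f) :
    (f ▷ X) ≫ (g ▷ X) = (g ▷ X) ≫ (f ▷ X) := by
  rw [← comp_whiskerRight, h, comp_whiskerRight]

lemma sw_wr_braid {P : T} (X : T) (f g : P ⟶ P) (h : f ≫ g ≫ f = g ≫ f ≫ g) :
    (f ▷ X) ≫ (g ▷ X) ≫ (f ▷ X) = (g ▷ X) ≫ (f ▷ X) ≫ (g ▷ X) := by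
  rw [← comp_whiskerRight, ← comp_whiskerRight, h, comp_whiskerRight, comp_whiskerRight]

lemma swapAt_sq (X : T) (n j : ℕ) (hj : j < n) :
    swapAt X n j ≫ swapAt X n j = 𝟙 (tpow X n) := by
  induction n with
  | zero => omega
  | succ n ih =>
    cases n with
    | zero => exact SymmetricCategory.symmetry X X
    | succ n =>
      by_cases h : j = n + 1
      · subst h
        exact (congrArg (fun f => f ≫ f) (sw_last X n)).trans
          (sw_last_sq (tpow X n) X)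
      · exact (congrArg (fun f => f ≫ f) (sw_lt X n j h)).trans
          (sw_wr_sq X _ (ih (by omega)))

/-- the last swap commutes with the endomorphisms of the first factor -/
lemma sw_last_comm {P X : T} (f : P ⟶ P) :
    ((f ▷ X) ▷ X) ≫ ((α_ P X X).hom ≫ (P ◁ (β_ X X).hom) ≫ (α_ P X X).inv) =
      ((α_ P X X).hom ≫ (P ◁ (β_ X X).hom) ≫ (α_ P X X).inv) ≫ ((f ▷ X) ▷ X) := by
  rw [associator_naturality_left_assoc, ← whisker_exchange_assoc, assoc, assoc,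
    associator_inv_naturality_left]

lemma swapAt_far (X : T) (n i j : ℕ) (hij : i + 2 ≤ j) (hj : j < n) :
    swapAt X n i ≫ swapAt X n j = swapAt X n j ≫ swapAt X n i := by
  induction n with
  | zero => omega
  | succ n ih =>
    obtain ⟨n, rfl⟩ : ∃ m, n = m + 2 := ⟨n - 2, by omega⟩
    by_cases h : j = n + 2
    · subst h
      have h1 : swapAt X (n + 3) i = (swapAt X (n + 1) i ▷ X) ▷ X := by
        rw [sw_lt X (n + 1) i (by omega), sw_lt X n i (by omega)]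
        rfl
      have h2 := sw_last_comm (X := X) (swapAt X (n + 1) i)
      refine (congrArg₂ (fun f g => f ≫ g) h1 (sw_last X (n + 1))).trans (h2.trans ?_)
      exact (congrArg₂ (fun f g => g ≫ f) h1 (sw_last X (n + 1))).symm
    · have h1 := ih (by omega)
      have h2 := sw_lt X (n + 1) j (by omega)
      have h3 := sw_lt X (n + 1) i (by omega)
      refine (congrArg₂ (fun f g => f ≫ g) h3 h2).trans ?_
      exact (sw_wr_comm X _ _ h1).trans (congrArg₂ (fun f g => g ≫ f) h3 h2).symm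

/-- the braid relation for three factors -/
lemma sw_braid_three (X : T) :
    ((β_ X X).hom ▷ X) ≫ ((α_ X X X).hom ≫ (X ◁ (β_ X X).hom) ≫ (α_ X X X).inv) ≫
      ((β_ X X).hom ▷ X) =
    ((α_ X X X).hom ≫ (X ◁ (β_ X X).hom) ≫ (α_ X X X).inv) ≫ ((β_ X X).hom ▷ X) ≫
      ((α_ X X X).hom ≫ (X ◁ (β_ X X).hom) ≫ (α_ X X X).inv) := by
  have h := BraidedCategory.yang_baxter X X X
  rw [← cancel_epi (α_ X X X).inv, ← cancel_mono (α_ X X X).hom]
  simp only [assoc, Iso.inv_hom_id, comp_id, Iso.inv_hom_id_assoc]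
  exact h

/-- the isomorphism `((P ⊗ X) ⊗ X) ⊗ X ≅ P ⊗ ((X ⊗ X) ⊗ X)` -/
def sw_jj (P X : T) : ((P ⊗ X) ⊗ X) ⊗ X ≅ P ⊗ ((X ⊗ X) ⊗ X) :=
  whiskerRightIso (α_ P X X) X ≪≫ α_ P (X ⊗ X) X

lemma sw_jj_first (P X : T) (b : X ⊗ X ⟶ X ⊗ X) :
    (((α_ P X X).hom ≫ (P ◁ b) ≫ (α_ P X X).inv) ▷ X) ≫ (sw_jj P X).hom =
      (sw_jj P X).hom ≫ (P ◁ (b ▷ X)) := by
  simp only [sw_jj, Iso.trans_hom, whiskerRightIso_hom]
  monoidal

lemma sw_jj_last (P X : T) (b : X ⊗ X ⟶ X ⊗ X) :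
    ((α_ (P ⊗ X) X X).hom ≫ ((P ⊗ X) ◁ b) ≫ (α_ (P ⊗ X) X X).inv) ≫ (sw_jj P X).hom =
      (sw_jj P X).hom ≫ (P ◁ ((α_ X X X).hom ≫ (X ◁ b) ≫ (α_ X X X).inv)) := by
  simp only [sw_jj, Iso.trans_hom, whiskerRightIso_hom]
  monoidal

lemma sw_braid_four (P X : T) :
    (((α_ P X X).hom ≫ (P ◁ (β_ X X).hom) ≫ (α_ P X X).inv) ▷ X) ≫
      ((α_ (P ⊗ X) X X).hom ≫ ((P ⊗ X) ◁ (β_ X X).hom) ≫ (α_ (P ⊗ X) X X).inv) ≫
      (((α_ P X X).hom ≫ (P ◁ (β_ X X).hom) ≫ (α_ P X X).inv) ▷ X) =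
    ((α_ (P ⊗ X) X X).hom ≫ ((P ⊗ X) ◁ (β_ X X).hom) ≫ (α_ (P ⊗ X) X X).inv) ≫
      (((α_ P X X).hom ≫ (P ◁ (β_ X X).hom) ≫ (α_ P X X).inv) ▷ X) ≫
      ((α_ (P ⊗ X) X X).hom ≫ ((P ⊗ X) ◁ (β_ X X).hom) ≫ (α_ (P ⊗ X) X X).inv) := by
  have h := congrArg (fun f => P ◁ f) (sw_braid_three X)
  have h1 := sw_jj_first P X (β_ X X).hom
  have h2 := sw_jj_last P X (β_ X X).hom
  rw [← cancel_mono (sw_jj P X).hom]
  generalize (((α_ P X X).hom ≫ (P ◁ (β_ X X).hom) ≫ (α_ P X X).inv) ▷ X) = a at h1 ⊢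
  generalize ((α_ (P ⊗ X) X X).hom ≫ ((P ⊗ X) ◁ (β_ X X).hom) ≫ (α_ (P ⊗ X) X X).inv) = b
    at h2 ⊢
  generalize (β_ X X).hom ▷ X = c at h h1
  generalize (α_ X X X).hom ≫ (X ◁ (β_ X X).hom) ≫ (α_ X X X).inv = d at h h2
  simp only [MonoidalCategory.whiskerLeft_comp] at h
  simp only [assoc]
  rw [h1, h2, reassoc_of% h2, reassoc_of% h1, reassoc_of% h1, reassoc_of% h2]
  exact congrArg (fun f => (sw_jj P X).hom ≫ f) h

lemma sw_braid (X : T) (n i : ℕ) (hi : i + 1 < n) :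
    swapAt X n i ≫ swapAt X n (i + 1) ≫ swapAt X n i =
      swapAt X n (i + 1) ≫ swapAt X n i ≫ swapAt X n (i + 1) := by
  induction n with
  | zero => omega
  | succ n ih =>
    obtain ⟨n, rfl⟩ : ∃ m, n = m + 1 := ⟨n - 1, by omega⟩
    by_cases h : i = n
    · subst h
      cases i with
      | zero =>
        have h1 : swapAt X 2 0 = (β_ X X).hom ▷ X := sw_lt X 0 0 (by omega)
        have h2 := sw_last X 0
        refine (congrArg₂ (fun f g => f ≫ g ≫ f) h1 h2).trans ?_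
        exact (sw_braid_three X).trans (congrArg₂ (fun f g => g ≫ f ≫ g) h1 h2).symm
      | succ i =>
        have h1 : swapAt X (i + 3) (i + 1) = ((α_ (tpow X i) X X).hom ≫
            (tpow X i ◁ (β_ X X).hom) ≫ (α_ (tpow X i) X X).inv) ▷ X :=
          (sw_lt X (i + 1) (i + 1) (by omega)).trans
            (congrArg (fun f => f ▷ X) (sw_last X i))
        have h2 := sw_last X (i + 1)
        refine (congrArg₂ (fun f g => f ≫ g ≫ f) h1 h2).trans ?_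
        exact (sw_braid_four (tpow X i) X).trans (congrArg₂ (fun f g => g ≫ f ≫ g) h1 h2).symm
    · have h1 := ih (by omega)
      have h2 := sw_lt X n (i + 1) (by omega)
      have h3 := sw_lt X n i (by omega)
      refine (congrArg₂ (fun f g => f ≫ g ≫ f) h3 h2).trans ?_
      exact (sw_wr_braid X _ _ h1).trans (congrArg₂ (fun f g => g ≫ f ≫ g) h3 h2).symm

lemma swapAt_braid (X : T) (n j : ℕ) (hj : j + 1 < n) :
    swapAt X n j ≫ swapAt X n (j + 1) ≫ swapAt X n j =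
      swapAt X n (j + 1) ≫ swapAt X n j ≫ swapAt X n (j + 1) :=
  sw_braid X n j hj

end Pool.Agent.Lib.MotT
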