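import Pool.Agent.Lib.MP_6d0ce9_ag.Real

/-!
# Total cohomology
-/

set_option linter.unusedSectionVars false

universe w v u

open CategoryTheory Category Limits MonoidalCategory Pretriangulated Triangulated

namespace Pool.Agent.Lib.MotT

namespace Realization

variable {T : Type u} [Category.{v} T] [Preadditive T] [HasZeroObject T] [HasShift T ℤ]
  [∀ n : ℤ, (shiftFunctor T n).Additive] [Pretriangulated T] [MonoidalCategory T]
  [SymmetricCategory T] {F : Type w} [Field F] (R : Realization T F)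

/-- The total cohomology `⊕ H^i(X)`. -/
abbrev Tot (X : T) : Type w := DirectSum ℤ (fun i => R.Hm i X)

/-- The map induced on the total cohomology. -/
noncomputable def tmap {X Y : T} (f : X ⟶ Y) : R.Tot X →ₗ[F] R.Tot Y :=
  DirectSum.toModule F ℤ _ fun i => (DirectSum.lof F ℤ (fun i => R.Hm i Y) i).comp (R.mp i f)

/-- The inclusion of `H^i(X)`. -/
noncomputable def inc (i : ℤ) (X : T) : R.Hm i X →ₗ[F] R.Tot X :=
  DirectSum.lof F ℤ (fun i => R.Hm i X) i

/-- The product on total cohomology. -/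
noncomputable def tcup (X Y : T) : R.Tot X →ₗ[F] R.Tot Y →ₗ[F] R.Tot (X ⊗ Y) :=
  DirectSum.toModule F ℤ _ fun i => LinearMap.flip (DirectSum.toModule F ℤ _ fun j =>
    LinearMap.flip ((R.cup (rfl : i + j = i + j) X Y).compr₂ (R.inc (i + j) (X ⊗ Y))))

lemma tmap_inc {X Y : T} (f : X ⟶ Y) (i : ℤ) (x : R.Hm i X) :
    R.tmap f (R.inc i X x) = R.inc i Y (R.mp i f x) := by
  rw [tmap, inc, inc, DirectSum.toModule_lof]
  rfl

lemma tot_ext {X : T} {V : Type*} [AddCommGroup V] [Module F V] {φ ψ : R.Tot X →ₗ[F] V}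
    (h : ∀ i x, φ (R.inc i X x) = ψ (R.inc i X x)) : φ = ψ := by
  refine DirectSum.linearMap_ext F fun i => ?_
  ext x
  exact h i x

lemma tcup_inc {X Y : T} (i j n : ℤ) (h : i + j = n) (x : R.Hm i X) (y : R.Hm j Y) :
    R.tcup X Y (R.inc i X x) (R.inc j Y y) = R.inc n (X ⊗ Y) (R.cup h X Y x y) := by
  subst h
  rw [tcup, inc, DirectSum.toModule_lof, LinearMap.flip_apply, inc, DirectSum.toModule_lof]
  rfl

lemma tmap_id (X : T) : R.tmap (𝟙 X) = LinearMap.id := by
  refine R.tot_ext fun i x => ?_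
  rw [tmap_inc, mp_id]
  rfl

lemma tmap_comp {X Y Z : T} (f : X ⟶ Y) (g : Y ⟶ Z) :
    R.tmap (f ≫ g) = (R.tmap g).comp (R.tmap f) := by
  refine R.tot_ext fun i x => ?_
  rw [tmap_inc, mp_comp_apply, LinearMap.comp_apply, tmap_inc, tmap_inc]

lemma tmap_comp_apply {X Y Z : T} (f : X ⟶ Y) (g : Y ⟶ Z) (x : R.Tot X) :
    R.tmap (f ≫ g) x = R.tmap g (R.tmap f x) := by
  rw [tmap_comp]; rfl

lemma tmap_zero (X Y : T) : R.tmap (0 : X ⟶ Y) = 0 := by
  refine R.tot_ext fun i x => ?_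
  rw [tmap_inc, mp_zero]
  simp

lemma tmap_add {X Y : T} (f g : X ⟶ Y) : R.tmap (f + g) = R.tmap f + R.tmap g := by
  refine R.tot_ext fun i x => ?_
  rw [LinearMap.add_apply, tmap_inc, tmap_inc, tmap_inc, mp_add, LinearMap.add_apply, map_add]

lemma tmap_zsmul {X Y : T} (n : ℤ) (f : X ⟶ Y) : R.tmap (n • f) = n • R.tmap f := by
  refine R.tot_ext fun i x => ?_
  rw [LinearMap.smul_apply, tmap_inc, tmap_inc, mp_zsmul, LinearMap.smul_apply, map_zsmul]

lemma tmap_sum {X Y : T} {ι : Type*} (s : Finset ι) (f : ι → (X ⟶ Y)) :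
    R.tmap (∑ j ∈ s, f j) = ∑ j ∈ s, R.tmap (f j) := by
  classical
  induction s using Finset.induction_on with
  | empty => simp [tmap_zero]
  | insert a s ha ih => rw [Finset.sum_insert ha, Finset.sum_insert ha, tmap_add, ih]

lemma inc_injective (i : ℤ) (X : T) : Function.Injective (R.inc i X) :=
  DirectSum.of_injective i

/-- `tmap f = 0` if and only if `f` induces zero in all degrees. -/
lemma tmap_eq_zero_iff {X Y : T} (f : X ⟶ Y) : R.tmap f = 0 ↔ ∀ i, R.mp i f = 0 := by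
  constructor
  · intro h i
    ext x
    apply R.inc_injective
    rw [← tmap_inc, h]
    simp
  · intro h
    refine R.tot_ext fun i x => ?_
    rw [tmap_inc, h]
    simp

lemma tcup_ext {X Y : T} {V : Type*} [AddCommGroup V] [Module F V]
    {φ ψ : R.Tot X →ₗ[F] R.Tot Y →ₗ[F] V}
    (h : ∀ i j x y, φ (R.inc i X x) (R.inc j Y y) = ψ (R.inc i X x) (R.inc j Y y)) : φ = ψ := by
  refine R.tot_ext fun i x => ?_
  exact R.tot_ext fun j y => h i j x y

lemma tcup_natural {X X' Y Y' : T} (f : X ⟶ X') (g : Y ⟶ Y') (x : R.Tot X) (y : R.Tot Y) :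
    R.tmap (f ⊗ₘ g) (R.tcup X Y x y) = R.tcup X' Y' (R.tmap f x) (R.tmap g y) := by
  have h : (R.tcup X Y).compr₂ (R.tmap (f ⊗ₘ g)) =
      (R.tcup X' Y').compl₁₂ (R.tmap f) (R.tmap g) := by
    refine R.tcup_ext fun i j x y => ?_
    rw [LinearMap.compr₂_apply, LinearMap.compl₁₂_apply, R.tcup_inc i j _ rfl, tmap_inc, tmap_inc,
      tmap_inc, R.tcup_inc i j _ rfl]
    exact congrArg _ (R.cup_natural rfl f g x y)
  exact LinearMap.congr_fun (LinearMap.congr_fun h x) y

lemma tcup_assoc {X Y Z : T} (x : R.Tot X) (y : R.Tot Y) (z : R.Tot Z) :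
    R.tmap (α_ X Y Z).hom (R.tcup (X ⊗ Y) Z (R.tcup X Y x y) z) =
      R.tcup X (Y ⊗ Z) x (R.tcup Y Z y z) := by
  induction x using DirectSum.induction_on with
  | zero => simp
  | add a b ha hb => simp only [map_add, LinearMap.add_apply, ha, hb]
  | of i x =>
  induction y using DirectSum.induction_on with
  | zero => simp
  | add a b ha hb => simp only [map_add, LinearMap.add_apply, ha, hb]
  | of j y =>
  induction z using DirectSum.induction_on with
  | zero => simp
  | add a b ha hb => simp only [map_add, ha, hb]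
  | of k z =>
  change R.tmap (α_ X Y Z).hom (R.tcup (X ⊗ Y) Z (R.tcup X Y (R.inc i X x) (R.inc j Y y))
    (R.inc k Z z)) = R.tcup X (Y ⊗ Z) (R.inc i X x) (R.tcup Y Z (R.inc j Y y) (R.inc k Z z))
  rw [R.tcup_inc i j _ rfl, R.tcup_inc _ k _ rfl, tmap_inc, R.tcup_inc j k _ rfl,
    R.tcup_inc i (j + k) (i + j + k) (by ring)]
  exact congrArg _ (R.cup_assoc rfl rfl rfl (by ring) X Y Z x y z)

/-- commutativity of the product for homogeneous elements. -/
lemma tcup_comm {X Y : T} (i j : ℤ) (x : R.Hm i X) (y : R.Hm j Y) :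
    R.tmap (β_ X Y).hom (R.tcup X Y (R.inc i X x) (R.inc j Y y)) =
      ((i * j).negOnePow : ℤ) • R.tcup Y X (R.inc j Y y) (R.inc i X x) := by
  rw [R.tcup_inc i j _ rfl, tmap_inc, R.tcup_inc j i (i + j) (add_comm _ _), ← map_zsmul]
  exact congrArg _ (R.cup_comm rfl (add_comm _ _) X Y x y)

end Realization

end Pool.Agent.Lib.MotT
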