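import Pool.Agent.Lib.MP_6d0ce9_ag.St.Sq

/-!
# Subquotients: transfer along truncations, direct sums
-/

set_option linter.unusedSectionVars false

universe w v u

open CategoryTheory Category Limits MonoidalCategory Pretriangulated Triangulated
open scoped ZeroObject

namespace Pool.Agent.Lib.MotT

section

variable {T : Type u} [Category.{v} T] [Preadditive T] [HasZeroObject T] [HasShift T ℤ]
  [∀ n : ℤ, (shiftFunctor T n).Additive] [Pretriangulated T] {t : TStructure T}

/-- A pure object is a subquotient of itself. -/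
def SubData.refl {j : ℤ} {X : T} (h1 : t.IsLE X j) (h2 : t.IsGE X j) : SubData t j X X where
  A := X
  B := X
  α := 𝟙 X
  β := 𝟙 X
  ε := 𝟙 X
  μ := 𝟙 X
  hA := h1
  hB := h2
  hX1 := h1
  hX2 := h2
  fac := rfl
  hε := EpiAt.of_iso _
  hμ := MonoAt.of_iso _

/-- Zero objects are subquotients. -/
def SubData.zero (j : ℤ) {X : T} (hX : IsZero X) (N : T) : SubData t j X N where
  A := X
  B := X
  α := 0
  β := 0
  ε := 𝟙 X
  μ := 𝟙 X
  hA := t.isLE_of_isZero hX j
  hB := t.isGE_of_isZero hX j
  hX1 := t.isLE_of_isZero hX j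
  hX2 := t.isGE_of_isZero hX j
  fac := hX.eq_of_src _ _
  hε := EpiAt.of_iso _
  hμ := MonoAt.of_iso _

/-- Subquotients of `P` are subquotients of `N` if the cone of `P ⟶ N` is in `D^{≥ j}`. -/
lemma SubData.of_mono {j : ℤ} {X P N C : T} {f : P ⟶ N} {g : N ⟶ C} {δ : C ⟶ P⟦(1 : ℤ)⟧}
    (hT : Triangle.mk f g δ ∈ distTriang T) (hC : t.IsGE C j) (D : SubData t j X P) :
    Nonempty (SubData t j X N) := by
  have hT' := inv_rot_of_distTriang _ hT
  obtain ⟨B', b, c, hB'⟩ := distinguished_cocone_triangle
    ((Triangle.mk f g δ).invRotate.mor₁ ≫ D.β)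
  obtain ⟨φ, h1⟩ : ∃ φ : N ⟶ B', f ≫ φ = D.β ≫ b := by
    obtain ⟨φ, hφ1, -⟩ := complete_distinguished_triangle_morphism _ _ hT' hB'
      (𝟙 _) D.β (id_comp _).symm
    exact ⟨φ, hφ1⟩
  have hrot := rot_of_distTriang _ hB'
  have hB1 : t.IsGE B' j := by
    refine isGE_ext t hrot j D.hB ?_
    change t.IsGE ((C⟦(-1 : ℤ)⟧)⟦(1 : ℤ)⟧) j
    have h1 := t.isGE_shift C j (-1) (j + 1) (by lia)
    exact t.isGE_shift _ (j + 1) 1 j (by lia)
  have hμ : MonoAt t j b := by
    refine monoAt_of_cone hrot ?_
    change t.IsGE ((C⟦(-1 : ℤ)⟧)⟦(1 : ℤ)⟧) j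
    have h1 := t.isGE_shift C j (-1) (j + 1) (by lia)
    exact t.isGE_shift _ (j + 1) 1 j (by lia)
  exact ⟨{ A := D.A
           B := B'
           α := D.α ≫ f
           β := φ
           ε := D.ε
           μ := D.μ ≫ b
           hA := D.hA
           hB := hB1
           hX1 := D.hX1
           hX2 := D.hX2
           fac := by rw [assoc, h1, ← assoc, D.fac, assoc]
           hε := D.hε
           hμ := D.hμ.comp hμ }⟩

/-- Subquotients of `N'` are subquotients of `N` if `N'` is the cone of `K ⟶ N` with `K` in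
`D^{≤ j}`. -/
lemma SubData.of_epi {j : ℤ} {X K N N' : T} {f : K ⟶ N} {g : N ⟶ N'} {δ : N' ⟶ K⟦(1 : ℤ)⟧}
    (hT : Triangle.mk f g δ ∈ distTriang T) (hK : t.IsLE K j) (D : SubData t j X N') :
    Nonempty (SubData t j X N) := by
  obtain ⟨A', a, c, hA'⟩ := distinguished_cocone_triangle₂ (D.α ≫ δ)
  obtain ⟨φ, h1⟩ : ∃ φ : A' ⟶ N, c ≫ D.α = φ ≫ g := by
    obtain ⟨φ, -, hφ2⟩ := complete_distinguished_triangle_morphism₂ _ _ hA' hT
      (𝟙 _) D.α ((congrArg (fun z => (D.α ≫ δ) ≫ z) ((shiftFunctor T (1 : ℤ)).map_id K)).trans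
        (comp_id _))
    exact ⟨φ, hφ2⟩
  have hA1 : t.IsLE A' j := isLE_ext t hA' j hK D.hA
  have hε : EpiAt t j c := by
    refine epiAt_of_cone (rot_of_distTriang _ hA') ?_
    exact t.isLE_shift K j 1 (j - 1) (by lia)
  exact ⟨{ A := A'
           B := D.B
           α := φ
           β := g ≫ D.β
           ε := c ≫ D.ε
           μ := D.μ
           hA := hA1
           hB := D.hB
           hX1 := D.hX1
           hX2 := D.hX2
           fac := by rw [← assoc, ← h1, assoc, D.fac, assoc]
           hε := hε.comp D.hε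
           hμ := D.hμ }⟩

/-- Direct sums of orthogonal subquotients. -/
lemma SubData.biproduct {j : ℤ} {I : Type} [Finite I] {X : I → T} {N : T}
    (D : ∀ i, SubData t j (X i) N) (h : ∀ i k, i ≠ k → (D i).α ≫ (D k).β = 0) :
    Nonempty (SubData t j (⨁ X) N) := by
  classical
  have hle : ∀ (Y : I → T), (∀ i, t.IsLE (Y i) j) → t.IsLE (⨁ Y) j := by
    intro Y hY
    apply isLE_of_orth
    intro B hB f
    ext i
    rw [comp_zero]
    exact t.zero_of_isLE_of_isGE _ j (j + 1) (by lia) (hY i) hB
  have hge : ∀ (Y : I → T), (∀ i, t.IsGE (Y i) j) → t.IsGE (⨁ Y) j := by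
    intro Y hY
    apply isGE_of_orth
    intro B hB f
    ext i
    rw [zero_comp]
    exact t.zero_of_isLE_of_isGE _ (j - 1) j (by lia) hB (hY i)
  exact ⟨{ A := ⨁ fun i => (D i).A
           B := ⨁ fun i => (D i).B
           α := biproduct.desc fun i => (D i).α
           β := biproduct.lift fun i => (D i).β
           ε := biproduct.map fun i => (D i).ε
           μ := biproduct.map fun i => (D i).μ
           hA := hle _ fun i => (D i).hA
           hB := hge _ fun i => (D i).hB
           hX1 := hle _ fun i => (D i).hX1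
           hX2 := hge _ fun i => (D i).hX2
           fac := by
             ext i k
             by_cases hik : i = k
             · subst hik
               simp [(D i).fac]
             · have h1 := h k i (Ne.symm hik)
               have h2 : biproduct.ι (fun i => (D i).A) k ≫
                   biproduct.π (fun i => (D i).A) i = 0 :=
                 biproduct.ι_π_ne _ (Ne.symm hik)
               simp [h1, reassoc_of% h2]
           hε := by
             intro Z hZ g hg
             ext i
             rw [comp_zero]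
             apply (D i).hε Z hZ
             have := congrArg (fun z => biproduct.ι _ i ≫ z) hg
             simpa using this
           hμ := by
             intro Z hZ g hg
             ext i
             rw [zero_comp]
             apply (D i).hμ Z hZ
             have := congrArg (fun z => z ≫ biproduct.π _ i) hg
             simpa using this }⟩

end

end Pool.Agent.Lib.MotT
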